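import Mathlib

/-!
# Real analysis: subadditive functions with a semiconcavity inequality
-/

namespace Pool.Agent.Helper322.EFPP

open Filter Topology

/-- basic regularity assumptions -/
structure Reg (f : ℝ → ℝ) (M : ℝ) : Prop where
  sub : ∀ s t, 0 ≤ s → 0 ≤ t → f (s + t) ≤ f s + f t
  lip : ∀ s t, 0 ≤ s → s ≤ t → f s ≤ f t + f (t - s)
  bdd : ∀ t, 0 ≤ t → t ≤ 1 → f t ≤ M
  nonneg : ∀ t, 0 ≤ t → 0 ≤ f t

theorem Reg.tendsto {f : ℝ → ℝ} {M : ℝ} (h : Reg f M) :
    ∃ L : ℝ, Tendsto (fun t : ℝ => f t / t) atTop (𝓝 L) ∧ ∀ t : ℝ, 0 < t → L ≤ f t / t := by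
  have hsub : Subadditive (fun k : ℕ => f k) := by
    intro m n
    push_cast
    exact h.sub m n (Nat.cast_nonneg m) (Nat.cast_nonneg n)
  have hbdd : BddBelow (Set.range fun n : ℕ => f n / n) := by
    refine ⟨0, ?_⟩
    rintro _ ⟨n, rfl⟩
    exact div_nonneg (h.nonneg n (Nat.cast_nonneg n)) (Nat.cast_nonneg n)
  have hlim := hsub.tendsto_lim hbdd
  set L := hsub.lim with hL
  have hfloor : Tendsto (fun t : ℝ => ⌊t⌋₊) atTop atTop := tendsto_nat_floor_atTop
  have h1 : Tendsto (fun t : ℝ => f (⌊t⌋₊ : ℝ) / (⌊t⌋₊ : ℝ)) atTop (𝓝 L) := hlim.comp hfloor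
  have h2 : Tendsto (fun t : ℝ => (⌊t⌋₊ : ℝ) / t) atTop (𝓝 1) := tendsto_nat_floor_div_atTop
  have h3 : Tendsto (fun t : ℝ => (f t - f (⌊t⌋₊ : ℝ)) / t) atTop (𝓝 0) := by
    have hM : 0 ≤ M := (h.nonneg 0 le_rfl).trans (h.bdd 0 le_rfl zero_le_one)
    have hb : Tendsto (fun t : ℝ => M / t) atTop (𝓝 0) := tendsto_const_nhds.div_atTop tendsto_id
    have hb' : Tendsto (fun t : ℝ => -(M / t)) atTop (𝓝 0) := by simpa using hb.neg
    apply tendsto_of_tendsto_of_tendsto_of_le_of_le' hb' hb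
    · filter_upwards [eventually_gt_atTop 0] with t ht
      have h4 := Nat.floor_le ht.le
      have h5 := Nat.lt_floor_add_one t
      have h6 := h.lip (⌊t⌋₊ : ℝ) t (Nat.cast_nonneg _) h4
      have h7 := h.bdd (t - ⌊t⌋₊) (by linarith) (by linarith)
      rw [← neg_div]
      apply div_le_div_of_nonneg_right _ ht.le
      linarith
    · filter_upwards [eventually_gt_atTop 0] with t ht
      have h4 := Nat.floor_le ht.le
      have h5 := Nat.lt_floor_add_one t
      have h6 := h.sub (⌊t⌋₊ : ℝ) (t - ⌊t⌋₊) (Nat.cast_nonneg _) (by linarith)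
      rw [add_sub_cancel] at h6
      have h7 := h.bdd (t - ⌊t⌋₊) (by linarith) (by linarith)
      apply div_le_div_of_nonneg_right _ ht.le
      linarith
  have hmain : Tendsto (fun t : ℝ => f t / t) atTop (𝓝 L) := by
    have h8 := (h1.mul h2).add h3
    rw [mul_one, add_zero] at h8
    apply h8.congr'
    filter_upwards [eventually_ge_atTop 1] with t ht
    have h4 : 0 < (⌊t⌋₊ : ℝ) := by
      have : 0 < ⌊t⌋₊ := Nat.floor_pos.mpr ht
      exact_mod_cast this
    have ht0 : 0 < t := by linarith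
    field_simp
    ring
  refine ⟨L, hmain, ?_⟩
  intro t ht
  -- f (k t) ≤ k f t
  have hk : ∀ k : ℕ, f ((k + 1 : ℕ) * t) ≤ (k + 1 : ℕ) * f t := by
    intro k
    induction k with
    | zero => simp
    | succ k ih =>
      have e1 : ((k + 1 + 1 : ℕ) : ℝ) * t = ((k + 1 : ℕ) : ℝ) * t + t := by push_cast; ring
      rw [e1]
      have := h.sub (((k + 1 : ℕ) : ℝ) * t) t (by positivity) ht.le
      push_cast at *
      linarith
  have hseq : Tendsto (fun k : ℕ => ((k + 1 : ℕ) : ℝ) * t) atTop atTop := by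
    apply Tendsto.atTop_mul_const ht
    exact tendsto_natCast_atTop_atTop.comp (tendsto_add_atTop_nat 1)
  have h9 := hmain.comp hseq
  apply le_of_tendsto' h9
  intro k
  simp only [Function.comp]
  rw [div_le_div_iff₀ (by positivity) ht]
  have := hk k
  nlinarith

/-- iterating a local increment bound -/
theorem chain_up {f : ℝ → ℝ} {c δ n₁ : ℝ} (hδ : 0 < δ) (hn₁ : 0 < n₁)
    (hloc : ∀ n m : ℝ, n₁ ≤ n → n ≤ m → m ≤ Real.exp δ * n → c * (m - n) ≤ f m - f n) :
    ∀ n m : ℝ, n₁ ≤ n → n ≤ m → c * (m - n) ≤ f m - f n := by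
  have key : ∀ k : ℕ, ∀ n m : ℝ, n₁ ≤ n → n ≤ m → m ≤ Real.exp δ ^ k * n →
      c * (m - n) ≤ f m - f n := by
    intro k
    induction k with
    | zero =>
      intro n m hn hnm hm
      have : m = n := by simp at hm; linarith
      subst this; simp
    | succ k ih =>
      intro n m hn hnm hm
      have hn0 : 0 < n := by linarith
      by_cases hle : m ≤ Real.exp δ * n
      · exact hloc n m hn hnm hle
      · push Not at hle
        have hE : 0 < Real.exp δ := Real.exp_pos δ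
        have hE1 : 1 ≤ Real.exp δ := Real.one_le_exp hδ.le
        set m' := m / Real.exp δ with hm'
        have hm'1 : n ≤ m' := by rw [hm', le_div_iff₀ hE]; linarith
        have hm'2 : m' ≤ Real.exp δ ^ k * n := by
          rw [hm', div_le_iff₀ hE]
          calc m ≤ Real.exp δ ^ (k + 1) * n := hm
            _ = Real.exp δ ^ k * n * Real.exp δ := by rw [pow_succ]; ring
        have hm'3 : Real.exp δ * m' = m := by rw [hm']; field_simp
        have hm'4 : m' ≤ m := by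
          rw [← hm'3]
          have : 0 < m' := by linarith
          nlinarith
        have h1 := ih n m' hn hm'1 hm'2
        have h2 := hloc m' m (by linarith) hm'4 hm'3.ge
        linarith
  intro n m hn hnm
  have hn0 : 0 < n := by linarith
  have hE : 1 < Real.exp δ := Real.one_lt_exp_iff.mpr hδ
  obtain ⟨k, hk⟩ := pow_unbounded_of_one_lt (m / n) hE
  apply key k n m hn hnm
  rw [div_lt_iff₀ hn0] at hk
  exact hk.le

theorem exp_sub_one_le (h : ℝ) : Real.exp h - 1 ≤ h * Real.exp h := by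
  have h1 := Real.add_one_le_exp (-h)
  have t2 : (1 - h) * Real.exp h ≤ Real.exp (-h) * Real.exp h :=
    mul_le_mul_of_nonneg_right (by linarith) (Real.exp_pos _).le
  rw [← Real.exp_add, neg_add_cancel, Real.exp_zero] at t2
  linarith

theorem Reg.ev_bounds {f : ℝ → ℝ} {L : ℝ} (hL : Tendsto (fun t : ℝ => f t / t) atTop (𝓝 L))
    {ε' : ℝ} (hε' : 0 < ε') :
    ∃ N : ℝ, ∀ t : ℝ, N ≤ t → (L - ε') * t ≤ f t ∧ f t ≤ (L + ε') * t := by
  have hev5 : ∀ᶠ t : ℝ in atTop, (L - ε') * t ≤ f t ∧ f t ≤ (L + ε') * t := by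
    have h1 := hL.eventually (lt_mem_nhds (show L - ε' < L by linarith))
    have h2 := hL.eventually (gt_mem_nhds (show L < L + ε' by linarith))
    filter_upwards [h1, h2, eventually_gt_atTop 0] with t h3 h4 h5
    rw [lt_div_iff₀ h5] at h3
    rw [div_lt_iff₀ h5] at h4
    exact ⟨h3.le, h4.le⟩
  exact eventually_atTop.mp hev5

/-- lower bound for the increments from the semiconcavity inequality -/
theorem slope_lower' {f : ℝ → ℝ} {L C K δ₀ : ℝ}
    (hL : Tendsto (fun t : ℝ => f t / t) atTop (𝓝 L))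
    (hC : 0 ≤ C) (hK : 0 ≤ K) (hδ₀ : 0 < δ₀)
    (hineq : ∀ n h δ : ℝ, 0 < n → 0 < h → h ≤ δ → δ ≤ δ₀ →
      (1 - h/δ) * f n + (h/δ) * (f (Real.exp δ * n) - 2 * C * δ) ≤
        (1 + K * (h * δ)) * (f (Real.exp h * n) + 2 * C * h))
    {ε : ℝ} (hε : 0 < ε) (hεL : ε < L) : ∃ n₁ : ℝ, 0 < n₁ ∧ ∀ n m : ℝ, n₁ ≤ n → n ≤ m →
      (L - ε) * (m - n) ≤ f m - f n := by
  -- choose δ
  have hL0 : 0 < L := hε.trans hεL
  have hcont : Tendsto (fun δ : ℝ => K * δ * (L + 1) * Real.exp δ + (L - ε) * Real.exp δ)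
      (𝓝[>] 0) (𝓝 (L - ε)) := by
    have : Continuous (fun δ : ℝ => K * δ * (L + 1) * Real.exp δ + (L - ε) * Real.exp δ) := by
      fun_prop
    have h1 := this.tendsto 0
    simp only [mul_zero, zero_mul, Real.exp_zero, mul_one, zero_add] at h1
    exact h1.mono_left nhdsWithin_le_nhds
  have hcont2 : Tendsto (fun δ : ℝ => K * δ ^ 2) (𝓝[>] 0) (𝓝 0) := by
    have : Continuous (fun δ : ℝ => K * δ ^ 2) := by fun_prop
    have h1 := this.tendsto 0
    simp only [ne_eq, OfNat.ofNat_ne_zero, not_false_eq_true, zero_pow, mul_zero] at h1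
    exact h1.mono_left nhdsWithin_le_nhds
  have hev1 := hcont.eventually (gt_mem_nhds (show L - ε < L - ε / 2 by linarith))
  have hev2 := hcont2.eventually (gt_mem_nhds (show (0:ℝ) < 1 by norm_num))
  have hev3 : ∀ᶠ δ : ℝ in 𝓝[>] 0, δ ≤ δ₀ :=
    (eventually_le_nhds hδ₀).filter_mono nhdsWithin_le_nhds
  have hev4 : ∀ᶠ δ : ℝ in 𝓝[>] 0, 0 < δ := eventually_mem_nhdsWithin
  obtain ⟨δ, hδ1, hδ2, hδ3, hδ⟩ := (hev1.and (hev2.and (hev3.and hev4))).exists
  -- choose ε'
  have hE : 0 < Real.exp δ + 1 := by positivity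
  set ε' : ℝ := min 1 (ε / 4 * δ / (Real.exp δ + 1)) with hε'
  have hε'0 : 0 < ε' := by
    apply lt_min one_pos; positivity
  have hε'1 : ε' ≤ 1 := min_le_left _ _
  have hε'2 : ε' * (Real.exp δ + 1) / δ ≤ ε / 4 := by
    have h1 : ε' ≤ ε / 4 * δ / (Real.exp δ + 1) := min_le_right _ _
    rw [div_le_iff₀ hδ]
    rw [le_div_iff₀ hE] at h1
    exact h1
  -- choose n₁
  obtain ⟨N, hN⟩ := Reg.ev_bounds hL hε'0
  set n₁ : ℝ := max (max N 1) (24 * C / ε) with hn₁
  have hn₁1 : N ≤ n₁ := (le_max_left _ _).trans (le_max_left _ _)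
  have hn₁2 : 1 ≤ n₁ := (le_max_right _ _).trans (le_max_left _ _)
  have hn₁3 : 24 * C / ε ≤ n₁ := le_max_right _ _
  refine ⟨n₁, by linarith, ?_⟩
  apply chain_up hδ (by linarith)
  intro n m hn hnm hm
  rcases hnm.eq_or_lt with rfl | hlt
  · simp
  have hn0 : 0 < n := by linarith
  have hm0 : 0 < m := by linarith
  set h := Real.log (m / n) with hh
  have hexp : Real.exp h = m / n := Real.exp_log (by positivity)
  have hh0 : 0 < h := Real.log_pos (by rw [lt_div_iff₀ hn0]; linarith)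
  have hhδ : h ≤ δ := by
    rw [hh, Real.log_le_iff_le_exp (by positivity), div_le_iff₀ hn0]; exact hm
  have hmn : Real.exp h * n = m := by rw [hexp]; field_simp
  have hmain := hineq n h δ hn0 hh0 hhδ hδ3
  rw [hmn] at hmain
  have e1 : 1 ≤ Real.exp δ := Real.one_le_exp hδ.le
  have hEn : n ≤ Real.exp δ * n := le_mul_of_one_le_left hn0.le e1
  have hb1 := hN n (by linarith)
  have hb2 := hN (Real.exp δ * n) (by linarith)
  have hb3 := hN m (by linarith)
  have hhδ0 : 0 < h * δ := mul_pos hh0 hδ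
  have hhn : 0 < h * n := mul_pos hh0 hn0
  have hKhδ : K * (h * δ) ≤ 1 := by
    have h1 : K * (h * δ) ≤ K * (δ * δ) := by gcongr
    have h2 : K * (δ * δ) = K * δ ^ 2 := by ring
    linarith
  have hKhδ0 : 0 ≤ K * (h * δ) := by positivity
  have hfm : f m ≤ (L + 1) * (Real.exp δ * n) := by
    have h1 : (L + ε') * m ≤ (L + 1) * (Real.exp δ * n) :=
      mul_le_mul (by linarith) hm hm0.le (by linarith)
    linarith [hb3.2]
  have t1 : K * (h * δ) * f m ≤ K * (h * δ) * ((L + 1) * (Real.exp δ * n)) :=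
    mul_le_mul_of_nonneg_left hfm hKhδ0
  have t2 : K * (h * δ) * (2 * C * h) ≤ 1 * (2 * C * h) :=
    mul_le_mul_of_nonneg_right hKhδ (by positivity)
  have t3 : (h/δ) * (2 * C * δ) = 2 * C * h := by field_simp
  have h10 : (h/δ) * (f (Real.exp δ * n) - f n) - 6 * C * h -
      K * (h * δ) * ((L + 1) * (Real.exp δ * n)) ≤ f m - f n := by
    have e2 : (1 - h/δ) * f n + (h/δ) * (f (Real.exp δ * n) - 2 * C * δ) =
      f n + (h/δ) * (f (Real.exp δ * n) - f n) - (h/δ) * (2 * C * δ) := by ring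
    have e3 : (1 + K * (h * δ)) * (f m + 2 * C * h) =
      f m + 2 * C * h + K * (h * δ) * f m + K * (h * δ) * (2 * C * h) := by ring
    rw [e2, e3, t3] at hmain
    linarith
  have h11 : (Real.exp δ * n - n) * L - ε' * (Real.exp δ + 1) * n ≤
      f (Real.exp δ * n) - f n := by
    have e2 : (Real.exp δ * n - n) * L - ε' * (Real.exp δ + 1) * n =
      (L - ε') * (Real.exp δ * n) - (L + ε') * n := by ring
    rw [e2]
    linarith [hb2.1, hb1.2]
  have h12 : δ ≤ Real.exp δ - 1 := by linarith [Real.add_one_le_exp δ]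
  have h13 : h * n * L - h * n * (ε / 4) ≤ (h/δ) * (f (Real.exp δ * n) - f n) := by
    have u1 : (h/δ) * ((Real.exp δ * n - n) * L - ε' * (Real.exp δ + 1) * n) ≤
      (h/δ) * (f (Real.exp δ * n) - f n) := mul_le_mul_of_nonneg_left h11 (by positivity)
    have u2 : (h/δ) * ((Real.exp δ * n - n) * L - ε' * (Real.exp δ + 1) * n) =
      (Real.exp δ - 1) / δ * (h * n * L) - (ε' * (Real.exp δ + 1) / δ) * (h * n) := by
      field_simp
    have u4 : 1 ≤ (Real.exp δ - 1) / δ := by rw [le_div_iff₀ hδ]; linarith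
    have u5 : 0 ≤ h * n * L := by positivity
    have u6 : 1 * (h * n * L) ≤ (Real.exp δ - 1) / δ * (h * n * L) :=
      mul_le_mul_of_nonneg_right u4 u5
    have u7 : (ε' * (Real.exp δ + 1) / δ) * (h * n) ≤ (ε / 4) * (h * n) :=
      mul_le_mul_of_nonneg_right hε'2 hhn.le
    rw [u2] at u1
    linarith
  have h14 : m - n ≤ Real.exp δ * (h * n) := by
    have v1 := exp_sub_one_le h
    have v3 : Real.exp h ≤ Real.exp δ := Real.exp_le_exp.mpr hhδ
    have v4 : h * Real.exp h ≤ h * Real.exp δ := mul_le_mul_of_nonneg_left v3 hh0.le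
    have v5 : m - n = (Real.exp h - 1) * n := by rw [sub_mul, hmn]; ring
    have v6 : (Real.exp h - 1) * n ≤ (h * Real.exp δ) * n :=
      mul_le_mul_of_nonneg_right (by linarith) hn0.le
    rw [v5]
    linarith
  have h15 : 6 * C * h ≤ ε / 4 * (h * n) := by
    have v1 : 24 * C ≤ ε * n := by
      have := hn₁3.trans hn
      rw [div_le_iff₀ hε] at this
      linarith
    have : 24 * C * h ≤ ε * n * h := mul_le_mul_of_nonneg_right v1 hh0.le
    linarith
  have h17 : (L - ε) * (m - n) ≤ (L - ε) * (Real.exp δ * (h * n)) :=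
    mul_le_mul_of_nonneg_left h14 (by linarith)
  have h19 : K * (h * δ) * ((L + 1) * (Real.exp δ * n)) =
    (K * δ * (L + 1) * Real.exp δ) * (h * n) := by ring
  rw [h19] at h10
  have h20 : (K * δ * (L + 1) * Real.exp δ + (L - ε) * Real.exp δ) * (h * n) ≤
      (L - ε / 2) * (h * n) := mul_le_mul_of_nonneg_right hδ1.le hhn.le
  have h21 : (K * δ * (L + 1) * Real.exp δ + (L - ε) * Real.exp δ) * (h * n) =
    (K * δ * (L + 1) * Real.exp δ) * (h * n) + (L - ε) * (Real.exp δ * (h * n)) := by ring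
  rw [h21] at h20
  linarith

theorem slope_lower {f : ℝ → ℝ} {L C K δ₀ : ℝ}
    (hL : Tendsto (fun t : ℝ => f t / t) atTop (𝓝 L)) (hL0 : 0 < L)
    (hC : 0 ≤ C) (hK : 0 ≤ K) (hδ₀ : 0 < δ₀)
    (hineq : ∀ n h δ : ℝ, 0 < n → 0 < h → h ≤ δ → δ ≤ δ₀ →
      (1 - h/δ) * f n + (h/δ) * (f (Real.exp δ * n) - 2 * C * δ) ≤
        (1 + K * (h * δ)) * (f (Real.exp h * n) + 2 * C * h))
    {ε : ℝ} (hε : 0 < ε) : ∃ n₁ : ℝ, 0 < n₁ ∧ ∀ n m : ℝ, n₁ ≤ n → n ≤ m →
      (L - ε) * (m - n) ≤ f m - f n := by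
  have h1 : 0 < min ε (L / 2) := lt_min hε (by linarith)
  have h2 : min ε (L / 2) < L := lt_of_le_of_lt (min_le_right _ _) (by linarith)
  obtain ⟨n₁, hn₁, h3⟩ := slope_lower' hL hC hK hδ₀ hineq h1 h2
  refine ⟨n₁, hn₁, fun n m hn hnm => le_trans ?_ (h3 n m hn hnm)⟩
  apply mul_le_mul_of_nonneg_right _ (by linarith)
  linarith [min_le_left ε (L / 2)]

/-- upper bound for the increments from the backward semiconcavity inequality -/
theorem slope_upper {f : ℝ → ℝ} {L C K δ₀ : ℝ}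
    (hL : Tendsto (fun t : ℝ => f t / t) atTop (𝓝 L)) (hL0 : 0 < L)
    (hC : 0 ≤ C) (hK : 0 ≤ K) (hδ₀ : 0 < δ₀)
    (hineq : ∀ n h δ : ℝ, 0 < n → 0 < h → h ≤ δ → δ ≤ δ₀ →
      (1 - h/δ) * f n + (h/δ) * (f (Real.exp (-δ) * n) - 2 * C * δ) ≤
        (1 + K * (h * δ)) * (f (Real.exp (-h) * n) + 2 * C * h))
    {ε : ℝ} (hε : 0 < ε) : ∃ n₁ : ℝ, 0 < n₁ ∧ ∀ n m : ℝ, n₁ ≤ n → n ≤ m →
      f m - f n ≤ (L + ε) * (m - n) := by
  have hcont : Tendsto (fun δ : ℝ => K * δ * (L + 1) + L - (L + ε) * Real.exp (-δ))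
      (𝓝[>] 0) (𝓝 (L - (L + ε))) := by
    have : Continuous (fun δ : ℝ => K * δ * (L + 1) + L - (L + ε) * Real.exp (-δ)) := by
      fun_prop
    have h1 := this.tendsto 0
    simp only [mul_zero, zero_mul, neg_zero, Real.exp_zero, mul_one, zero_add] at h1
    exact h1.mono_left nhdsWithin_le_nhds
  have hcont2 : Tendsto (fun δ : ℝ => K * δ ^ 2) (𝓝[>] 0) (𝓝 0) := by
    have : Continuous (fun δ : ℝ => K * δ ^ 2) := by fun_prop
    have h1 := this.tendsto 0
    simp only [ne_eq, OfNat.ofNat_ne_zero, not_false_eq_true, zero_pow, mul_zero] at h1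
    exact h1.mono_left nhdsWithin_le_nhds
  have hev1 := hcont.eventually (gt_mem_nhds (show L - (L + ε) < -(ε / 2) by linarith))
  have hev2 := hcont2.eventually (gt_mem_nhds (show (0:ℝ) < 1 by norm_num))
  have hev3 : ∀ᶠ δ : ℝ in 𝓝[>] 0, δ ≤ δ₀ :=
    (eventually_le_nhds hδ₀).filter_mono nhdsWithin_le_nhds
  have hev4 : ∀ᶠ δ : ℝ in 𝓝[>] 0, 0 < δ := eventually_mem_nhdsWithin
  obtain ⟨δ, hδ1, hδ2, hδ3, hδ⟩ := (hev1.and (hev2.and (hev3.and hev4))).exists
  set ε' : ℝ := min 1 (ε / 8 * δ) with hε'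
  have hε'0 : 0 < ε' := by
    apply lt_min one_pos; positivity
  have hε'1 : ε' ≤ 1 := min_le_left _ _
  have hε'2 : ε' * 2 / δ ≤ ε / 4 := by
    have h1 : ε' ≤ ε / 8 * δ := min_le_right _ _
    rw [div_le_iff₀ hδ]
    linarith
  obtain ⟨N, hN⟩ := Reg.ev_bounds hL hε'0
  -- the inequality is used at the right end point `m`, with `m ≥ n ≥ n₁`
  set n₁ : ℝ := max (max (Real.exp δ * N) (Real.exp δ)) (24 * C / ε) with hn₁
  have hn₁1 : Real.exp δ * N ≤ n₁ := (le_max_left _ _).trans (le_max_left _ _)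
  have hn₁2 : Real.exp δ ≤ n₁ := (le_max_right _ _).trans (le_max_left _ _)
  have hn₁3 : 24 * C / ε ≤ n₁ := le_max_right _ _
  have e1 : 1 ≤ Real.exp δ := Real.one_le_exp hδ.le
  refine ⟨n₁, by linarith, ?_⟩
  have hneg : ∀ n m : ℝ, n₁ ≤ n → n ≤ m → (-(L + ε)) * (m - n) ≤ (fun t => - f t) m - (fun t => - f t) n := by
    apply chain_up hδ (by linarith)
    intro n m hn hnm hm
    rcases hnm.eq_or_lt with rfl | hlt
    · simp
    have hn0 : 0 < n := by linarith
    have hm0 : 0 < m := by linarith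
    set h := Real.log (m / n) with hh
    have hexp : Real.exp h = m / n := Real.exp_log (by positivity)
    have hh0 : 0 < h := Real.log_pos (by rw [lt_div_iff₀ hn0]; linarith)
    have hhδ : h ≤ δ := by
      rw [hh, Real.log_le_iff_le_exp (by positivity), div_le_iff₀ hn0]; exact hm
    have hmn : Real.exp (-h) * m = n := by rw [Real.exp_neg, hexp]; field_simp
    have hmain := hineq m h δ hm0 hh0 hhδ hδ3
    rw [hmn] at hmain
    have hEδ : Real.exp (-δ) ≤ 1 := Real.exp_le_one_iff.mpr (by linarith)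
    have hEδ0 : 0 < Real.exp (-δ) := Real.exp_pos _
    have hNm : N ≤ Real.exp (-δ) * m := by
      have v1 : Real.exp δ * N ≤ m := by linarith
      have v2 : Real.exp (-δ) * (Real.exp δ * N) ≤ Real.exp (-δ) * m :=
        mul_le_mul_of_nonneg_left v1 hEδ0.le
      rw [← mul_assoc, ← Real.exp_add, neg_add_cancel, Real.exp_zero, one_mul] at v2
      exact v2
    have hEm : Real.exp (-δ) * m ≤ m := mul_le_of_le_one_left hm0.le hEδ
    have hnm2 : Real.exp (-δ) * m ≤ n := by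
      rw [← hmn]
      exact mul_le_mul_of_nonneg_right (Real.exp_le_exp.mpr (by linarith)) hm0.le
    have hb1 := hN m (by linarith)
    have hb2 := hN (Real.exp (-δ) * m) hNm
    have hb3 := hN n (by linarith)
    have hhδ0 : 0 < h * δ := mul_pos hh0 hδ
    have hhm : 0 < h * m := mul_pos hh0 hm0
    have hKhδ : K * (h * δ) ≤ 1 := by
      have h1 : K * (h * δ) ≤ K * (δ * δ) := by gcongr
      have h2 : K * (δ * δ) = K * δ ^ 2 := by ring
      linarith
    have hKhδ0 : 0 ≤ K * (h * δ) := by positivity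
    have hfn : f n ≤ (L + 1) * m := by
      have h1 : (L + ε') * n ≤ (L + 1) * m :=
        mul_le_mul (by linarith) hnm hn0.le (by linarith)
      linarith [hb3.2]
    have t1 : K * (h * δ) * f n ≤ K * (h * δ) * ((L + 1) * m) :=
      mul_le_mul_of_nonneg_left hfn hKhδ0
    have t2 : K * (h * δ) * (2 * C * h) ≤ 1 * (2 * C * h) :=
      mul_le_mul_of_nonneg_right hKhδ (by positivity)
    have t3 : (h/δ) * (2 * C * δ) = 2 * C * h := by field_simp
    have h10 : f m - f n ≤ (h/δ) * (f m - f (Real.exp (-δ) * m)) + 6 * C * h +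
        K * (h * δ) * ((L + 1) * m) := by
      have e2 : (1 - h/δ) * f m + (h/δ) * (f (Real.exp (-δ) * m) - 2 * C * δ) =
        f m - (h/δ) * (f m - f (Real.exp (-δ) * m)) - (h/δ) * (2 * C * δ) := by ring
      have e3 : (1 + K * (h * δ)) * (f n + 2 * C * h) =
        f n + 2 * C * h + K * (h * δ) * f n + K * (h * δ) * (2 * C * h) := by ring
      rw [e2, e3, t3] at hmain
      linarith
    have h11 : f m - f (Real.exp (-δ) * m) ≤ (1 - Real.exp (-δ)) * (m * L) + ε' * 2 * m := by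
      have e2 : (L + ε') * m - (L - ε') * (Real.exp (-δ) * m) =
        (1 - Real.exp (-δ)) * (m * L) + ε' * (1 + Real.exp (-δ)) * m := by ring
      have e3 : ε' * (1 + Real.exp (-δ)) * m ≤ ε' * 2 * m := by gcongr; linarith
      linarith [hb2.1, hb1.2]
    have h12 : 1 - Real.exp (-δ) ≤ δ := by linarith [Real.add_one_le_exp (-δ)]
    have h13 : (h/δ) * (f m - f (Real.exp (-δ) * m)) ≤ h * m * L + h * m * (ε / 4) := by
      have u1 := mul_le_mul_of_nonneg_left h11 (show 0 ≤ h/δ by positivity)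
      have u2 : (h/δ) * ((1 - Real.exp (-δ)) * (m * L) + ε' * 2 * m) =
        (1 - Real.exp (-δ)) / δ * (h * m * L) + (ε' * 2 / δ) * (h * m) := by
        field_simp
      have u4 : (1 - Real.exp (-δ)) / δ ≤ 1 := by rw [div_le_iff₀ hδ]; linarith
      have u5 : 0 ≤ h * m * L := by positivity
      have u6 : (1 - Real.exp (-δ)) / δ * (h * m * L) ≤ 1 * (h * m * L) :=
        mul_le_mul_of_nonneg_right u4 u5
      have u7 : (ε' * 2 / δ) * (h * m) ≤ (ε / 4) * (h * m) :=
        mul_le_mul_of_nonneg_right hε'2 hhm.le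
      rw [u2] at u1
      linarith
    have h14 : Real.exp (-δ) * (h * m) ≤ m - n := by
      have v1 := exp_sub_one_le (-h)
      have v3 : Real.exp (-δ) ≤ Real.exp (-h) := Real.exp_le_exp.mpr (by linarith)
      have v4 : h * Real.exp (-δ) ≤ h * Real.exp (-h) := mul_le_mul_of_nonneg_left v3 hh0.le
      have v5 : m - n = (1 - Real.exp (-h)) * m := by rw [sub_mul, hmn]; ring
      have v6 : (h * Real.exp (-δ)) * m ≤ (1 - Real.exp (-h)) * m :=
        mul_le_mul_of_nonneg_right (by linarith) hm0.le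
      rw [v5]
      linarith
    have h15 : 6 * C * h ≤ ε / 4 * (h * m) := by
      have v1 : 24 * C ≤ ε * m := by
        have := hn₁3.trans (hn.trans hnm)
        rw [div_le_iff₀ hε] at this
        linarith
      have : 24 * C * h ≤ ε * m * h := mul_le_mul_of_nonneg_right v1 hh0.le
      linarith
    have h17 : (L + ε) * (Real.exp (-δ) * (h * m)) ≤ (L + ε) * (m - n) :=
      mul_le_mul_of_nonneg_left h14 (by linarith)
    have h19 : K * (h * δ) * ((L + 1) * m) = (K * δ * (L + 1)) * (h * m) := by ring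
    rw [h19] at h10
    have h20 : (K * δ * (L + 1) + L - (L + ε) * Real.exp (-δ)) * (h * m) ≤
        (-(ε / 2)) * (h * m) := mul_le_mul_of_nonneg_right hδ1.le hhm.le
    have h21 : (K * δ * (L + 1) + L - (L + ε) * Real.exp (-δ)) * (h * m) =
      (K * δ * (L + 1)) * (h * m) + h * m * L - (L + ε) * (Real.exp (-δ) * (h * m)) := by ring
    rw [h21] at h20
    linarith
  intro n m hn hnm
  have := hneg n m hn hnm
  simp only at this
  linarith

end Pool.Agent.Helper322.EFPP
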