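import Pool.Agent.Helper322.EFPP.Poisson2

/-!
# Two particles at almost the same distance from a point
-/

namespace Pool.Agent.Helper322.EFPP

open MeasureTheory Set ProbabilityTheory Metric
open scoped ENNReal

variable {d : ℕ} {Ω : Type*} [MeasurableSpace Ω] {P : Measure Ω} {Q : Ω → Set (Sp d)}

/-- radii -/
noncomputable def rho (s : ℝ) (j : ℤ) : ℝ := Real.exp (2 * s * j)

theorem rho_pos (s : ℝ) (j : ℤ) : 0 < rho s j := Real.exp_pos _

theorem rho_succ (s : ℝ) (j : ℤ) : rho s (j + 1) = Real.exp (2 * s) * rho s j := by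
  unfold rho; rw [← Real.exp_add]; congr 1; push_cast; ring

theorem rho_mono {s : ℝ} (hs : 0 < s) {i j : ℤ} (h : i ≤ j) : rho s i ≤ rho s j := by
  unfold rho
  apply Real.exp_le_exp.mpr
  have : (i : ℝ) ≤ j := by exact_mod_cast h
  nlinarith

/-- the shell -/
def shell (x : Sp d) (s : ℝ) (j : ℤ) : Set (Sp d) := ball x (rho s (j + 2)) \ ball x (rho s j)

theorem shell_meas (x : Sp d) (s : ℝ) (j : ℤ) : MeasurableSet (shell x s j) :=
  measurableSet_ball.diff measurableSet_ball

theorem shell_vol_toReal (x : Sp d) {s : ℝ} (hs : 0 < s) (j : ℤ) :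
    (volume (shell x s j)).toReal = kap d * rho s j ^ d * (Real.exp (4 * s * d) - 1) := by
  unfold shell
  have hsub : ball x (rho s j) ⊆ ball x (rho s (j + 2)) :=
    ball_subset_ball (rho_mono hs (by omega))
  rw [measure_sdiff hsub measurableSet_ball.nullMeasurableSet measure_ball_lt_top.ne,
    ENNReal.toReal_sub_of_le (measure_mono hsub) measure_ball_lt_top.ne,
    vol_ball_toReal x (rho_pos _ _), vol_ball_toReal x (rho_pos _ _)]
  have h2 : rho s (j + 2) = Real.exp (4 * s) * rho s j := by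
    rw [show j + 2 = (j + 1) + 1 by ring, rho_succ, rho_succ, ← mul_assoc, ← Real.exp_add]
    congr 2; ring
  rw [h2, mul_pow, ← Real.exp_nat_mul]
  have h3 : (d : ℝ) * (4 * s) = 4 * s * d := by ring
  rw [h3]; ring

theorem shell_vol_ne_top (x : Sp d) (s : ℝ) (j : ℤ) : volume (shell x s j) ≠ ⊤ :=
  ((measure_mono Set.sdiff_subset).trans_lt measure_ball_lt_top).ne

/-- no particle in the inner ball, two particles in the shell -/
def pairEv (Q : Ω → Set (Sp d)) (x : Sp d) (s : ℝ) (j : ℤ) : Set Ω :=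
  {ω | Q ω ∩ ball x (rho s j) = ∅} ∩ {ω | 2 ≤ (Q ω ∩ shell x s j).encard}

theorem pairEv_meas (hQ : IsPoissonProcess P Q) (x : Sp d) (s : ℝ) (j : ℤ) :
    MeasurableSet (pairEv Q x s j) :=
  (hQ.meas_void measurableSet_ball).inter (hQ.meas_encard (shell_meas x s j) {n | 2 ≤ n})

theorem pairEv_prob [IsProbabilityMeasure P] (hQ : IsPoissonProcess P Q) (x : Sp d) {s : ℝ}
    (hs : 0 < s) (j : ℤ) :
    P (pairEv Q x s j) ≤ ENNReal.ofReal (Real.exp (-(kap d * rho s j ^ d)) *
      (kap d * rho s j ^ d * (Real.exp (4 * s * d) - 1)) ^ 2) := by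
  have h1 := hQ.indep_two (B₁ := ball x (rho s j)) (B₂ := shell x s j) measurableSet_ball
    (shell_meas x s j) disjoint_sdiff_right {0} {n | 2 ≤ n}
  have h2 : pairEv Q x s j = {ω | (Q ω ∩ ball x (rho s j)).encard ∈ ({0} : Set ℕ∞)} ∩
      {ω | (Q ω ∩ shell x s j).encard ∈ {n : ℕ∞ | 2 ≤ n}} := by
    unfold pairEv
    ext ω
    simp [Set.encard_eq_zero]
  rw [h2, h1, ENNReal.ofReal_mul (Real.exp_pos _).le]
  apply mul_le_mul'
  · have h3 : {ω | (Q ω ∩ ball x (rho s j)).encard ∈ ({0} : Set ℕ∞)} =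
        {ω | Q ω ∩ ball x (rho s j) = ∅} := by ext ω; simp [Set.encard_eq_zero]
    rw [h3, hQ.void_ball x (rho_pos s j), mul_comm]
  · have h4 := hQ.two_prob (shell_meas x s j) (shell_vol_ne_top x s j)
    refine h4.trans ?_
    rw [← shell_vol_toReal x hs j, ENNReal.ofReal_pow ENNReal.toReal_nonneg,
      ENNReal.ofReal_toReal (shell_vol_ne_top x s j)]

/-- elementary bound `x^M ≤ (M/κ)^M e^{κ x}` -/
theorem rpow_le_exp {M κ x : ℝ} (hM : 0 < M) (hκ : 0 < κ) (hx : 0 ≤ x) :
    x ^ M ≤ (M / κ) ^ M * Real.exp (κ * x) := by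
  have h1 : κ * x / M ≤ Real.exp (κ * x / M) := by
    linarith [Real.add_one_le_exp (κ * x / M)]
  have h2 : x ≤ (M / κ) * Real.exp (κ * x / M) := by
    have : x = (M / κ) * (κ * x / M) := by field_simp
    calc x = (M / κ) * (κ * x / M) := this
      _ ≤ _ := mul_le_mul_of_nonneg_left h1 (by positivity)
  calc x ^ M ≤ ((M / κ) * Real.exp (κ * x / M)) ^ M := Real.rpow_le_rpow hx h2 hM.le
    _ = (M / κ) ^ M * Real.exp (κ * x) := by
      rw [Real.mul_rpow (by positivity) (Real.exp_pos _).le, ← Real.exp_mul]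
      congr 2; field_simp

theorem rho_bound (d : ℕ) [NeZero d] {m : ℝ} (hm : 0 ≤ m) : ∃ C : ℝ, 0 < C ∧ ∀ s : ℝ, 0 < s →
    ∀ j : ℤ, rho s j ^ m * (rho s j ^ d) ^ 2 * Real.exp (-(kap d * rho s j ^ d)) ≤
      C * Real.exp (-(2 * s * |(j : ℝ)|)) := by
  have hκ := kap_pos d
  have hd1 : (1 : ℝ) ≤ d := by exact_mod_cast NeZero.one_le
  set M : ℝ := m + 2 * d + 1 with hM
  have hM0 : 0 < M := by positivity
  refine ⟨1 + (M / kap d) ^ M, by positivity, ?_⟩
  intro s hs j
  set r := rho s j with hr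
  have hr0 : 0 < r := rho_pos s j
  have e1 : r ^ m * (r ^ d) ^ 2 = r ^ (m + 2 * d) := by
    rw [← pow_mul, ← Real.rpow_natCast, ← Real.rpow_add hr0]
    congr 1; push_cast; ring
  rw [e1]
  rcases le_total 0 j with hj | hj
  · have hj' : (0:ℝ) ≤ j := by exact_mod_cast hj
    have h1r : 1 ≤ r := by
      rw [hr]; unfold rho
      apply Real.one_le_exp; positivity
    have e2 : Real.exp (-(2 * s * |(j : ℝ)|)) = r⁻¹ := by
      rw [abs_of_nonneg hj', Real.exp_neg, hr]; rfl
    rw [e2, ← div_eq_mul_inv, le_div_iff₀ hr0]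
    have e3 : r ^ (m + 2 * d) * Real.exp (-(kap d * r ^ d)) * r =
        r ^ M * Real.exp (-(kap d * r ^ d)) := by
      rw [hM, Real.rpow_add hr0 (m + 2 * d) 1, Real.rpow_one]; ring
    rw [e3]
    have h2 : r ≤ r ^ d := le_self_pow₀ h1r (NeZero.ne d)
    have h3 : Real.exp (-(kap d * r ^ d)) ≤ Real.exp (-(kap d * r)) := by
      apply Real.exp_le_exp.mpr
      have := mul_le_mul_of_nonneg_left h2 hκ.le
      linarith
    calc r ^ M * Real.exp (-(kap d * r ^ d)) ≤
        ((M / kap d) ^ M * Real.exp (kap d * r)) * Real.exp (-(kap d * r)) := by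
          apply mul_le_mul (rpow_le_exp hM0 hκ hr0.le) h3 (Real.exp_pos _).le (by positivity)
      _ = (M / kap d) ^ M := by
          rw [mul_assoc, ← Real.exp_add]; simp
      _ ≤ _ := by linarith
  · have hj' : (j:ℝ) ≤ 0 := by exact_mod_cast hj
    have h1r : r ≤ 1 := by
      rw [hr]; unfold rho
      apply Real.exp_le_one_iff.mpr
      nlinarith
    have e2 : Real.exp (-(2 * s * |(j : ℝ)|)) = r := by
      rw [abs_of_nonpos hj', hr]; unfold rho; congr 1; ring
    rw [e2]
    have h2 : r ^ (m + 2 * d) ≤ r := by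
      conv_rhs => rw [← Real.rpow_one r]
      apply Real.rpow_le_rpow_of_exponent_ge hr0 h1r
      linarith
    have h3 : Real.exp (-(kap d * r ^ d)) ≤ 1 := by
      apply Real.exp_le_one_iff.mpr
      have : 0 ≤ kap d * r ^ d := by positivity
      linarith
    calc r ^ (m + 2 * d) * Real.exp (-(kap d * r ^ d)) ≤ r * 1 := by
          apply mul_le_mul h2 h3 (Real.exp_pos _).le hr0.le
      _ ≤ (1 + (M / kap d) ^ M) * r := by
          have : 0 ≤ (M / kap d) ^ M := by positivity
          nlinarith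

theorem hasSum_exp_abs {s : ℝ} (hs : 0 < s) :
    ∃ S : ℝ, HasSum (fun j : ℤ => Real.exp (-(2 * s * |(j : ℝ)|))) S ∧
      (s ≤ 1 → S ≤ Real.exp 2 / s) := by
  set r := Real.exp (-(2 * s)) with hr
  have hr0 : 0 ≤ r := (Real.exp_pos _).le
  have hr1 : r < 1 := by
    rw [hr, Real.exp_lt_one_iff]; linarith
  have g1 := hasSum_geometric_of_lt_one hr0 hr1
  have g2 := g1.mul_left r
  have h1 : HasSum (fun n : ℕ => Real.exp (-(2 * s * |((n : ℤ) : ℝ)|))) (1 - r)⁻¹ := by
    convert g1 using 2 with n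
    rw [hr, ← Real.exp_nat_mul]
    congr 1
    push_cast
    rw [abs_of_nonneg (Nat.cast_nonneg n)]; ring
  have h2 : HasSum (fun n : ℕ => Real.exp (-(2 * s * |((-(n + 1 : ℤ) : ℤ) : ℝ)|)))
      (r * (1 - r)⁻¹) := by
    have hfun : (fun n : ℕ => Real.exp (-(2 * s * |((-(n + 1 : ℤ) : ℤ) : ℝ)|))) =
        fun n : ℕ => r * r ^ n := by
      funext n
      rw [hr, ← Real.exp_nat_mul, ← Real.exp_add]
      congr 1
      push_cast
      have h0 : |(-1 + -(n:ℝ))| = (n:ℝ) + 1 := by
        rw [show (-1 + -(n:ℝ)) = -((n:ℝ)+1) by ring, abs_neg, abs_of_nonneg (by positivity)]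
      have h0' : |(-((n:ℝ)+1))| = (n:ℝ) + 1 := by
        rw [abs_neg, abs_of_nonneg (by positivity)]
      first
        | rw [h0]; ring
        | rw [h0']; ring
    rw [hfun]; exact g2
  refine ⟨_, HasSum.of_nat_of_neg_add_one h1 h2, ?_⟩
  intro hs1
  have h3 : 2 * s * Real.exp (-2) ≤ 1 - r := by
    have h4 : 2 * s + 1 ≤ Real.exp (2 * s) := Real.add_one_le_exp _
    have h5 : Real.exp (2 * s) * r = 1 := by rw [hr, ← Real.exp_add]; simp
    have h6 : Real.exp (-2) ≤ r := by
      rw [hr]; apply Real.exp_le_exp.mpr; linarith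
    have h7 : (2 * s + 1) * r ≤ 1 := by
      calc (2 * s + 1) * r ≤ Real.exp (2 * s) * r := mul_le_mul_of_nonneg_right h4 hr0
        _ = 1 := h5
    have h8 : 2 * s * Real.exp (-2) ≤ 2 * s * r := mul_le_mul_of_nonneg_left h6 (by linarith)
    linarith
  have h9 : 0 < 2 * s * Real.exp (-2) := by positivity
  have h10 : (1 - r)⁻¹ ≤ (2 * s * Real.exp (-2))⁻¹ := inv_anti₀ h9 h3
  have h11 : (2 * s * Real.exp (-2))⁻¹ = Real.exp 2 / (2 * s) := by
    rw [mul_inv, Real.exp_neg, inv_inv]; field_simp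
  have h12 : r * (1 - r)⁻¹ ≤ 1 * (1 - r)⁻¹ := by
    apply mul_le_mul_of_nonneg_right hr1.le
    rw [inv_nonneg]; linarith
  calc (1 - r)⁻¹ + r * (1 - r)⁻¹ ≤ 2 * (1 - r)⁻¹ := by linarith
    _ ≤ 2 * (Real.exp 2 / (2 * s)) := by rw [← h11]; linarith
    _ = Real.exp 2 / s := by field_simp

/-- the weighted sum of the pair probabilities is `O(s)`, uniformly in the centre -/
theorem pair_sum (d : ℕ) [NeZero d] {m : ℝ} (hm : 0 ≤ m) : ∃ C : ℝ, 0 < C ∧
    ∀ {Ω : Type*} [MeasurableSpace Ω] (P : Measure Ω) [IsProbabilityMeasure P]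
      (Q : Ω → Set (Sp d)), IsPoissonProcess P Q → ∀ (x : Sp d) (s : ℝ), 0 < s → s ≤ 1 →
    ∑' j : ℤ, ENNReal.ofReal (rho s j ^ m) * P (pairEv Q x s j) ≤ ENNReal.ofReal (C * s) := by
  obtain ⟨C, hC, hb⟩ := rho_bound d hm
  have hκ := kap_pos d
  set K : ℝ := (4 * d * Real.exp (4 * d)) ^ 2 * (kap d) ^ 2 with hK
  have hd0 : (0:ℝ) < d := by exact_mod_cast Nat.pos_of_ne_zero (NeZero.ne d)
  refine ⟨K * C * Real.exp 2, by positivity, ?_⟩
  intro Ω _ P _ Q hQ x s hs hs1
  obtain ⟨S, hS, hS'⟩ := hasSum_exp_abs hs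
  have hterm : ∀ j : ℤ, ENNReal.ofReal (rho s j ^ m) * P (pairEv Q x s j) ≤
      ENNReal.ofReal (K * s ^ 2 * C * Real.exp (-(2 * s * |(j : ℝ)|))) := by
    intro j
    have h1 := pairEv_prob hQ x hs j
    have hr0 := rho_pos s j
    calc ENNReal.ofReal (rho s j ^ m) * P (pairEv Q x s j) ≤
        ENNReal.ofReal (rho s j ^ m) * _ := mul_le_mul' le_rfl h1
      _ = ENNReal.ofReal (rho s j ^ m * (Real.exp (-(kap d * rho s j ^ d)) *
          (kap d * rho s j ^ d * (Real.exp (4 * s * d) - 1)) ^ 2)) :=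
          (ENNReal.ofReal_mul (by positivity)).symm
      _ ≤ _ := by
          apply ENNReal.ofReal_le_ofReal
          have h2 : Real.exp (4 * s * d) - 1 ≤ 4 * s * d * Real.exp (4 * d) := by
            have h3 : 1 ≤ Real.exp (4 * s * d) * (1 - 4 * s * d) + 4 * s * d * Real.exp (4 * s * d) := by
              have : Real.exp (4 * s * d) * (1 - 4 * s * d) + 4 * s * d * Real.exp (4 * s * d) =
                Real.exp (4 * s * d) := by ring
              rw [this]; apply Real.one_le_exp; positivity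
            have h4 : Real.exp (4 * s * d) * (1 - 4 * s * d) ≤ 1 := by
              have h5 : 1 - 4 * s * d ≤ Real.exp (-(4 * s * d)) := by
                linarith [Real.add_one_le_exp (-(4 * s * d))]
              calc Real.exp (4 * s * d) * (1 - 4 * s * d) ≤
                  Real.exp (4 * s * d) * Real.exp (-(4 * s * d)) :=
                    mul_le_mul_of_nonneg_left h5 (Real.exp_pos _).le
                _ = 1 := by rw [← Real.exp_add]; simp
            have h6 : Real.exp (4 * s * d) ≤ Real.exp (4 * d) := by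
              apply Real.exp_le_exp.mpr; nlinarith
            have h7 : 4 * s * d * Real.exp (4 * s * d) ≤ 4 * s * d * Real.exp (4 * d) :=
              mul_le_mul_of_nonneg_left h6 (by positivity)
            have h8 : Real.exp (4 * s * d) = Real.exp (4 * s * d) * (1 - 4 * s * d) +
              4 * s * d * Real.exp (4 * s * d) := by ring
            linarith
          have h2' : 0 ≤ Real.exp (4 * s * d) - 1 := by
            have : 1 ≤ Real.exp (4 * s * d) := Real.one_le_exp (by positivity)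
            linarith
          have h9 : (Real.exp (4 * s * d) - 1) ^ 2 ≤ (4 * s * d * Real.exp (4 * d)) ^ 2 :=
            pow_le_pow_left₀ h2' h2 2
          have h10 := hb s hs j
          have h11 : rho s j ^ m * (Real.exp (-(kap d * rho s j ^ d)) *
              (kap d * rho s j ^ d * (Real.exp (4 * s * d) - 1)) ^ 2) =
              (kap d) ^ 2 * (Real.exp (4 * s * d) - 1) ^ 2 *
              (rho s j ^ m * (rho s j ^ d) ^ 2 * Real.exp (-(kap d * rho s j ^ d))) := by ring
          rw [h11]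
          calc (kap d) ^ 2 * (Real.exp (4 * s * d) - 1) ^ 2 *
              (rho s j ^ m * (rho s j ^ d) ^ 2 * Real.exp (-(kap d * rho s j ^ d))) ≤
              (kap d) ^ 2 * (4 * s * d * Real.exp (4 * d)) ^ 2 *
              (C * Real.exp (-(2 * s * |(j : ℝ)|))) := by
                apply mul_le_mul _ h10 (by positivity) (by positivity)
                exact mul_le_mul_of_nonneg_left h9 (by positivity)
            _ = _ := by rw [hK]; ring
  calc ∑' j : ℤ, ENNReal.ofReal (rho s j ^ m) * P (pairEv Q x s j) ≤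
      ∑' j : ℤ, ENNReal.ofReal (K * s ^ 2 * C * Real.exp (-(2 * s * |(j : ℝ)|))) :=
        ENNReal.tsum_le_tsum hterm
    _ = ENNReal.ofReal (K * s ^ 2 * C * S) := by
        have h5 := hS.mul_left (K * s ^ 2 * C)
        rw [← ENNReal.ofReal_tsum_of_nonneg (fun j => by positivity) h5.summable, h5.tsum_eq]
    _ ≤ ENNReal.ofReal (K * C * Real.exp 2 * s) := by
        apply ENNReal.ofReal_le_ofReal
        have := hS' hs1
        calc K * s ^ 2 * C * S ≤ K * s ^ 2 * C * (Real.exp 2 / s) := by gcongr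
          _ = K * C * Real.exp 2 * s := by field_simp

end Pool.Agent.Helper322.EFPP
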