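import Pool.Agent.Helper322.EFPP.Scale

/-!
# Certificates: the passage time is determined by a large ball with high probability
-/

namespace Pool.Agent.Helper322.EFPP

open MeasureTheory Set ProbabilityTheory Metric TopologicalSpace Filter Topology
open scoped ENNReal

variable {d : ℕ}

theorem DD_mono_set {c : Sp d → ℝ} (hc : ∀ v, 0 ≤ c v) {A A' : Set (Sp d)} (hsub : A ⊆ A')
    {q q' : Sp d} (hq : q ∈ A) (hq' : q' ∈ A) : DD c A' q q' ≤ DD c A q q' := by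
  apply le_DD hq hq'
  intro k hk p h0 h1 hA
  exact DD_le_of_chain hc hk h0 h1 fun i hi => hsub (hA i hi)

theorem costD_mono {c : Sp d → ℝ} (hc : ∀ v, 0 ≤ c v) (p : ℕ → Sp d) {i k : ℕ} (h : i ≤ k) :
    costD c i p ≤ costD c k p := by
  unfold costD
  apply Finset.sum_le_sum_of_subset_of_nonneg
  · exact Finset.range_subset_range.mpr h
  · intro j _ _; exact hc _

/-- localisation of the passage time -/
theorem localise {α : ℝ} {A W : Set (Sp d)} {x : Sp d} {ρ B : ℝ} (hA : Good A)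
    (h0 : UniqueAt A 0) (hx : UniqueAt A x) (hW : ball (0 : Sp d) ρ ⊆ W)
    (hq0 : closest A 0 ∈ ball (0 : Sp d) ρ) (hqx : closest A x ∈ ball (0 : Sp d) ρ)
    (hB : ‖closest A 0 - closest A x‖ ^ α ≤ B)
    (hchain : ∀ (k : ℕ) (p : ℕ → Sp d), p 0 = closest A 0 → (∀ i ≤ k, p i ∈ A) →
      p k ∉ ball (0 : Sp d) ρ → B < costD (fun v : Sp d => ‖v‖ ^ α) k p) :
    Good (A ∩ W) ∧ UniqueAt (A ∩ W) 0 ∧ UniqueAt (A ∩ W) x ∧
      passageTime α (A ∩ W) 0 x = passageTime α A 0 x := by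
  have hc0 := hA.closest_spec 0
  have hcx := hA.closest_spec x
  have hG : Good (A ∩ W) := by
    refine ⟨⟨_, hc0.1, hW hq0⟩, fun y r => ?_⟩
    exact (hA.locFin y r).subset (Set.inter_subset_inter_left _ Set.inter_subset_left)
  have hcl : ∀ z : Sp d, closest A z ∈ ball (0 : Sp d) ρ → ∀ q, IsClosest (A ∩ W) z q →
      IsClosest A z q := by
    intro z hz q hq
    refine ⟨hq.1.1, fun a ha => ?_⟩
    exact (hq.2 _ ⟨(hA.closest_spec z).1, hW hz⟩).trans ((hA.closest_spec z).2 a ha)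
  have hU0 : UniqueAt (A ∩ W) 0 := fun q q' hq hq' => h0 q q' (hcl 0 hq0 q hq) (hcl 0 hq0 q' hq')
  have hUx : UniqueAt (A ∩ W) x := fun q q' hq hq' => hx q q' (hcl x hqx q hq) (hcl x hqx q' hq')
  refine ⟨hG, hU0, hUx, ?_⟩
  have e0 : closest (A ∩ W) 0 = closest A 0 :=
    h0 _ _ (hcl 0 hq0 _ (hG.closest_spec 0)) hc0
  have ex : closest (A ∩ W) x = closest A x :=
    hx _ _ (hcl x hqx _ (hG.closest_spec x)) hcx
  unfold passageTime
  rw [e0, ex, chainInf_eq, chainInf_eq]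
  have hcn : ∀ v : Sp d, 0 ≤ (fun v : Sp d => ‖v‖ ^ α) v := fun v => by positivity
  apply le_antisymm
  · apply le_DD hc0.1 hcx.1
    intro k hk p hp0 hpk hpA
    by_cases hall : ∀ i ≤ k, p i ∈ ball (0 : Sp d) ρ
    · exact DD_le_of_chain hcn hk hp0 hpk fun i hi => ⟨hpA i hi, hW (hall i hi)⟩
    · push Not at hall
      obtain ⟨i, hi, hpi⟩ := hall
      have h1 := hchain i p hp0 (fun j hj => hpA j (hj.trans hi)) hpi
      have h2 := costD_mono hcn p hi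
      have h3 := DD_le_edge hcn (A := A ∩ W) (q := closest A 0) (q' := closest A x)
        ⟨hc0.1, hW hq0⟩ ⟨hcx.1, hW hqx⟩
      linarith
  · exact DD_mono_set hcn Set.inter_subset_left ⟨hc0.1, hW hq0⟩ ⟨hcx.1, hW hqx⟩

theorem closest_norm_bounds {A : Set (Sp d)} (hA : Good A) (x : Sp d) :
    ‖closest A 0‖ = RR A 0 ∧ ‖closest A x‖ ≤ RR A 0 + 2 * ‖x‖ ∧
      ‖closest A 0 - closest A x‖ ≤ 2 * RR A 0 + 2 * ‖x‖ := by
  have h0 : ‖closest A 0‖ = RR A 0 := by unfold RR; rw [dist_zero_right]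
  have h1 : dist (closest A x) x ≤ RR A 0 + ‖x‖ := by
    refine ((hA.closest_spec x).2 _ (hA.closest_spec 0).1).trans ?_
    rw [dist_eq_norm, ← h0]
    exact norm_sub_le _ _
  have h2 : ‖closest A x‖ ≤ dist (closest A x) x + ‖x‖ := by
    rw [dist_eq_norm]
    calc ‖closest A x‖ = ‖(closest A x - x) + x‖ := by rw [sub_add_cancel]
      _ ≤ _ := norm_add_le _ _
  refine ⟨h0, by linarith, ?_⟩
  have h3 := norm_sub_le (closest A 0) (closest A x)
  rw [h0] at h3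
  linarith

/-- a large coordinate -/
theorem exists_large_coord [NeZero d] (x : Sp d) : ∃ k : Fin d, ‖x‖ / d ≤ |x k| := by
  have hd : (0:ℝ) < d := by exact_mod_cast Nat.pos_of_ne_zero (NeZero.ne d)
  by_contra hcon
  push Not at hcon
  have h1 : ‖x‖ ≤ ∑ k, |x k| := by
    have h2 : x = ∑ k, (x k) • (EuclideanSpace.single k (1:ℝ) : Sp d) := by
      ext j
      rw [WithLp.ofLp_sum, Finset.sum_apply]
      simp [PiLp.single_apply]
    calc ‖x‖ = ‖∑ k, (x k) • (EuclideanSpace.single k (1:ℝ) : Sp d)‖ := by rw [← h2]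
      _ ≤ ∑ k, ‖(x k) • (EuclideanSpace.single k (1:ℝ) : Sp d)‖ := norm_sum_le _ _
      _ = ∑ k, |x k| := by
          apply Finset.sum_congr rfl
          intro k _
          rw [norm_smul, PiLp.norm_single]
          simp
  have h3 : ∑ k : Fin d, |x k| < ∑ k : Fin d, ‖x‖ / d := by
    apply Finset.sum_lt_sum_of_nonempty
    · exact ⟨0, Finset.mem_univ _⟩
    · intro k _; exact hcon k
  rw [Finset.sum_const, Finset.card_univ, Fintype.card_fin, nsmul_eq_mul] at h3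
  have h4 : (d : ℝ) * (‖x‖ / d) = ‖x‖ := by field_simp
  rw [h4] at h3
  linarith

/-- the box of cube indices -/
noncomputable def boxF (d : ℕ) (l ρ : ℝ) : Finset (Fin d → ℤ) :=
  Finset.Icc (fun _ => -⌈ρ / l⌉ - 1) (fun _ => ⌈ρ / l⌉ + 1)

theorem boxF_card (d : ℕ) {l ρ : ℝ} (hl : 0 < l) (hρ : 0 ≤ ρ) :
    ((boxF d l ρ).card : ℝ) ≤ (2 * (ρ / l) + 5) ^ d := by
  unfold boxF
  rw [Pi.card_Icc]
  simp only [Int.card_Icc, Finset.prod_const, Finset.card_univ, Fintype.card_fin]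
  rw [Nat.cast_pow]
  apply pow_le_pow_left₀ (Nat.cast_nonneg _)
  have h1 : (0:ℤ) ≤ ⌈ρ / l⌉ := Int.ceil_nonneg (by positivity)
  have h2 : ((⌈ρ / l⌉ + 1 + 1 - (-⌈ρ / l⌉ - 1)).toNat : ℤ) = ⌈ρ / l⌉ + 1 + 1 - (-⌈ρ / l⌉ - 1) :=
    Int.toNat_of_nonneg (by omega)
  have h3 : ((⌈ρ / l⌉ + 1 + 1 - (-⌈ρ / l⌉ - 1)).toNat : ℝ) = 2 * (⌈ρ / l⌉ : ℝ) + 3 := by
    have : (((⌈ρ / l⌉ + 1 + 1 - (-⌈ρ / l⌉ - 1)).toNat : ℤ) : ℝ) =
      ((⌈ρ / l⌉ + 1 + 1 - (-⌈ρ / l⌉ - 1) : ℤ) : ℝ) := by rw [h2]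
    rw [Int.cast_natCast] at this
    rw [this]; push_cast; ring
  rw [h3]
  have h4 := Int.ceil_lt_add_one (ρ / l)
  linarith

variable {Ω : Type*} [MeasurableSpace Ω] {P : Measure Ω} {Q : Ω → Set (Sp d)}

/-- the bad event at scale `R` -/
def badEv (Q : Ω → Set (Sp d)) (l ρ : ℝ) (K : ℕ) : Set Ω :=
  {ω | Good (Q ω) ∧ ρ ≤ RR (Q ω) 0} ∪ ⋃ a ∈ boxF d l ρ, occEv Q l a (4 * K) K

omit [MeasurableSpace Ω] in
/-- outside the bad event the passage time is local -/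
theorem cert_det [NeZero d] {α l ρ R n0 : ℝ} {K : ℕ} (hα : 1 ≤ α) (hl : 0 < l) (hl1 : l ≤ 1)
    (hC2 : (2 * ρ + 4 * n0) ^ α ≤ l ^ α / d * K)
    (hC4 : ρ + 4 * n0 < R / 2)
    (hC5 : 4 * (K : ℝ) + 1 ≤ R / (2 * d) - ρ)
    {ω : Ω} (hA : Good (Q ω)) (hbad : ω ∉ badEv Q l ρ K)
    {x : Sp d} (hxn : ‖x‖ ≤ 2 * n0) (h0 : UniqueAt (Q ω) 0) (hx : UniqueAt (Q ω) x)
    {W : Set (Sp d)} (hW : ball (0 : Sp d) (R / 2) ⊆ W) :
    Good (Q ω ∩ W) ∧ UniqueAt (Q ω ∩ W) 0 ∧ UniqueAt (Q ω ∩ W) x ∧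
      passageTime α (Q ω ∩ W) 0 x = passageTime α (Q ω) 0 x ∧
      passageTime α (Q ω) 0 x ≤ (2 * ρ + 4 * n0) ^ α := by
  have hd : (0:ℝ) < d := by exact_mod_cast Nat.pos_of_ne_zero (NeZero.ne d)
  have hR : RR (Q ω) 0 < ρ := by
    by_contra hcon
    push Not at hcon
    exact hbad (Or.inl ⟨hA, hcon⟩)
  have hocc : ∀ a ∈ boxF d l ρ, ω ∉ occEv Q l a (4 * K) K := by
    intro a ha hcon
    exact hbad (Or.inr (Set.mem_biUnion ha hcon))
  obtain ⟨b1, b2, b3⟩ := closest_norm_bounds hA x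
  have hn0 : 0 ≤ n0 := by
    have := norm_nonneg x
    linarith
  have hRR0 : 0 ≤ RR (Q ω) 0 := dist_nonneg
  have hedge : ‖closest (Q ω) 0 - closest (Q ω) x‖ ^ α ≤ (2 * ρ + 4 * n0) ^ α := by
    apply Real.rpow_le_rpow (norm_nonneg _) _ (by linarith)
    linarith
  have hT : passageTime α (Q ω) 0 x ≤ (2 * ρ + 4 * n0) ^ α :=
    (DD_le_edge (c := fun v : Sp d => ‖v‖ ^ α) (fun v => by positivity)
      (hA.closest_spec 0).1 (hA.closest_spec x).1).trans hedge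
  have hloc := localise (α := α) (B := (2 * ρ + 4 * n0) ^ α) hA h0 hx hW
    (by rw [mem_ball, dist_zero_right]; linarith)
    (by rw [mem_ball, dist_zero_right]; linarith) hedge (by
      intro k p hp0 hpA hpk
      by_contra hcon
      push Not at hcon
      have hmem : idx l (p 0) ∈ boxF d l ρ := by
        apply idx_mem_box hl
        rw [hp0, b1]; exact hR.le
      apply hocc _ hmem
      apply chain_occ hl hα hpA (hcon.trans hC2)
      obtain ⟨c, hc⟩ := exists_large_coord (p k)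
      refine ⟨c, ?_⟩
      apply idx_natAbs_lower
      rw [← sub_div, abs_div, abs_of_pos hl, le_div_iff₀ hl]
      have h1 : R / 2 ≤ ‖p k‖ := by
        rw [mem_ball, dist_zero_right] at hpk
        push Not at hpk; exact hpk
      have h2 : R / (2 * d) ≤ |(p k) c| := by
        refine le_trans ?_ hc
        rw [show R / (2 * (d : ℝ)) = (R / 2) / d by field_simp]
        exact div_le_div_of_nonneg_right h1 hd.le
      have h3 : |(p 0) c| ≤ ρ := by
        rw [hp0]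
        refine (abs_coord_le_norm _ c).trans ?_
        rw [b1]; exact hR.le
      have h4 : |(p k) c| - |(p 0) c| ≤ |(p k) c - (p 0) c| := abs_sub_abs_le_abs_sub _ _
      have h5 : ((4 * K : ℕ) + 1 : ℝ) * l ≤ ((4 * K : ℕ) + 1 : ℝ) * 1 := by gcongr
      push_cast at h5 ⊢
      linarith)
  exact ⟨hloc.1, hloc.2.1, hloc.2.2.1, hloc.2.2.2, hT⟩

theorem badEv_prob [NeZero d] [IsProbabilityMeasure P] (hQ : IsPoissonProcess P Q) {l : ℝ}
    (hl : 0 < l)
    (hsmall : 5 ^ d * ENNReal.ofReal ((((d : ℝ) + 1) * l) ^ d * kap d) ≤ 1 / 8)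
    {ρ : ℝ} (hρ : 0 < ρ) (K : ℕ) :
    P (badEv Q l ρ K) ≤ ENNReal.ofReal (Real.exp (-(ρ ^ d * kap d)) +
      (2 * (ρ / l) + 5) ^ d * (2 * Real.exp (-K))) := by
  unfold badEv
  refine (measure_union_le _ _).trans ?_
  rw [ENNReal.ofReal_add (Real.exp_pos _).le (by positivity)]
  apply add_le_add (RR_tail hQ 0 hρ)
  refine (box_occ_prob hQ hl hsmall (boxF d l ρ) (4 * K) K).trans ?_
  rw [ENNReal.ofReal_mul (by positivity)]
  apply mul_le_mul'
  · rw [← ENNReal.ofReal_natCast]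
    exact ENNReal.ofReal_le_ofReal (boxF_card d hl hρ.le)
  · have h4 : 4 * K - K = 3 * K := by omega
    rw [h4]
    have e1 : (2:ℝ≥0∞) * 2 ^ K * (1 / 8) ^ (3 * K) = ENNReal.ofReal (2 * (1 / 256) ^ K) := by
      rw [ENNReal.ofReal_mul (by norm_num), ENNReal.ofReal_pow (by norm_num), pow_mul, mul_assoc,
        ← mul_pow]
      congr 1
      · norm_num
      · congr 1
        rw [ENNReal.ofReal_div_of_pos (by norm_num)]
        have h5 : ((1:ℝ≥0∞) / 8) ^ 3 = 1 / 512 := by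
          rw [one_div, one_div, ← ENNReal.inv_pow]; norm_num
        rw [h5]
        rw [one_div, show (512:ℝ≥0∞) = 2 * 256 by norm_num, ENNReal.mul_inv (by norm_num)
          (by norm_num), ← mul_assoc, ENNReal.mul_inv_cancel (by norm_num) (by norm_num), one_mul]
        simp
    rw [e1]
    apply ENNReal.ofReal_le_ofReal
    have h6 : ((1:ℝ) / 256) ^ K ≤ Real.exp (-K) := by
      have h7 : (1:ℝ) / 256 ≤ Real.exp (-1) := by
        have := Real.exp_one_lt_d9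
        rw [Real.exp_neg, one_div]
        apply inv_anti₀ (Real.exp_pos 1); linarith
      calc ((1:ℝ) / 256) ^ K ≤ (Real.exp (-1)) ^ K := pow_le_pow_left₀ (by norm_num) h7 K
        _ = Real.exp (-K) := by rw [← Real.exp_nat_mul]; congr 1; ring
    linarith

end Pool.Agent.Helper322.EFPP
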