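import Pool.Agent.Helper322.EFPP.Defs

/-!
# Deterministic lemmas on chains
-/

namespace Pool.Agent.Helper322.EFPP

open Finset

variable {d : ℕ}

/-- cost of a chain for a general step cost `c` -/
noncomputable def costD (c : Sp d → ℝ) (k : ℕ) (p : ℕ → Sp d) : ℝ :=
  ∑ i ∈ range k, c (p i - p (i + 1))

/-- being a chain in `A` from `q` to `q'` with `k` steps -/
def IsChainIn (A : Set (Sp d)) (q q' : Sp d) (k : ℕ) (p : ℕ → Sp d) : Prop :=
  p 0 = q ∧ p k = q' ∧ ∀ i ≤ k, p i ∈ A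

/-- general infimum over chains -/
noncomputable def DD (c : Sp d → ℝ) (A : Set (Sp d)) (q q' : Sp d) : ℝ :=
  sInf {r : ℝ | ∃ k : ℕ, 1 ≤ k ∧ ∃ p : ℕ → Sp d,
    p 0 = q ∧ p k = q' ∧ (∀ i ≤ k, p i ∈ A) ∧ r = costD c k p}

theorem chainInf_eq (α : ℝ) (A : Set (Sp d)) (q q' : Sp d) :
    chainInf α A q q' = DD (fun v => ‖v‖ ^ α) A q q' := rfl

theorem costD_nonneg {c : Sp d → ℝ} (hc : ∀ v, 0 ≤ c v) (k : ℕ) (p : ℕ → Sp d) :
    0 ≤ costD c k p := Finset.sum_nonneg fun _ _ => hc _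

theorem DD_bddBelow {c : Sp d → ℝ} (hc : ∀ v, 0 ≤ c v) (A : Set (Sp d)) (q q' : Sp d) :
    BddBelow {r : ℝ | ∃ k : ℕ, 1 ≤ k ∧ ∃ p : ℕ → Sp d,
      p 0 = q ∧ p k = q' ∧ (∀ i ≤ k, p i ∈ A) ∧ r = costD c k p} := by
  refine ⟨0, ?_⟩
  rintro r ⟨k, -, p, -, -, -, rfl⟩
  exact costD_nonneg hc k p

theorem DD_nonneg {c : Sp d → ℝ} (hc : ∀ v, 0 ≤ c v) (A : Set (Sp d)) (q q' : Sp d) :
    0 ≤ DD c A q q' := by
  apply Real.sInf_nonneg
  rintro r ⟨k, -, p, -, -, -, rfl⟩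
  exact costD_nonneg hc k p

theorem DD_le_of_chain {c : Sp d → ℝ} (hc : ∀ v, 0 ≤ c v) {A : Set (Sp d)} {q q' : Sp d}
    {k : ℕ} (hk : 1 ≤ k) {p : ℕ → Sp d} (h0 : p 0 = q) (h1 : p k = q')
    (hA : ∀ i ≤ k, p i ∈ A) : DD c A q q' ≤ costD c k p :=
  csInf_le (DD_bddBelow hc A q q') ⟨k, hk, p, h0, h1, hA, rfl⟩

/-- allow also `k = 0` when `c 0 = 0` -/
theorem DD_le_of_chain' {c : Sp d → ℝ} (hc : ∀ v, 0 ≤ c v) (hc0 : c 0 = 0)
    {A : Set (Sp d)} {q q' : Sp d}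
    {k : ℕ} {p : ℕ → Sp d} (h0 : p 0 = q) (h1 : p k = q')
    (hA : ∀ i ≤ k, p i ∈ A) : DD c A q q' ≤ costD c k p := by
  rcases Nat.eq_zero_or_pos k with rfl | hk
  · have h2 : q = q' := h0 ▸ h1
    subst h2
    have := DD_le_of_chain (k := 1) (p := fun _ => q) hc le_rfl rfl rfl
      (fun i _ => by simpa [h0] using hA 0 le_rfl) (A := A)
    simpa [costD, hc0] using this
  · exact DD_le_of_chain hc hk h0 h1 hA

theorem DD_le_edge {c : Sp d → ℝ} (hc : ∀ v, 0 ≤ c v) {A : Set (Sp d)} {q q' : Sp d}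
    (hq : q ∈ A) (hq' : q' ∈ A) : DD c A q q' ≤ c (q - q') := by
  have := DD_le_of_chain (k := 1) (p := fun i => if i = 0 then q else q') hc le_rfl (by simp)
    (by simp) (fun i _ => by by_cases h : i = 0 <;> simp [h, hq, hq']) (A := A) (q := q) (q' := q')
  simpa [costD] using this

theorem DD_self {c : Sp d → ℝ} (hc : ∀ v, 0 ≤ c v) (hc0 : c 0 = 0) {A : Set (Sp d)} {q : Sp d}
    (hq : q ∈ A) : DD c A q q = 0 :=
  le_antisymm (by simpa [hc0] using DD_le_edge hc hq hq) (DD_nonneg hc A q q)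

theorem exists_chain_lt {c : Sp d → ℝ} {A : Set (Sp d)} {q q' : Sp d}
    (hq : q ∈ A) (hq' : q' ∈ A) {t : ℝ} (ht : DD c A q q' < t) :
    ∃ k : ℕ, 1 ≤ k ∧ ∃ p : ℕ → Sp d, p 0 = q ∧ p k = q' ∧ (∀ i ≤ k, p i ∈ A) ∧
      costD c k p < t := by
  have hne : {r : ℝ | ∃ k : ℕ, 1 ≤ k ∧ ∃ p : ℕ → Sp d,
      p 0 = q ∧ p k = q' ∧ (∀ i ≤ k, p i ∈ A) ∧ r = costD c k p}.Nonempty :=
    ⟨_, 1, le_rfl, fun i => if i = 0 then q else q', by simp, by simp,
      fun i _ => by by_cases h : i = 0 <;> simp [h, hq, hq'], rfl⟩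
  obtain ⟨r, ⟨k, hk, p, h0, h1, hA, rfl⟩, hr⟩ := exists_lt_of_csInf_lt hne ht
  exact ⟨k, hk, p, h0, h1, hA, hr⟩

theorem le_DD {c : Sp d → ℝ} {A : Set (Sp d)} {q q' : Sp d}
    (hq : q ∈ A) (hq' : q' ∈ A) {t : ℝ}
    (h : ∀ k : ℕ, 1 ≤ k → ∀ p : ℕ → Sp d, p 0 = q → p k = q' → (∀ i ≤ k, p i ∈ A) →
      t ≤ costD c k p) : t ≤ DD c A q q' := by
  by_contra hlt
  push Not at hlt
  obtain ⟨k, hk, p, h0, h1, hA, hr⟩ := exists_chain_lt hq hq' hlt
  exact absurd (h k hk p h0 h1 hA) (not_le.mpr hr)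

/-- gluing two chains -/
theorem costD_glue (c : Sp d → ℝ) (k k' : ℕ) (p p' : ℕ → Sp d) (h : p k = p' 0) :
    costD c (k + k') (fun i => if i ≤ k then p i else p' (i - k)) =
      costD c k p + costD c k' p' := by
  unfold costD
  rw [Finset.sum_range_add]
  congr 1
  · apply Finset.sum_congr rfl
    intro i hi
    rw [Finset.mem_range] at hi
    have h1 : i ≤ k := hi.le
    have h2 : i + 1 ≤ k := hi
    simp [h1, h2]
  · apply Finset.sum_congr rfl
    intro j _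
    have h2 : ¬ (k + j + 1 ≤ k) := by omega
    have h3 : k + j + 1 - k = j + 1 := by omega
    rcases Nat.eq_zero_or_pos j with rfl | hj
    · simp [h2, h3, h]
    · have h1 : ¬ (k + j ≤ k) := by omega
      have h4 : k + j - k = j := by omega
      simp only [h1, h2, if_false, h3, h4]

theorem DD_triangle {c : Sp d → ℝ} (hc : ∀ v, 0 ≤ c v) {A : Set (Sp d)} {q r s : Sp d}
    (hq : q ∈ A) (hr : r ∈ A) (hs : s ∈ A) : DD c A q s ≤ DD c A q r + DD c A r s := by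
  apply le_of_forall_pos_le_add
  intro ε hε
  obtain ⟨k, hk, p, h0, h1, hA, hp⟩ := exists_chain_lt hq hr
    (lt_add_of_pos_right (DD c A q r) (half_pos hε))
  obtain ⟨k', hk', p', h0', h1', hA', hp'⟩ := exists_chain_lt hr hs
    (lt_add_of_pos_right (DD c A r s) (half_pos hε))
  have hglue := costD_glue c k k' p p' (by rw [h1, h0'])
  have := DD_le_of_chain (k := k + k') (p := fun i => if i ≤ k then p i else p' (i - k)) hc
    (by omega) (by simp [h0]) (q' := s) (q := q) (A := A)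
    (by
      have : ¬ (k + k' ≤ k) := by omega
      simp [this, h1'])
    (fun i hi => by
      by_cases h : i ≤ k
      · simp [h, hA i h]
      · simp only [h, if_false]; exact hA' _ (by omega))
  rw [hglue] at this
  linarith

theorem costD_rev {c : Sp d → ℝ} (hsym : ∀ v, c (-v) = c v) (k : ℕ) (p : ℕ → Sp d) :
    costD c k (fun i => p (k - i)) = costD c k p := by
  unfold costD
  rw [← Finset.sum_range_reflect]
  apply Finset.sum_congr rfl
  intro j hj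
  rw [Finset.mem_range] at hj
  have h1 : k - (k - 1 - j) = j + 1 := by omega
  have h2 : k - (k - 1 - j + 1) = j := by omega
  simp only [h1, h2]
  rw [← hsym]
  congr 1
  abel

theorem DD_symm_le {c : Sp d → ℝ} (hc : ∀ v, 0 ≤ c v) (hsym : ∀ v, c (-v) = c v)
    {A : Set (Sp d)} {q r : Sp d}
    (hq : q ∈ A) (hr : r ∈ A) : DD c A r q ≤ DD c A q r := by
  apply le_DD hq hr
  intro k hk p h0 h1 hA
  rw [← costD_rev hsym k p]
  exact DD_le_of_chain hc hk (by simp [h1]) (by simp [h0]) (fun i _ => hA _ (by omega))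

theorem DD_symm {c : Sp d → ℝ} (hc : ∀ v, 0 ≤ c v) (hsym : ∀ v, c (-v) = c v)
    {A : Set (Sp d)} {q r : Sp d}
    (hq : q ∈ A) (hr : r ∈ A) : DD c A r q = DD c A q r :=
  le_antisymm (DD_symm_le hc hsym hq hr) (DD_symm_le hc hsym hr hq)

/-- transport of chains by a bijection -/
theorem DD_map (c c' : Sp d → ℝ) (φ : Sp d ≃ Sp d)
    (h : ∀ x y, c (φ x - φ y) = c' (x - y)) (A : Set (Sp d)) (q q' : Sp d) :
    DD c (φ '' A) (φ q) (φ q') = DD c' A q q' := by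
  unfold DD
  congr 1
  ext r
  constructor
  · rintro ⟨k, hk, p, h0, h1, hA, rfl⟩
    refine ⟨k, hk, fun i => φ.symm (p i), by simp [h0], by simp [h1], ?_, ?_⟩
    · intro i hi
      obtain ⟨a, ha, hai⟩ := hA i hi
      simp only [← hai, Equiv.symm_apply_apply]; exact ha
    · unfold costD
      apply Finset.sum_congr rfl
      intro i _
      rw [← h]; simp
  · rintro ⟨k, hk, p, h0, h1, hA, rfl⟩
    refine ⟨k, hk, fun i => φ (p i), by simp [h0], by simp [h1], ?_, ?_⟩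
    · intro i hi; exact ⟨_, hA i hi, rfl⟩
    · unfold costD
      apply Finset.sum_congr rfl
      intro i _
      rw [← h]

/-- the semiconcavity inequality passes to the infimum -/
theorem DD_semiconc {c0 c1 c2 : Sp d → ℝ} (hc0 : ∀ v, 0 ≤ c0 v) (hc1 : ∀ v, 0 ≤ c1 v)
    {a b κ : ℝ} (ha : 0 ≤ a) (hb : 0 ≤ b) (hκ : 0 < κ)
    (h : ∀ v, a * c0 v + b * c1 v ≤ κ * c2 v) {A : Set (Sp d)} {q q' : Sp d}
    (hq : q ∈ A) (hq' : q' ∈ A) :
    a * DD c0 A q q' + b * DD c1 A q q' ≤ κ * DD c2 A q q' := by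
  rw [← div_le_iff₀' hκ]
  apply le_DD hq hq'
  intro k hk p h0 h1 hA
  rw [div_le_iff₀' hκ]
  calc a * DD c0 A q q' + b * DD c1 A q q' ≤ a * costD c0 k p + b * costD c1 k p := by
        gcongr
        · exact DD_le_of_chain hc0 hk h0 h1 hA
        · exact DD_le_of_chain hc1 hk h0 h1 hA
    _ = ∑ i ∈ range k, (a * c0 (p i - p (i+1)) + b * c1 (p i - p (i+1))) := by
        unfold costD
        rw [Finset.sum_add_distrib, Finset.mul_sum, Finset.mul_sum]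
    _ ≤ ∑ i ∈ range k, κ * c2 (p i - p (i+1)) := Finset.sum_le_sum fun i _ => h _
    _ = κ * costD c2 k p := by unfold costD; rw [Finset.mul_sum]

theorem DD_change_endpoints {c : Sp d → ℝ} (hc : ∀ v, 0 ≤ c v) (hsym : ∀ v, c (-v) = c v)
    {A : Set (Sp d)} {q r q' r' : Sp d}
    (hq : q ∈ A) (hr : r ∈ A) (hq' : q' ∈ A) (hr' : r' ∈ A) :
    DD c A q' r' ≤ DD c A q r + c (q - q') + c (r - r') := by
  have h1 := DD_triangle hc hq' hq hr'
  have h2 := DD_triangle hc hq hr hr'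
  have h3 := DD_le_edge hc hq' hq
  have h4 := DD_le_edge hc hr hr'
  have h5 : c (q' - q) = c (q - q') := by rw [← hsym]; congr 1; abel
  linarith

end Pool.Agent.Helper322.EFPP
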