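import Pool.Agent.Helper322.EFPP.Boundary

/-!
# Closest particles: existence, uniqueness, stability under the stretch
-/

namespace Pool.Agent.Helper322.EFPP

open MeasureTheory Set ProbabilityTheory Metric
open scoped ENNReal

variable {d : ℕ}

/-- nonempty and locally finite -/
structure Good (A : Set (Sp d)) : Prop where
  nonempty : A.Nonempty
  locFin : ∀ (x : Sp d) (r : ℝ), (A ∩ closedBall x r).Finite

/-- `q` is a closest point of `A` to `x` -/
def IsClosest (A : Set (Sp d)) (x q : Sp d) : Prop := q ∈ A ∧ ∀ a ∈ A, dist q x ≤ dist a x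

theorem Good.exists_closest {A : Set (Sp d)} (hA : Good A) (x : Sp d) :
    ∃ q, IsClosest A x q := by
  obtain ⟨q0, hq0⟩ := hA.nonempty
  have hfin := hA.locFin x (dist q0 x)
  obtain ⟨q, hq, hmin⟩ := Set.exists_min_image (A ∩ closedBall x (dist q0 x))
    (fun a => dist a x) hfin ⟨q0, hq0, by simp⟩
  refine ⟨q, hq.1, fun a ha => ?_⟩
  by_cases h : dist a x ≤ dist q0 x
  · exact hmin a ⟨ha, by simpa using h⟩
  · push Not at h
    exact le_trans (by simpa using hq.2) h.le

theorem Good.closest_spec {A : Set (Sp d)} (hA : Good A) (x : Sp d) :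
    IsClosest A x (closest A x) := by
  unfold closest
  exact Classical.epsilon_spec (p := fun q => q ∈ A ∧ ∀ q' ∈ A, dist q x ≤ dist q' x)
    (hA.exists_closest x)

/-- uniqueness of the closest point -/
def UniqueAt (A : Set (Sp d)) (x : Sp d) : Prop :=
  ∀ q q', IsClosest A x q → IsClosest A x q' → q = q'

theorem Good.image {A : Set (Sp d)} (hA : Good A) (φ : Sp d ≃ Sp d)
    (hφ : ∀ (x : Sp d) (r : ℝ), Bornology.IsBounded (φ ⁻¹' (closedBall x r))) :
    Good (φ '' A) := by
  refine ⟨hA.nonempty.image _, fun x r => ?_⟩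
  rw [← Set.image_inter_preimage]
  apply Set.Finite.image
  obtain ⟨R, hR⟩ := (hφ x r).subset_closedBall 0
  exact (hA.locFin 0 R).subset (Set.inter_subset_inter_right _ hR)

/-- the index of the shell containing radius `r` -/
theorem exists_shell_index {s r : ℝ} (hs : 0 < s) (hr : 0 < r) :
    ∃ j : ℤ, rho s j ≤ r ∧ r < rho s (j + 1) := by
  refine ⟨⌊Real.log r / (2 * s)⌋, ?_, ?_⟩
  · unfold rho
    rw [← Real.le_log_iff_exp_le hr]
    have := Int.floor_le (Real.log r / (2 * s))
    rw [le_div_iff₀ (by positivity)] at this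
    linarith
  · unfold rho
    rw [← Real.log_lt_iff_lt_exp hr]
    have := Int.lt_floor_add_one (Real.log r / (2 * s))
    rw [div_lt_iff₀ (by positivity)] at this
    push_cast
    linarith

theorem two_le_encard_of_mem {S : Set (Sp d)} {a b : Sp d} (ha : a ∈ S) (hb : b ∈ S)
    (hab : a ≠ b) : 2 ≤ S.encard := by
  rw [← Set.encard_pair hab]
  apply Set.encard_le_encard
  intro y hy
  rcases hy with rfl | rfl
  · exact ha
  · exact hb

/-- deterministic pair lemma -/
theorem pair_lemma {A : Set (Sp d)} {x q q' : Sp d} {s : ℝ} (hs : 0 < s)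
    (hq : IsClosest A x q) (hq' : q' ∈ A) (hne : q ≠ q')
    (hle : dist q' x ≤ Real.exp (2 * s) * dist q x) :
    ∃ j : ℤ, (A ∩ ball x (rho s j) = ∅ ∧ 2 ≤ (A ∩ shell x s j).encard) ∧
      dist q x < rho s (j + 1) := by
  have hr : 0 < dist q x := by
    rcases (dist_nonneg : 0 ≤ dist q x).lt_or_eq with h | h
    · exact h
    · exfalso
      rw [← h, mul_zero] at hle
      have h1 : q' = x := dist_le_zero.mp hle
      have h2 : q = x := dist_eq_zero.mp h.symm
      exact hne (h2.trans h1.symm)
  obtain ⟨j, hj1, hj2⟩ := exists_shell_index hs hr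
  refine ⟨j, ⟨?_, ?_⟩, hj2⟩
  · rw [Set.eq_empty_iff_forall_notMem]
    rintro a ⟨haA, hab⟩
    have := hq.2 a haA
    rw [mem_ball] at hab
    linarith
  · have h3 : rho s (j + 2) = Real.exp (2 * s) * rho s (j + 1) := by
      rw [← rho_succ]; congr 1; ring
    have h4 : rho s (j + 1) ≤ rho s (j + 2) := rho_mono hs (by omega)
    apply two_le_encard_of_mem (a := q) (b := q') _ _ hne
    · refine ⟨hq.1, ?_, ?_⟩
      · rw [mem_ball]; linarith
      · rw [mem_ball]; push Not; exact hj1
    · refine ⟨hq', ?_, ?_⟩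
      · rw [mem_ball, h3]
        refine lt_of_le_of_lt hle ?_
        exact mul_lt_mul_of_pos_left hj2 (Real.exp_pos _)
      · rw [mem_ball]; push Not
        exact hj1.trans (hq.2 q' hq')

variable {Ω : Type*} [MeasurableSpace Ω] {P : Measure Ω} {Q : Ω → Set (Sp d)}

theorem IsPoissonProcess.ae_good [NeZero d] [IsProbabilityMeasure P]
    (hQ : IsPoissonProcess P Q) : ∀ᵐ ω ∂P, Good (Q ω) := by
  filter_upwards [hQ.ae_locFinite, hQ.ae_nonempty] with ω h1 h2
  exact ⟨h2, h1⟩

/-- almost surely the closest particle is unique -/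
theorem IsPoissonProcess.ae_unique [NeZero d] [IsProbabilityMeasure P]
    (hQ : IsPoissonProcess P Q) (x : Sp d) : ∀ᵐ ω ∂P, UniqueAt (Q ω) x := by
  obtain ⟨C, hC, hsum⟩ := pair_sum d (m := 0) le_rfl
  have h1 : P {ω | ¬ UniqueAt (Q ω) x} = 0 := by
    apply le_antisymm _ zero_le
    have h2 : ∀ n : ℕ, P {ω | ¬ UniqueAt (Q ω) x} ≤ ENNReal.ofReal (C * (1 / ((n : ℝ) + 1))) := by
      intro n
      have hs0 : (0:ℝ) < 1 / ((n : ℝ) + 1) := by positivity
      have hs1 : 1 / ((n : ℝ) + 1) ≤ 1 := by
        rw [div_le_one (by positivity)]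
        linarith [(Nat.cast_nonneg n : (0:ℝ) ≤ n)]
      have h3 := hsum P Q hQ x (1 / ((n : ℝ) + 1)) hs0 hs1
      simp only [Real.rpow_zero, ENNReal.ofReal_one, one_mul] at h3
      refine le_trans ?_ h3
      refine le_trans (measure_mono ?_) (measure_iUnion_le _)
      intro ω hω
      simp only [Set.mem_ofPred_eq, UniqueAt] at hω
      push Not at hω
      obtain ⟨q, q', hq, hq', hne⟩ := hω
      have h4 : dist q' x ≤ Real.exp (2 * (1 / ((n : ℝ) + 1))) * dist q x := by
        have h5 := hq'.2 q hq.1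
        have h6 : 1 ≤ Real.exp (2 * (1 / ((n : ℝ) + 1))) := Real.one_le_exp (by positivity)
        have h7 : (0:ℝ) ≤ dist q x := dist_nonneg
        nlinarith
      obtain ⟨j, hj, -⟩ := pair_lemma hs0 hq hq'.1 hne h4
      exact Set.mem_iUnion.mpr ⟨j, hj⟩
    have h4 : Filter.Tendsto (fun n : ℕ => ENNReal.ofReal (C * (1 / ((n : ℝ) + 1))))
        Filter.atTop (nhds 0) := by
      rw [← ENNReal.ofReal_zero]
      apply ENNReal.tendsto_ofReal
      have := (tendsto_one_div_add_atTop_nhds_zero_nat (𝕜 := ℝ)).const_mul C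
      simpa using this
    exact ge_of_tendsto' h4 h2
  exact h1

/-- the image under the stretch of the closest particle is almost the closest -/
theorem stretch_bounds {i j : Fin d} (hij : i ≠ j) {s : ℝ} (hs : 0 ≤ s) (u v : Sp d) :
    dist (stretch hij s u) (stretch hij s v) ≤ Real.exp s * dist u v ∧
      dist u v ≤ Real.exp s * dist (stretch hij s u) (stretch hij s v) := by
  have e1 : dist (stretch hij s u) (stretch hij s v) = ‖stretchL i j s (u - v)‖ := by
    rw [dist_eq_norm, stretch_apply, stretch_apply, map_sub]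
  have e2 : dist u v = ‖stretchL i j 0 (u - v)‖ := by
    rw [dist_eq_norm, stretchL_zero]
  rw [e1, e2]
  constructor
  · have := norm_stretchL_le i j s 0 (u - v)
    rwa [sub_zero, abs_of_nonneg hs] at this
  · have := norm_stretchL_le i j 0 s (u - v)
    rwa [zero_sub, abs_neg, abs_of_nonneg hs] at this

theorem good_stretch {A : Set (Sp d)} (hA : Good A) {i j : Fin d} (hij : i ≠ j) {s : ℝ}
    (hs : 0 ≤ s) : Good (stretch hij s '' A) := by
  apply hA.image
  intro x r
  obtain ⟨y, hy⟩ := (stretch hij s).surjective x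
  apply (isBounded_closedBall (x := y) (r := Real.exp s * r)).subset
  intro z hz
  rw [Set.mem_preimage, mem_closedBall, ← hy] at hz
  rw [mem_closedBall]
  exact (stretch_bounds hij hs z y).2.trans (mul_le_mul_of_nonneg_left hz (Real.exp_pos _).le)

/-- the error made by replacing the closest particle in the stretched picture -/
noncomputable def errT {i j : Fin d} (hij : i ≠ j) (α s : ℝ) (A : Set (Sp d)) (x : Sp d) : ℝ :=
  ‖stretch hij s (closest A x) - closest (stretch hij s '' A) (stretch hij s x)‖ ^ α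

omit [MeasurableSpace Ω] in
/-- pathwise bound of the error by a weighted sum of pair events -/
theorem errT_le {i j : Fin d} (hij : i ≠ j) {α s : ℝ} (hα : 0 < α) (hs : 0 < s) (hs1 : s ≤ 1)
    (x : Sp d) (ω : Ω) (hA : Good (Q ω)) :
    ENNReal.ofReal (errT hij α s (Q ω) x) ≤
      ∑' k : ℤ, (pairEv Q x s k).indicator
        (fun _ => ENNReal.ofReal ((2 * Real.exp 3) ^ α * rho s k ^ α)) ω := by
  set A := Q ω with hAdef
  have hA' := good_stretch hA hij hs.le
  have hq := hA.closest_spec x
  have hq1 := hA'.closest_spec (stretch hij s x)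
  set q := closest A x with hqdef
  set r := closest (stretch hij s '' A) (stretch hij s x) with hrdef
  obtain ⟨q', hq'A, hq'r⟩ := hq1.1
  by_cases hne : q = q'
  · have : errT hij α s A x = 0 := by
      unfold errT
      rw [← hqdef, ← hrdef, ← hq'r, hne, sub_self, norm_zero, Real.zero_rpow hα.ne']
    rw [this, ENNReal.ofReal_zero]
    exact zero_le
  · have h1 : dist (stretch hij s q') (stretch hij s x) ≤
        dist (stretch hij s q) (stretch hij s x) := by
      rw [hq'r]
      exact hq1.2 _ ⟨q, hq.1, rfl⟩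
    have h2 := (stretch_bounds hij hs.le q x).1
    have h3 := (stretch_bounds hij hs.le q' x).2
    have h4 : dist q' x ≤ Real.exp (2 * s) * dist q x := by
      calc dist q' x ≤ Real.exp s * dist (stretch hij s q') (stretch hij s x) := h3
        _ ≤ Real.exp s * (Real.exp s * dist q x) :=
            mul_le_mul_of_nonneg_left (h1.trans h2) (Real.exp_pos _).le
        _ = Real.exp (2 * s) * dist q x := by
            rw [← mul_assoc, ← Real.exp_add]; congr 2; ring
    obtain ⟨k, hk, hkr⟩ := pair_lemma hs hq hq'A hne h4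
    have hkmem : ω ∈ pairEv Q x s k := hk
    have h5 : errT hij α s A x ≤ (2 * Real.exp 3) ^ α * rho s k ^ α := by
      unfold errT
      rw [← hqdef, ← hrdef, ← hq'r, ← Real.mul_rpow (by positivity) (rho_pos _ _).le]
      apply Real.rpow_le_rpow (norm_nonneg _) _ hα.le
      rw [← dist_eq_norm]
      calc dist (stretch hij s q) (stretch hij s q') ≤
          dist (stretch hij s q) (stretch hij s x) + dist (stretch hij s q') (stretch hij s x) :=
            dist_triangle_right _ _ _
        _ ≤ 2 * (Real.exp s * dist q x) := by linarith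
        _ ≤ 2 * (Real.exp 1 * (Real.exp 2 * rho s k)) := by
            have e1 : Real.exp s ≤ Real.exp 1 := Real.exp_le_exp.mpr hs1
            have e2 : dist q x ≤ Real.exp 2 * rho s k := by
              rw [rho_succ] at hkr
              have e3 : Real.exp (2 * s) ≤ Real.exp 2 := Real.exp_le_exp.mpr (by linarith)
              exact hkr.le.trans (mul_le_mul_of_nonneg_right e3 (rho_pos _ _).le)
            have e4 : (0:ℝ) ≤ dist q x := dist_nonneg
            have e5 : 0 < Real.exp 1 := Real.exp_pos 1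
            have := mul_le_mul e1 e2 e4 e5.le
            linarith
        _ = 2 * Real.exp 3 * rho s k := by
            rw [← mul_assoc (Real.exp 1), ← Real.exp_add]
            norm_num
            ring
    calc ENNReal.ofReal (errT hij α s A x) ≤
        ENNReal.ofReal ((2 * Real.exp 3) ^ α * rho s k ^ α) := ENNReal.ofReal_le_ofReal h5
      _ = (pairEv Q x s k).indicator
        (fun _ => ENNReal.ofReal ((2 * Real.exp 3) ^ α * rho s k ^ α)) ω := by
          rw [Set.indicator_of_mem hkmem]
      _ ≤ _ := ENNReal.le_tsum k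

/-- expected error is `O(s)` -/
theorem errT_expect (d : ℕ) [NeZero d] {i j : Fin d} (hij : i ≠ j) {α : ℝ} (hα : 0 < α) :
    ∃ C : ℝ, 0 < C ∧ ∀ {Ω : Type*} [MeasurableSpace Ω] (P : Measure Ω) [IsProbabilityMeasure P]
      (Q : Ω → Set (Sp d)), IsPoissonProcess P Q → ∀ (x : Sp d) (s : ℝ), 0 < s → s ≤ 1 →
    ∃ E : Ω → ℝ≥0∞, Measurable E ∧ (∀ᵐ ω ∂P, ENNReal.ofReal (errT hij α s (Q ω) x) ≤ E ω) ∧
      ∫⁻ ω, E ω ∂P ≤ ENNReal.ofReal (C * s) := by
  obtain ⟨C, hC, hsum⟩ := pair_sum d (m := α) hα.le
  refine ⟨(2 * Real.exp 3) ^ α * C, by positivity, ?_⟩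
  intro Ω _ P _ Q hQ x s hs hs1
  refine ⟨fun ω => ∑' k : ℤ, (pairEv Q x s k).indicator
        (fun _ => ENNReal.ofReal ((2 * Real.exp 3) ^ α * rho s k ^ α)) ω, ?_, ?_, ?_⟩
  · apply Measurable.tsum
    intro k
    exact measurable_const.indicator (pairEv_meas hQ x s k)
  · filter_upwards [hQ.ae_good] with ω hω
    exact errT_le hij hα hs hs1 x ω hω
  · rw [lintegral_tsum (fun k => (measurable_const.indicator (pairEv_meas hQ x s k)).aemeasurable)]
    have h1 : ∀ k : ℤ, ∫⁻ ω, (pairEv Q x s k).indicator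
        (fun _ => ENNReal.ofReal ((2 * Real.exp 3) ^ α * rho s k ^ α)) ω ∂P =
        ENNReal.ofReal ((2 * Real.exp 3) ^ α) *
          (ENNReal.ofReal (rho s k ^ α) * P (pairEv Q x s k)) := by
      intro k
      rw [lintegral_indicator_const (pairEv_meas hQ x s k), ENNReal.ofReal_mul (by positivity),
        mul_assoc]
    simp_rw [h1]
    rw [ENNReal.tsum_mul_left, mul_assoc, ENNReal.ofReal_mul (by positivity)]
    exact mul_le_mul' le_rfl (hsum P Q hQ x s hs hs1)

end Pool.Agent.Helper322.EFPP
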