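import Pool.Agent.Helper322.EFPP.Cert

/-!
# Eventual estimates for the certificate constants
-/

namespace Pool.Agent.Helper322.EFPP

open MeasureTheory Set ProbabilityTheory Metric TopologicalSpace Filter Topology
open scoped ENNReal

/-- the exponent of the inner radius -/
noncomputable def bet (α : ℝ) : ℝ := 1 / (2 * α)

/-- the path length -/
noncomputable def KK (d : ℕ) (R : ℝ) : ℕ := ⌊R / (16 * d)⌋₊

theorem bet_pos {α : ℝ} (hα : 1 < α) : 0 < bet α := by unfold bet; positivity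

theorem bet_lt {α : ℝ} (hα : 1 < α) : bet α ≤ 1 / 2 := by
  unfold bet
  rw [div_le_div_iff₀ (by linarith) (by norm_num)]
  linarith

theorem ev_bet_large {α : ℝ} (hα : 1 < α) (a : ℝ) : ∀ᶠ R : ℝ in atTop, a ≤ R ^ bet α :=
  (tendsto_rpow_atTop (bet_pos hα)).eventually_ge_atTop a

theorem ev_sqrt_small {c : ℝ} (hc : 0 < c) : ∀ᶠ R : ℝ in atTop, R ^ (1 / 2 : ℝ) ≤ c * R := by
  filter_upwards [eventually_ge_atTop 1, (tendsto_rpow_atTop (show (0:ℝ) < 1 / 2 by norm_num)).eventually_ge_atTop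
    (1 / c)] with R hR h
  have h1 : R = R ^ (1 / 2 : ℝ) * R ^ (1 / 2 : ℝ) := by
    rw [← Real.rpow_add (by linarith)]; norm_num
  have h2 : 1 ≤ c * R ^ (1 / 2 : ℝ) := by
    rw [div_le_iff₀ hc] at h; linarith
  calc R ^ (1 / 2 : ℝ) = 1 * R ^ (1 / 2 : ℝ) := (one_mul _).symm
    _ ≤ (c * R ^ (1 / 2 : ℝ)) * R ^ (1 / 2 : ℝ) := mul_le_mul_of_nonneg_right h2 (by positivity)
    _ = c * (R ^ (1 / 2 : ℝ) * R ^ (1 / 2 : ℝ)) := by ring
    _ = c * R := by rw [← h1]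

theorem ev_bet_small {α : ℝ} (hα : 1 < α) {c : ℝ} (hc : 0 < c) :
    ∀ᶠ R : ℝ in atTop, R ^ bet α ≤ c * R := by
  filter_upwards [eventually_ge_atTop 1, ev_sqrt_small hc] with R hR h
  exact (Real.rpow_le_rpow_of_exponent_le hR (bet_lt hα)).trans h

theorem ev_main_pow {α : ℝ} (hα : 1 < α) {n0 : ℝ} (hn0 : 0 ≤ n0) {c : ℝ} (hc : 0 < c) :
    ∀ᶠ R : ℝ in atTop, (2 * R ^ bet α + 4 * n0) ^ α ≤ c * R := by
  have hc' : 0 < c / 3 ^ α := by positivity
  filter_upwards [eventually_ge_atTop 1, ev_sqrt_small hc', ev_bet_large hα (4 * n0)] with R hR h h2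
  have h3 : 0 < R ^ bet α := Real.rpow_pos_of_pos (by linarith) _
  calc (2 * R ^ bet α + 4 * n0) ^ α ≤ (3 * R ^ bet α) ^ α := by
        apply Real.rpow_le_rpow (by positivity) _ (by linarith)
        linarith
    _ = 3 ^ α * (R ^ bet α) ^ α := Real.mul_rpow (by norm_num) h3.le
    _ = 3 ^ α * R ^ (1 / 2 : ℝ) := by
        rw [← Real.rpow_mul (by linarith)]
        congr 2
        unfold bet
        field_simp
    _ ≤ 3 ^ α * (c / 3 ^ α * R) := mul_le_mul_of_nonneg_left h (by positivity)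
    _ = c * R := by
        have : (3:ℝ) ^ α ≠ 0 := by positivity
        field_simp

theorem KK_bounds (d : ℕ) {R : ℝ} (hR : 0 ≤ R) :
    R / (16 * d) - 1 ≤ KK d R ∧ (KK d R : ℝ) ≤ R / (16 * d) := by
  unfold KK
  refine ⟨?_, Nat.floor_le (by positivity)⟩
  have := Nat.lt_floor_add_one (R / (16 * d))
  linarith

theorem ev_C2 (d : ℕ) [NeZero d] {α : ℝ} (hα : 1 < α) {n0 : ℝ} (hn0 : 0 ≤ n0) {l : ℝ}
    (hl : 0 < l) : ∀ᶠ R : ℝ in atTop, (2 * R ^ bet α + 4 * n0) ^ α ≤ l ^ α / d * KK d R := by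
  have hd : (0:ℝ) < d := by exact_mod_cast Nat.pos_of_ne_zero (NeZero.ne d)
  have hc : 0 < l ^ α / d * (1 / (32 * d)) := by positivity
  filter_upwards [ev_main_pow hα hn0 hc, eventually_ge_atTop (32 * (d:ℝ))] with R h hR
  refine h.trans ?_
  rw [mul_assoc]
  apply mul_le_mul_of_nonneg_left _ (by positivity)
  have h1 := (KK_bounds d (R := R) (by linarith)).1
  have h2 : 1 / (32 * (d:ℝ)) * R ≤ R / (16 * d) - 1 := by
    have h3 : 1 ≤ R / (32 * d) := by rw [le_div_iff₀ (by positivity)]; linarith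
    have h4 : R / (16 * d) = R / (32 * d) + R / (32 * d) := by field_simp; ring
    have h5 : 1 / (32 * (d:ℝ)) * R = R / (32 * d) := by field_simp
    linarith
  linarith

theorem ev_C3 {α : ℝ} (hα : 1 < α) {n0 : ℝ} (hn0 : 0 ≤ n0) :
    ∀ᶠ R : ℝ in atTop, 2 ^ α * (2 * R ^ bet α + 4 * n0) ^ α ≤ R := by
  filter_upwards [ev_main_pow hα hn0 (c := 1 / 2 ^ α) (by positivity)] with R h
  have h2 : (0:ℝ) < 2 ^ α := by positivity
  calc 2 ^ α * (2 * R ^ bet α + 4 * n0) ^ α ≤ 2 ^ α * (1 / 2 ^ α * R) :=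
        mul_le_mul_of_nonneg_left h h2.le
    _ = R := by field_simp

theorem ev_C4 {α : ℝ} (hα : 1 < α) (n0 : ℝ) :
    ∀ᶠ R : ℝ in atTop, R ^ bet α + 4 * n0 < R / 2 := by
  filter_upwards [ev_bet_small hα (c := 1 / 4) (by norm_num), eventually_gt_atTop (16 * n0),
    eventually_gt_atTop 0] with R h1 h2 h3
  linarith

theorem ev_C5 (d : ℕ) [NeZero d] {α : ℝ} (hα : 1 < α) :
    ∀ᶠ R : ℝ in atTop, 4 * (KK d R : ℝ) + 1 ≤ R / (2 * d) - R ^ bet α := by
  have hd : (0:ℝ) < d := by exact_mod_cast Nat.pos_of_ne_zero (NeZero.ne d)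
  filter_upwards [ev_bet_small hα (c := 1 / (8 * d)) (by positivity),
    eventually_ge_atTop (8 * (d:ℝ))] with R h1 h2
  have h3 := (KK_bounds d (R := R) (by linarith)).2
  have h4 : 1 ≤ R / (8 * d) := by rw [le_div_iff₀ (by positivity)]; linarith
  have h5 : 1 / (8 * (d:ℝ)) * R = R / (8 * d) := by field_simp
  have h6 : R / (2 * d) = 4 * (R / (8 * d)) := by field_simp; ring
  have h7 : R / (16 * d) = R / (8 * d) / 2 := by field_simp; ring
  rw [h5] at h1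
  rw [h7] at h3
  linarith

theorem ev_prob1 (d : ℕ) [NeZero d] {α : ℝ} (hα : 1 < α) (N : ℕ) {κ : ℝ} (hκ : 0 < κ) :
    ∀ᶠ R : ℝ in atTop, Real.exp (-((R ^ bet α) ^ d * κ)) ≤ 1 / 2 * (1 / R ^ N) := by
  have h := (isLittleO_exp_neg_mul_rpow_atTop hκ (-(N / bet α))).bound
    (show (0:ℝ) < 1 / 2 by norm_num)
  have h2 := (tendsto_rpow_atTop (bet_pos hα)).eventually h
  filter_upwards [h2, ev_bet_large hα 1, eventually_ge_atTop 1] with R h3 h4 h5
  have hR : 0 < R := by linarith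
  rw [Real.norm_of_nonneg (Real.exp_pos _).le, Real.norm_of_nonneg (by positivity)] at h3
  have h6 : Real.exp (-((R ^ bet α) ^ d * κ)) ≤ Real.exp (-κ * R ^ bet α) := by
    apply Real.exp_le_exp.mpr
    have h7 : R ^ bet α ≤ (R ^ bet α) ^ d := le_self_pow₀ h4 (NeZero.ne d)
    have := mul_le_mul_of_nonneg_right h7 hκ.le
    linarith
  refine (h6.trans h3).trans (le_of_eq ?_)
  congr 1
  rw [← Real.rpow_mul hR.le, show bet α * -((N : ℝ) / bet α) = -(N : ℝ) by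
    have := (bet_pos hα).ne'
    field_simp, Real.rpow_neg hR.le, Real.rpow_natCast, one_div]

theorem ev_prob2 (d : ℕ) [NeZero d] {α : ℝ} (hα : 1 < α) (N : ℕ) {l : ℝ} (hl : 0 < l) :
    ∀ᶠ R : ℝ in atTop, (2 * (R ^ bet α / l) + 5) ^ d * (2 * Real.exp (-(KK d R : ℝ))) ≤
      1 / 2 * (1 / R ^ N) := by
  have hd : (0:ℝ) < d := by exact_mod_cast Nat.pos_of_ne_zero (NeZero.ne d)
  have ha : (0:ℝ) < 1 / (16 * d) := by positivity
  have hc : (0:ℝ) < 1 / (4 * Real.exp 1) := by positivity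
  have h := (isLittleO_exp_neg_mul_rpow_atTop ha (-((N + d : ℕ) : ℝ))).bound hc
  filter_upwards [h, ev_bet_small hα (c := l / 4) (by positivity), eventually_ge_atTop 10] with
    R h3 h4 h5
  have hR : 0 < R := by linarith
  rw [Real.norm_of_nonneg (Real.exp_pos _).le, Real.norm_of_nonneg (by positivity),
    Real.rpow_neg hR.le, Real.rpow_natCast, pow_add] at h3
  have h6 : 2 * (R ^ bet α / l) + 5 ≤ R := by
    have : R ^ bet α / l ≤ R / 4 := by
      rw [div_le_iff₀ hl]; linarith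
    linarith
  have h7 : Real.exp (-(KK d R : ℝ)) ≤ Real.exp 1 * Real.exp (-(1 / (16 * d)) * R) := by
    rw [← Real.exp_add]
    apply Real.exp_le_exp.mpr
    have := (KK_bounds d (R := R) hR.le).1
    have h8 : -(1 / (16 * (d:ℝ))) * R = -(R / (16 * d)) := by field_simp
    rw [h8]; linarith
  have h9 : 0 < R ^ bet α := Real.rpow_pos_of_pos hR _
  calc (2 * (R ^ bet α / l) + 5) ^ d * (2 * Real.exp (-(KK d R : ℝ))) ≤
      R ^ d * (2 * (Real.exp 1 * (1 / (4 * Real.exp 1) * (R ^ N * R ^ d)⁻¹))) := by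
        apply mul_le_mul (pow_le_pow_left₀ (by positivity) h6 d) _ (by positivity) (by positivity)
        apply mul_le_mul_of_nonneg_left _ (by norm_num)
        refine h7.trans ?_
        exact mul_le_mul_of_nonneg_left h3 (Real.exp_pos _).le
    _ = 1 / 2 * (1 / R ^ N) := by
        have := (Real.exp_pos 1).ne'
        field_simp
        norm_num

/-- outside an event of small probability the passage times are local -/
theorem local_bad (d : ℕ) [NeZero d] {α : ℝ} (hα : 1 < α) {n0 : ℝ} (hn0 : 0 ≤ n0) (N : ℕ) :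
    ∃ R₁ : ℝ, 1 ≤ R₁ ∧ ∀ R : ℝ, R₁ ≤ R →
    ∀ {Ω : Type*} [MeasurableSpace Ω] (P : Measure Ω) [IsProbabilityMeasure P]
      (Q : Ω → Set (Sp d)), IsPoissonProcess P Q →
    ∃ B : Set Ω, P B ≤ ENNReal.ofReal (1 / R ^ N) ∧ ∀ ω, ω ∉ B → Good (Q ω) →
      ∀ x : Sp d, ‖x‖ ≤ 2 * n0 → UniqueAt (Q ω) 0 → UniqueAt (Q ω) x →
      ∀ W : Set (Sp d), ball (0 : Sp d) (R / 2) ⊆ W →
      Good (Q ω ∩ W) ∧ UniqueAt (Q ω ∩ W) 0 ∧ UniqueAt (Q ω ∩ W) x ∧
      passageTime α (Q ω ∩ W) 0 x = passageTime α (Q ω) 0 x ∧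
      2 ^ α * passageTime α (Q ω) 0 x ≤ R := by
  obtain ⟨l, hl, hl1, hsmall⟩ := exists_side d
  have hev := (ev_C2 d hα hn0 hl).and ((ev_C3 hα hn0).and ((ev_C4 hα n0).and
    ((ev_C5 d hα).and ((ev_prob1 d hα N (kap_pos d)).and (ev_prob2 d hα N hl)))))
  obtain ⟨R₀, hR₀⟩ := eventually_atTop.mp hev
  refine ⟨max R₀ 1, le_max_right _ _, ?_⟩
  intro R hR Ω _ P _ Q hQ
  obtain ⟨h2, h3, h4, h5, h6, h7⟩ := hR₀ R ((le_max_left _ _).trans hR)
  have hR1 : 1 ≤ R := (le_max_right _ _).trans hR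
  have hρ : 0 < R ^ bet α := Real.rpow_pos_of_pos (by linarith) _
  refine ⟨badEv Q l (R ^ bet α) (KK d R), ?_, ?_⟩
  · refine (badEv_prob hQ hl hsmall hρ (KK d R)).trans ?_
    apply ENNReal.ofReal_le_ofReal
    linarith
  · intro ω hω hA x hx hu0 hux W hW
    obtain ⟨a1, a2, a3, a4, a5⟩ := cert_det hα.le hl hl1 h2 h4 h5 hA hω hx hu0 hux hW
    refine ⟨a1, a2, a3, a4, ?_⟩
    refine le_trans ?_ h3
    exact mul_le_mul_of_nonneg_left a5 (by positivity)

end Pool.Agent.Helper322.EFPP
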