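import Mathlib

/-!
# Euclidean first-passage percolation on a Poisson point process: definitions
-/

namespace Pool.Agent.Helper322.EFPP

open MeasureTheory

/-- `d`-dimensional Euclidean space with the Euclidean norm. -/
abbrev Sp (d : ℕ) : Type := EuclideanSpace ℝ (Fin d)

/-- A homogeneous Poisson point process of intensity one on `ℝ^d`, realised as a random set `Q`
on a probability space `(Ω, P)`: the number of points in a Borel set `B` is a random variable,
it has the Poisson law with mean `volume B` when `B` has finite volume, and the numbers of points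
in pairwise disjoint Borel sets are independent. -/
structure IsPoissonProcess {d : ℕ} {Ω : Type*} [MeasurableSpace Ω] (P : Measure Ω)
    (Q : Ω → Set (Sp d)) : Prop where
  measurable_count : ∀ B : Set (Sp d), MeasurableSet B →
    Measurable (fun ω => (Q ω ∩ B).encard)
  law_count : ∀ B : Set (Sp d), MeasurableSet B → volume B ≠ ⊤ → ∀ k : ℕ,
    P {ω | (Q ω ∩ B).encard = (k : ℕ∞)} =
      ENNReal.ofReal (Real.exp (-(volume B).toReal) * (volume B).toReal ^ k / (k.factorial : ℝ))
  indep_count : ∀ (m : ℕ) (B : Fin m → Set (Sp d)), (∀ i, MeasurableSet (B i)) →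
    Pairwise (fun i j => Disjoint (B i) (B j)) →
    ProbabilityTheory.iIndepFun (fun i ω => (Q ω ∩ B i).encard) P

/-- The cost `∑_{i<k} |p_i - p_{i+1}|^α` of the chain `p_0, ..., p_k`. -/
noncomputable def chainCost {d : ℕ} (α : ℝ) (k : ℕ) (p : ℕ → Sp d) : ℝ :=
  ∑ i ∈ Finset.range k, ‖p i - p (i + 1)‖ ^ α

/-- `T(q, q')`: the infimum of the costs of the chains `q = p_0, ..., p_k = q'`, `k ≥ 1`, all of
whose points belong to `A`. -/
noncomputable def chainInf {d : ℕ} (α : ℝ) (A : Set (Sp d)) (q q' : Sp d) : ℝ :=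
  sInf {c : ℝ | ∃ k : ℕ, 1 ≤ k ∧ ∃ p : ℕ → Sp d,
    p 0 = q ∧ p k = q' ∧ (∀ i ≤ k, p i ∈ A) ∧ c = chainCost α k p}

/-- `q(x)`: a point of `A` which is closest to `x` (almost surely unique for a Poisson process). -/
noncomputable def closest {d : ℕ} (A : Set (Sp d)) (x : Sp d) : Sp d :=
  Classical.epsilon fun q => q ∈ A ∧ ∀ q' ∈ A, dist q x ≤ dist q' x

/-- The passage time `T(x, y) = T(q(x), q(y))` through the particles of `A`. -/
noncomputable def passageTime {d : ℕ} (α : ℝ) (A : Set (Sp d)) (x y : Sp d) : ℝ :=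
  chainInf α A (closest A x) (closest A y)

/-- The first coordinate unit vector. -/
noncomputable def e1 (d : ℕ) [NeZero d] : Sp d := EuclideanSpace.single 0 1

/-- The mean passage time `n ↦ E T(0, n e_1)`. -/
noncomputable def meanTime {d : ℕ} [NeZero d] {Ω : Type*} [MeasurableSpace Ω] (P : Measure Ω)
    (Q : Ω → Set (Sp d)) (α : ℝ) (n : ℝ) : ℝ :=
  ∫ ω, passageTime α (Q ω) 0 (n • e1 d) ∂P

end Pool.Agent.Helper322.EFPP
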