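import Pool.Agent.Helper322.EFPP.Local

/-!
# Differentiability of the mean passage time
-/

namespace Pool.Agent.Helper322.EFPP

open MeasureTheory Set ProbabilityTheory Metric TopologicalSpace Filter Topology
open scoped ENNReal

variable {d : ℕ} {Ω : Type*} [MeasurableSpace Ω] {P : Measure Ω} {Q : Ω → Set (Sp d)}

theorem summable_inv_sq (c : ℝ) : Summable (fun j : ℕ => c / ((j : ℝ) + 1) ^ 2) := by
  have h : Summable (fun j : ℕ => 1 / ((j : ℝ)) ^ 2) :=
    Real.summable_one_div_nat_pow.mpr (by norm_num)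
  have h2 := (summable_nat_add_iff (f := fun j : ℕ => 1 / ((j : ℝ)) ^ 2) 1).mpr h
  have h3 := h2.mul_left c
  have e : (fun j : ℕ => c / ((j : ℝ) + 1) ^ 2) =
      fun j : ℕ => c * (1 / (((j + 1 : ℕ) : ℝ)) ^ 2) := by
    funext j
    push_cast
    rw [mul_one_div]
  rw [e]; exact h3

/-- the derivative bound is summable -/
theorem num_bound (d : ℕ) {κ R lam : ℝ} (hκ : 0 < κ) (hR : 1 ≤ R) (hl : 1 / 2 < lam) :
    (1 / (R + 1) ^ (d + 2)) / 2 * (((R + 1) ^ d * κ) / lam) +
      1 / (2 * (1 / (R + 1) ^ (d + 2))) * ((R + 1) * ((R + 1) * (1 / R ^ (d + 6)))) ≤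
    (κ + 2 ^ (d + 4)) / R ^ 2 := by
  have hR0 : 0 < R := by linarith
  have hl0 : 0 < lam := by linarith
  have h1 : (1 / (R + 1) ^ (d + 2)) / 2 * (((R + 1) ^ d * κ) / lam) ≤ κ / R ^ 2 := by
    have e : (1 / (R + 1) ^ (d + 2)) / 2 * (((R + 1) ^ d * κ) / lam) =
        κ / ((R + 1) ^ 2 * (2 * lam)) := by
      rw [pow_add]; field_simp
    rw [e]
    apply div_le_div_of_nonneg_left hκ.le (by positivity)
    calc R ^ 2 = R ^ 2 * 1 := by ring
      _ ≤ (R + 1) ^ 2 * (2 * lam) := by
          apply mul_le_mul _ (by linarith) (by norm_num) (by positivity)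
          exact pow_le_pow_left₀ hR0.le (by linarith) 2
  have h2 : 1 / (2 * (1 / (R + 1) ^ (d + 2))) * ((R + 1) * ((R + 1) * (1 / R ^ (d + 6)))) ≤
      2 ^ (d + 4) / R ^ 2 := by
    have e : 1 / (2 * (1 / (R + 1) ^ (d + 2))) * ((R + 1) * ((R + 1) * (1 / R ^ (d + 6)))) =
        (R + 1) ^ (d + 4) / (2 * R ^ (d + 6)) := by
      rw [show d + 4 = (d + 2) + 2 by ring, pow_add (R + 1) (d + 2) 2]; field_simp
    rw [e, div_le_div_iff₀ (by positivity) (by positivity)]
    have h3 : (R + 1) ^ (d + 4) ≤ (2 * R) ^ (d + 4) :=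
      pow_le_pow_left₀ (by linarith) (by linarith) _
    calc (R + 1) ^ (d + 4) * R ^ 2 ≤ (2 * R) ^ (d + 4) * R ^ 2 :=
          mul_le_mul_of_nonneg_right h3 (by positivity)
      _ = 2 ^ (d + 4) * R ^ (d + 6) := by rw [mul_pow]; ring
      _ ≤ 2 ^ (d + 4) * (2 * R ^ (d + 6)) := by
          apply mul_le_mul_of_nonneg_left _ (by positivity)
          have : 0 < R ^ (d + 6) := by positivity
          linarith
  rw [add_div]
  exact add_le_add h1 h2

theorem pt_QL_ae [NeZero d] [IsProbabilityMeasure P] (hQ : IsPoissonProcess P Q) {α lam : ℝ}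
    (hl : 0 < lam) (x : Sp d) : ∀ᵐ ω ∂P, passageTime α (QL Q lam ω) 0 (cl d lam • x) =
      (cl d lam) ^ α * passageTime α (Q ω) 0 x := by
  have hc := cl_pos d hl
  filter_upwards [hQ.ae_good, hQ.ae_unique 0, hQ.ae_unique x] with ω hA hu0 hux
  have := passageTime_scl (α := α) hA hc hu0 hux
  rw [scl_zero hc] at this
  exact this

/-- the mean passage time is a differentiable function of the intensity -/
theorem G_deriv [NeZero d] [IsProbabilityMeasure P] (hQ : IsPoissonProcess P Q) {α : ℝ}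
    (hα : 1 < α) {n0 : ℝ} (hn0 : 0 < n0) :
    DifferentiableAt ℝ (fun lam => ∫ ω, passageTime α (QL Q lam ω) 0 (n0 • e1 d) ∂P) 1 := by
  have hα0 : 0 < α := by linarith
  have hκ := kap_pos d
  obtain ⟨R₁, hR₁, hloc⟩ := local_bad d hα hn0.le (d + 6)
  set y : Sp d := n0 • e1 d with hy
  have hRj : ∀ j : ℕ, R₁ ≤ R₁ + j := fun j => by
    linarith [(Nat.cast_nonneg j : (0:ℝ) ≤ j)]
  have hRj1 : ∀ j : ℕ, (1:ℝ) ≤ R₁ + j := fun j => hR₁.trans (hRj j)
  have hch := fun j : ℕ => hloc (R₁ + j) (hRj j) P Q hQ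
  choose B hB hBloc using hch
  set F : ℕ → Config d → ℝ := fun j => FR α y (R₁ + j) with hF
  set H : ℕ → Config d → ℝ := fun j A => F (j + 1) A - F j A with hH
  have hFm : ∀ j, Measurable (F j) := fun j => FR_meas _ _ _
  have hHm : ∀ j, Measurable (H j) := fun j => (hFm (j + 1)).sub (hFm j)
  have hF0 : ∀ j A, 0 ≤ F j A := fun j A => FR_nonneg _ _ (by linarith [hRj1 j]) A
  have hFle : ∀ j A, F j A ≤ R₁ + j := fun j A => FR_le _ _ _ A
  have hHb : ∀ j A, |H j A| ≤ R₁ + j + 1 := by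
    intro j A
    have h1 := hF0 j A
    have h2 := hF0 (j + 1) A
    have h3 := hFle j A
    have h4 := hFle (j + 1) A
    push_cast at h4
    rw [hH]
    simp only
    rw [abs_le]
    constructor <;> linarith
  -- pointwise localisation
  have hpt : ∀ lam ∈ Set.Ioo (1 / 2 : ℝ) 2, ∀ᵐ ω ∂P, ∀ j, ω ∉ B j → ∀ i, j ≤ i →
      F i (toConfig (QL Q lam) ω) = passageTime α (QL Q lam ω) 0 y := by
    intro lam hlam
    have hl0 : 0 < lam := by linarith [hlam.1]
    have hc := cl_pos d hl0
    set c := cl d lam with hcd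
    set x : Sp d := (n0 / c) • e1 d with hx
    have hsx : scl c hc.ne' x = y := by
      rw [scl_apply, hx, smul_smul, hy]
      congr 1
      field_simp
    have hxn : ‖x‖ ≤ 2 * n0 := by
      have he : ‖e1 d‖ = 1 := by simp [e1]
      rw [hx, norm_smul, he, mul_one, Real.norm_of_nonneg (by positivity), div_le_iff₀ hc]
      have := le_cl d hlam
      nlinarith
    filter_upwards [hQ.ae_good, hQ.ae_unique 0, hQ.ae_unique x] with ω hA hu0 hux
    intro j hj i hij
    have hji : R₁ + (j:ℝ) ≤ R₁ + (i:ℝ) := by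
      have : (j:ℝ) ≤ i := by exact_mod_cast hij
      linarith
    have := FR_eq hα0 hc (cl_le d hlam) hA hu0 hux (hBloc j ω hj hA x hxn hu0 hux)
      (by linarith [hRj1 j]) hji
    rw [hsx] at this
    exact this
  have hmeasL : ∀ lam ∈ Set.Ioo (1 / 2 : ℝ) 2, Measurable (toConfig (QL Q lam)) := fun lam hlam =>
    (isVoid_QL hQ (by linarith [hlam.1])).toConfig_meas
  -- the integrals of the increments
  have hint1 : ∀ j : ℕ, ∀ lam ∈ Set.Ioo (1 / 2 : ℝ) 2,
      ∫ ω, |H j (toConfig (QL Q lam) ω)| ∂P ≤ (R₁ + j + 1) * (1 / (R₁ + j) ^ (d + 6)) := by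
    intro j lam hlam
    have hp0 : 0 ≤ 1 / (R₁ + (j:ℝ)) ^ (d + 6) := by
      have := hRj1 j
      positivity
    apply int_abs_le ((hHm j).comp (hmeasL lam hlam)) (fun ω => hHb j _) _ (hB j) hp0
    filter_upwards [hpt lam hlam] with ω h hω
    show F (j + 1) (toConfig (QL Q lam) ω) - F j (toConfig (QL Q lam) ω) = 0
    rw [h j hω (j + 1) (by omega), h j hω j le_rfl, sub_self]
  set g : ℕ → ℝ → ℝ := fun j lam => ∫ ω, H j (toConfig (QL Q lam) ω) ∂P with hg
  set u : ℕ → ℝ := fun j => (kap d + 2 ^ (d + 4)) / ((j : ℝ) + 1) ^ 2 with hu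
  have hjle : ∀ j : ℕ, ((j : ℝ) + 1) ^ 2 ≤ (R₁ + j) ^ 2 := by
    intro j
    apply pow_le_pow_left₀ (by positivity)
    linarith
  have hgder : ∀ j : ℕ, ∀ lam ∈ Set.Ioo (1 / 2 : ℝ) 2, ∃ D, HasDerivAt (g j) D lam ∧ |D| ≤ u j := by
    intro j lam hlam
    have hl0 : 0 < lam := by linarith [hlam.1]
    have hR0 : 0 < R₁ + (j:ℝ) + 1 := by linarith [hRj1 j]
    have hvol := vol_ball_toReal (0 : Sp d) hR0
    obtain ⟨D, hD, hD2⟩ := finite_volume_deriv (QQ := QL Q) (fun l hl => isVoid_QL hQ hl)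
      (W := ball (0 : Sp d) (R₁ + j + 1)) measurableSet_ball
      (measure_ball_pos volume 0 hR0).ne' measure_ball_lt_top.ne
      (hHm j) (hHb j) (fun A => by
        rw [hH]
        simp only
        rw [hF]
        simp only
        rw [FR_restr α y (by push_cast; linarith), FR_restr α y (by linarith)]) hl0
      (θ := 1 / (R₁ + j + 1) ^ (d + 2)) (by positivity)
    refine ⟨D, hD, hD2.trans ?_⟩
    rw [hvol]
    have h1 := num_bound d hκ (hRj1 j) hlam.1
    have h2 : 1 / (2 * (1 / (R₁ + (j:ℝ) + 1) ^ (d + 2))) * ((R₁ + j + 1) *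
        ∫ ω, |H j (toConfig (QL Q lam) ω)| ∂P) ≤
        1 / (2 * (1 / (R₁ + (j:ℝ) + 1) ^ (d + 2))) * ((R₁ + j + 1) *
          ((R₁ + j + 1) * (1 / (R₁ + j) ^ (d + 6)))) := by
      apply mul_le_mul_of_nonneg_left _ (by positivity)
      exact mul_le_mul_of_nonneg_left (hint1 j lam hlam) hR0.le
    have h3 : (kap d + 2 ^ (d + 4)) / (R₁ + (j:ℝ)) ^ 2 ≤ u j := by
      rw [hu]
      simp only
      exact div_le_div_of_nonneg_left (by positivity) (by positivity) (hjle j)
    linarith
  have hsum_int : ∀ lam ∈ Set.Ioo (1 / 2 : ℝ) 2,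
      Summable (fun j => ∫ ω, |H j (toConfig (QL Q lam) ω)| ∂P) := by
    intro lam hlam
    apply Summable.of_nonneg_of_le (fun j => integral_nonneg fun ω => abs_nonneg _) _
      (summable_inv_sq 2)
    intro j
    refine (hint1 j lam hlam).trans ?_
    have h1 := hRj1 j
    have h2 : (R₁ + (j:ℝ) + 1) * (1 / (R₁ + j) ^ (d + 6)) ≤ 2 / (R₁ + j) ^ 2 := by
      have h0 : 0 < R₁ + (j:ℝ) := by linarith
      rw [mul_one_div, div_le_div_iff₀ (by positivity) (by positivity)]
      calc (R₁ + (j:ℝ) + 1) * (R₁ + j) ^ 2 ≤ (2 * (R₁ + j)) * (R₁ + j) ^ 2 := by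
            apply mul_le_mul_of_nonneg_right _ (by positivity)
            linarith
        _ = 2 * (R₁ + j) ^ 3 := by ring
        _ ≤ 2 * (R₁ + j) ^ (d + 6) := by
            apply mul_le_mul_of_nonneg_left _ (by norm_num)
            exact pow_le_pow_right₀ h1 (by omega)
    exact h2.trans (div_le_div_of_nonneg_left (by norm_num) (by positivity) (hjle j))
  -- derivative of the series
  have h1mem : (1:ℝ) ∈ Set.Ioo (1 / 2 : ℝ) 2 := ⟨by norm_num, by norm_num⟩
  have hser : HasDerivAt (fun z => ∑' j, g j z) (∑' j, deriv (g j) 1) 1 := by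
    apply hasDerivAt_tsum_of_isPreconnected (u := u) (t := Set.Ioo (1 / 2 : ℝ) 2) (y₀ := 1)
      (g' := fun j z => deriv (g j) z)
    · exact summable_inv_sq _
    · exact isOpen_Ioo
    · exact isPreconnected_Ioo
    · intro j z hz
      obtain ⟨D, hD, -⟩ := hgder j z hz
      exact hD.differentiableAt.hasDerivAt
    · intro j z hz
      obtain ⟨D, hD, hD2⟩ := hgder j z hz
      rw [hD.deriv, Real.norm_eq_abs]; exact hD2
    · exact h1mem
    · apply Summable.of_norm_bounded (hsum_int 1 h1mem)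
      intro j
      exact norm_integral_le_integral_norm _
    · exact h1mem
  -- the first term
  have hfirst : DifferentiableAt ℝ (fun z => ∫ ω, F 0 (toConfig (QL Q z) ω) ∂P) 1 := by
    have hR0 : 0 < R₁ + ((0:ℕ):ℝ) := by push_cast; linarith
    obtain ⟨D, hD, -⟩ := finite_volume_deriv (QQ := QL Q) (fun l hl => isVoid_QL hQ hl)
      (W := ball (0 : Sp d) (R₁ + ((0:ℕ):ℝ))) measurableSet_ball
      (measure_ball_pos volume 0 hR0).ne' measure_ball_lt_top.ne
      (hFm 0) (M := R₁ + ((0:ℕ):ℝ)) (fun A => by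
        rw [abs_of_nonneg (hF0 0 A)]
        exact hFle 0 A) (fun A => by
        rw [hF]
        simp only
        rw [FR_restr α y le_rfl]) (lam := 1) one_pos (θ := 1) one_pos
    exact hD.differentiableAt
  -- the telescoping identity
  have htel : ∀ lam ∈ Set.Ioo (1 / 2 : ℝ) 2, ∫ ω, passageTime α (QL Q lam ω) 0 y ∂P =
      (∫ ω, F 0 (toConfig (QL Q lam) ω) ∂P) + ∑' j, g j lam := by
    intro lam hlam
    have hBC : ∀ᵐ ω ∂P, ∀ᶠ j in atTop, ω ∉ B j := by
      apply ae_eventually_notMem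
      have h1 : ∀ j, P (B j) ≤ ENNReal.ofReal (1 / ((j:ℝ) + 1) ^ 2) := by
        intro j
        refine (hB j).trans (ENNReal.ofReal_le_ofReal ?_)
        refine le_trans ?_ (div_le_div_of_nonneg_left zero_le_one (by positivity) (hjle j))
        apply div_le_div_of_nonneg_left zero_le_one
        · have := hRj1 j
          positivity
        · exact pow_le_pow_right₀ (hRj1 j) (by omega)
      refine ((ENNReal.tsum_le_tsum h1).trans_lt ?_).ne
      rw [← ENNReal.ofReal_tsum_of_nonneg (fun j => by positivity) (summable_inv_sq 1)]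
      exact ENNReal.ofReal_lt_top
    have hHint : ∀ j, Integrable (fun ω => H j (toConfig (QL Q lam) ω)) P := by
      intro j
      apply Integrable.of_bound (C := R₁ + j + 1)
      · exact ((hHm j).comp (hmeasL lam hlam)).aestronglyMeasurable
      · filter_upwards with ω
        rw [Real.norm_eq_abs]; exact hHb j _
    have hFint : Integrable (fun ω => F 0 (toConfig (QL Q lam) ω)) P := by
      apply Integrable.of_bound (C := R₁ + ((0:ℕ):ℝ))
      · exact ((hFm 0).comp (hmeasL lam hlam)).aestronglyMeasurable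
      · filter_upwards with ω
        rw [Real.norm_of_nonneg (hF0 0 _)]; exact hFle 0 _
    have hs := hasSum_integral_of_summable_integral_norm hHint
      (by simpa [Real.norm_eq_abs] using hsum_int lam hlam)
    have hae : ∀ᵐ ω ∂P, ∑' j, H j (toConfig (QL Q lam) ω) =
        passageTime α (QL Q lam ω) 0 y - F 0 (toConfig (QL Q lam) ω) := by
      filter_upwards [hBC, hpt lam hlam] with ω h1 h2
      obtain ⟨J, hJ⟩ := eventually_atTop.mp h1
      have h3 := h2 J (hJ J le_rfl)
      have h4 : ∀ j ∉ Finset.range J, H j (toConfig (QL Q lam) ω) = 0 := by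
        intro j hj
        rw [Finset.mem_range, not_lt] at hj
        rw [hH]
        simp only
        rw [h3 (j + 1) (by omega), h3 j hj, sub_self]
      rw [tsum_eq_sum h4, hH]
      simp only
      rw [Finset.sum_range_sub (fun j => F j (toConfig (QL Q lam) ω)), h3 J le_rfl]
    have hTint : Integrable (fun ω => ∑' j, H j (toConfig (QL Q lam) ω)) P := by
      have hl0 : 0 < lam := by linarith [hlam.1]
      have hc := cl_pos d hl0
      have h1 := (passageTime_integrable hQ hα0 0 ((n0 / cl d lam) • e1 d)).const_mul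
        ((cl d lam) ^ α)
      apply (h1.sub hFint).congr
      filter_upwards [hae, pt_QL_ae hQ (α := α) hl0 ((n0 / cl d lam) • e1 d)] with ω h2 h3
      rw [smul_smul, show cl d lam * (n0 / cl d lam) = n0 by field_simp] at h3
      rw [h2, Pi.sub_apply, hy, h3]
    rw [hg]
    simp only
    rw [hs.tsum_eq, ← integral_add hFint hTint]
    apply integral_congr_ae
    filter_upwards [hae] with ω h
    rw [h]; ring
  have hfin : DifferentiableAt ℝ (fun z => (∫ ω, F 0 (toConfig (QL Q z) ω) ∂P) + ∑' j, g j z) 1 :=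
    hfirst.add hser.differentiableAt
  apply hfin.congr_of_eventuallyEq
  filter_upwards [isOpen_Ioo.mem_nhds h1mem] with z hz
  exact htel z hz

end Pool.Agent.Helper322.EFPP
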