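import Pool.Agent.Helper322.EFPP.Deriv

/-!
# The mean passage time is differentiable
-/

namespace Pool.Agent.Helper322.EFPP

open MeasureTheory Set ProbabilityTheory Metric TopologicalSpace Filter Topology
open scoped ENNReal

variable {d : ℕ} {Ω : Type*} [MeasurableSpace Ω] {P : Measure Ω} {Q : Ω → Set (Sp d)}

theorem meanTime_differentiableAt [NeZero d] [IsProbabilityMeasure P]
    (hQ : IsPoissonProcess P Q) {α : ℝ} (hα : 1 < α) {n0 : ℝ} (hn0 : 0 < n0) :
    DifferentiableAt ℝ (meanTime P Q α) n0 := by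
  have hd : (d : ℝ) ≠ 0 := by exact_mod_cast (NeZero.ne d)
  set G : ℝ → ℝ := fun lam => ∫ ω, passageTime α (QL Q lam ω) 0 (n0 • e1 d) ∂P with hG
  have hGd : DifferentiableAt ℝ G 1 := G_deriv hQ hα hn0
  have hid : ∀ n : ℝ, 0 < n → meanTime P Q α n = (n / n0) ^ α * G ((n / n0) ^ d) := by
    intro n hn
    have hr : 0 < n / n0 := by positivity
    have hlam : 0 < (n / n0) ^ d := by positivity
    have hcl : cl d ((n / n0) ^ d) = n0 / n := by
      unfold cl
      rw [← Real.rpow_natCast, ← Real.rpow_mul hr.le, show (d:ℝ) * -(1 / (d:ℝ)) = -1 by field_simp,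
        Real.rpow_neg_one, inv_div]
    have h1 := pt_QL_ae hQ (α := α) hlam (n • e1 d)
    rw [hcl] at h1
    have h2 : G ((n / n0) ^ d) = (n0 / n) ^ α * meanTime P Q α n := by
      rw [hG]
      simp only
      unfold meanTime
      rw [← integral_const_mul]
      apply integral_congr_ae
      filter_upwards [h1] with ω h3
      rw [smul_smul, show n0 / n * n = n0 by field_simp] at h3
      exact h3
    rw [h2, ← mul_assoc, ← Real.mul_rpow hr.le (by positivity),
      show n / n0 * (n0 / n) = 1 by field_simp, Real.one_rpow, one_mul]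
  have h1 : DifferentiableAt ℝ (fun n : ℝ => n / n0) n0 := differentiableAt_id.div_const _
  have h2 : DifferentiableAt ℝ (fun n : ℝ => (n / n0) ^ d) n0 := h1.pow d
  have h3 : DifferentiableAt ℝ (fun n : ℝ => (n / n0) ^ α) n0 :=
    h1.rpow_const (Or.inl (by rw [div_self hn0.ne']; norm_num))
  have h4 : DifferentiableAt ℝ (fun n : ℝ => G ((n / n0) ^ d)) n0 := by
    apply DifferentiableAt.comp (g := G) (f := fun n : ℝ => (n / n0) ^ d) n0 _ h2
    rw [div_self hn0.ne', one_pow]; exact hGd
  have h5 := h3.mul h4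
  apply h5.congr_of_eventuallyEq
  filter_upwards [lt_mem_nhds hn0] with n hn
  rw [Pi.mul_apply]
  exact hid n hn

end Pool.Agent.Helper322.EFPP
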