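import Pool.Agent.Helper322.EFPP.FinVol

/-!
# Differentiating the finite volume series in the intensity
-/

namespace Pool.Agent.Helper322.EFPP

open Filter Topology

theorem hasSum_k1 (z : ℝ) : HasSum (fun k : ℕ => z ^ k / (k.factorial : ℝ) * k) (z * Real.exp z) := by
  have h := (hasSum_pow_exp z).mul_left z
  have e : (fun k : ℕ => z * (z ^ k / (k.factorial : ℝ))) =
      fun k : ℕ => z ^ (k + 1) / ((k + 1).factorial : ℝ) * ((k + 1 : ℕ) : ℝ) := by
    funext k
    rw [Nat.factorial_succ, pow_succ]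
    push_cast
    have : (k.factorial : ℝ) ≠ 0 := by positivity
    have h2 : (k : ℝ) + 1 ≠ 0 := by positivity
    field_simp
  rw [e] at h
  have := (hasSum_nat_add_iff (f := fun k : ℕ => z ^ k / (k.factorial : ℝ) * k) 1).mp h
  simpa using this

theorem hasSum_k2 (z : ℝ) :
    HasSum (fun k : ℕ => z ^ k / (k.factorial : ℝ) * (k : ℝ) ^ 2) ((z ^ 2 + z) * Real.exp z) := by
  have h := ((hasSum_k1 z).add (hasSum_pow_exp z)).mul_left z
  have e : (fun k : ℕ => z * (z ^ k / (k.factorial : ℝ) * k + z ^ k / (k.factorial : ℝ))) =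
      fun k : ℕ => z ^ (k + 1) / ((k + 1).factorial : ℝ) * ((k + 1 : ℕ) : ℝ) ^ 2 := by
    funext k
    rw [Nat.factorial_succ, pow_succ]
    push_cast
    have : (k.factorial : ℝ) ≠ 0 := by positivity
    have h2 : (k : ℝ) + 1 ≠ 0 := by positivity
    field_simp
  rw [e] at h
  have := (hasSum_nat_add_iff (f := fun k : ℕ => z ^ k / (k.factorial : ℝ) * (k : ℝ) ^ 2) 1).mp h
  simp only [Finset.range_one, Finset.sum_singleton, pow_zero, Nat.factorial_zero, Nat.cast_one,
    Nat.cast_zero, ne_eq, OfNat.ofNat_ne_zero, not_false_eq_true, zero_pow, mul_zero,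
    add_zero] at this
  have hval : (z ^ 2 + z) * Real.exp z = z * (z * Real.exp z + Real.exp z) := by ring
  rw [hval]
  exact this

/-- variance of the Poisson law -/
theorem hasSum_var {V lam : ℝ} (hl : 0 < lam) :
    HasSum (fun k : ℕ => pwt V lam k * ((k : ℝ) / lam - V) ^ 2) (V / lam) := by
  have h := (((hasSum_k2 (lam * V)).sub ((hasSum_k1 (lam * V)).mul_left (2 * (lam * V)))).add
    ((hasSum_pow_exp (lam * V)).mul_left ((lam * V) ^ 2))).mul_left
      (Real.exp (-(lam * V)) / lam ^ 2)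
  have e1 : (fun k : ℕ => Real.exp (-(lam * V)) / lam ^ 2 *
      ((lam * V) ^ k / (k.factorial : ℝ) * (k : ℝ) ^ 2 -
        2 * (lam * V) * ((lam * V) ^ k / (k.factorial : ℝ) * k) +
        (lam * V) ^ 2 * ((lam * V) ^ k / (k.factorial : ℝ)))) =
      fun k : ℕ => pwt V lam k * ((k : ℝ) / lam - V) ^ 2 := by
    funext k
    unfold pwt
    field_simp
    ring
  rw [e1] at h
  have e2 : Real.exp (-(lam * V)) * Real.exp (lam * V) = 1 := by rw [← Real.exp_add]; simp
  have e3 : Real.exp (-(lam * V)) / lam ^ 2 * (((lam * V) ^ 2 + lam * V) * Real.exp (lam * V) -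
      2 * (lam * V) * (lam * V * Real.exp (lam * V)) + (lam * V) ^ 2 * Real.exp (lam * V)) =
      (Real.exp (-(lam * V)) * Real.exp (lam * V)) * (lam * V) / lam ^ 2 := by ring
  rw [e3, e2] at h
  have e4 : 1 * (lam * V) / lam ^ 2 = V / lam := by field_simp
  rw [e4] at h
  exact h

theorem hasDerivAt_pwt {V lam : ℝ} (hl : 0 < lam) (k : ℕ) :
    HasDerivAt (fun y => pwt V y k) (pwt V lam k * ((k : ℝ) / lam - V)) lam := by
  unfold pwt
  have h1 : HasDerivAt (fun y : ℝ => Real.exp (-(y * V))) (Real.exp (-(lam * V)) * (-V)) lam := by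
    have h0 : HasDerivAt (fun y : ℝ => -(y * V)) (-V) lam :=
      (((hasDerivAt_id lam).mul_const V).neg).congr_deriv (by simp)
    exact h0.exp
  have h2 : HasDerivAt (fun y : ℝ => (y * V) ^ k) ((k : ℝ) * (lam * V) ^ (k - 1) * V) lam := by
    have h0 : HasDerivAt (fun y : ℝ => y * V) V lam :=
      ((hasDerivAt_id lam).mul_const V).congr_deriv (by simp)
    exact h0.pow k
  have h3 := (h1.mul h2).div_const (k.factorial : ℝ)
  refine h3.congr_deriv ?_
  rcases Nat.eq_zero_or_pos k with hk | hk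
  · subst hk; simp
  · have e : (lam * V) ^ k = (lam * V) ^ (k - 1) * (lam * V) := by
      rw [← pow_succ]; congr 1; omega
    rw [e]
    field_simp
    ring

theorem summable_pow_fact_mul (z c e : ℝ) :
    Summable (fun k : ℕ => z ^ k / (k.factorial : ℝ) * (c * k + e)) := by
  have h := ((hasSum_k1 z).summable.mul_left c).add ((hasSum_pow_exp z).summable.mul_left e)
  have hf : (fun k : ℕ => z ^ k / (k.factorial : ℝ) * (c * k + e)) =
      fun k : ℕ => c * (z ^ k / (k.factorial : ℝ) * k) + e * (z ^ k / (k.factorial : ℝ)) := by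
    funext k; ring
  rw [hf]; exact h

/-- term by term differentiation -/
theorem hasDerivAt_series {V lam M : ℝ} (hV : 0 ≤ V) (hl : 0 < lam) {a : ℕ → ℝ}
    (ha : ∀ k, |a k| ≤ M) :
    HasDerivAt (fun y => ∑' k, pwt V y k * a k)
      (∑' k, pwt V lam k * ((k : ℝ) / lam - V) * a k) lam := by
  have hM : 0 ≤ M := (abs_nonneg _).trans (ha 0)
  have hmem : lam ∈ Set.Ioo (lam / 2) (2 * lam) := ⟨by linarith, by linarith⟩
  apply hasDerivAt_tsum_of_isPreconnected
    (u := fun k : ℕ => (2 * lam * V) ^ k / (k.factorial : ℝ) * (2 * M / lam * k + V * M))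
    (t := Set.Ioo (lam / 2) (2 * lam)) (y₀ := lam)
    (g' := fun (k : ℕ) (y : ℝ) => pwt V y k * ((k : ℝ) / y - V) * a k)
  · exact summable_pow_fact_mul _ _ _
  · exact isOpen_Ioo
  · exact isPreconnected_Ioo
  · intro k y hy
    have hy0 : 0 < y := by linarith [hy.1]
    exact (hasDerivAt_pwt hy0 k).mul_const (a k)
  · intro k y hy
    have hy0 : 0 < y := by linarith [hy.1]
    rw [Real.norm_eq_abs, abs_mul, abs_mul, abs_of_nonneg (pwt_nonneg hV hy0.le k)]
    have h1 : pwt V y k ≤ (2 * lam * V) ^ k / (k.factorial : ℝ) := by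
      unfold pwt
      have h2 : Real.exp (-(y * V)) ≤ 1 := Real.exp_le_one_iff.mpr (by
        have : 0 ≤ y * V := by positivity
        linarith)
      have h3 : (y * V) ^ k ≤ (2 * lam * V) ^ k := by
        apply pow_le_pow_left₀ (by positivity)
        exact mul_le_mul_of_nonneg_right hy.2.le hV
      gcongr
      calc Real.exp (-(y * V)) * (y * V) ^ k ≤ 1 * (2 * lam * V) ^ k := by gcongr
        _ = _ := one_mul _
    have h4 : |(k : ℝ) / y - V| ≤ 2 / lam * k + V := by
      have h5 : (k : ℝ) / y ≤ 2 / lam * k := by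
        rw [div_mul_eq_mul_div, div_le_div_iff₀ hy0 hl]
        have := hy.1
        have hk : (0:ℝ) ≤ k := Nat.cast_nonneg k
        nlinarith
      have h6 : 0 ≤ (k : ℝ) / y := by positivity
      rw [abs_le]
      constructor <;> linarith
    calc pwt V y k * |(k : ℝ) / y - V| * |a k| ≤
        (2 * lam * V) ^ k / (k.factorial : ℝ) * (2 / lam * k + V) * M := by
          have h7 := ha k
          have h8 := pwt_nonneg hV hy0.le k
          gcongr
      _ = (2 * lam * V) ^ k / (k.factorial : ℝ) * (2 * M / lam * k + V * M) := by ring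
  · exact hmem
  · have h := (summable_pow_fact_mul (lam * V) 0 M)
    apply Summable.of_norm_bounded h
    intro k
    rw [Real.norm_eq_abs, abs_mul, abs_of_nonneg (pwt_nonneg hV hl.le k)]
    have h2 : Real.exp (-(lam * V)) ≤ 1 := Real.exp_le_one_iff.mpr (by
        have : 0 ≤ lam * V := by positivity
        linarith)
    have h1 : pwt V lam k ≤ (lam * V) ^ k / (k.factorial : ℝ) := by
      unfold pwt
      gcongr
      calc Real.exp (-(lam * V)) * (lam * V) ^ k ≤ 1 * (lam * V) ^ k := by gcongr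
        _ = _ := one_mul _
    have h7 := ha k
    rw [zero_mul, zero_add]
    have h9 : 0 ≤ (lam * V) ^ k / (k.factorial : ℝ) := by positivity
    exact mul_le_mul h1 h7 (abs_nonneg _) h9
  · exact hmem

/-- bound of the derivative -/
theorem series_deriv_bound {V lam M θ : ℝ} (hV : 0 ≤ V) (hl : 0 < lam) (hθ : 0 < θ) {a : ℕ → ℝ}
    (ha : ∀ k, |a k| ≤ M) :
    |∑' k, pwt V lam k * ((k : ℝ) / lam - V) * a k| ≤
      θ / 2 * (V / lam) + 1 / (2 * θ) * ∑' k, pwt V lam k * (a k) ^ 2 := by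
  have hvar := (hasSum_var (V := V) hl).mul_left (θ / 2)
  have hsq : Summable (fun k : ℕ => pwt V lam k * (a k) ^ 2) := by
    have h := (hasSum_pwt_pow V lam 1).summable.mul_right (M ^ 2)
    apply Summable.of_nonneg_of_le _ _ h
    · intro k; exact mul_nonneg (pwt_nonneg hV hl.le k) (sq_nonneg _)
    · intro k
      rw [one_pow, mul_one]
      apply mul_le_mul_of_nonneg_left _ (pwt_nonneg hV hl.le k)
      rw [← sq_abs]
      exact pow_le_pow_left₀ (abs_nonneg _) (ha k) 2
  have hdom := hvar.summable.add (hsq.mul_left (1 / (2 * θ)))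
  have hterm : ∀ k : ℕ, ‖pwt V lam k * ((k : ℝ) / lam - V) * a k‖ ≤
      θ / 2 * (pwt V lam k * ((k : ℝ) / lam - V) ^ 2) + 1 / (2 * θ) * (pwt V lam k * (a k) ^ 2) := by
    intro k
    have hp := pwt_nonneg hV hl.le k
    rw [Real.norm_eq_abs, abs_mul, abs_mul, abs_of_nonneg hp]
    have h1 : |(k : ℝ) / lam - V| * |a k| ≤
        θ / 2 * ((k : ℝ) / lam - V) ^ 2 + 1 / (2 * θ) * (a k) ^ 2 := by
      have h2 := sq_nonneg (θ * |(k : ℝ) / lam - V| - |a k|)
      have e1 : ((k : ℝ) / lam - V) ^ 2 = |(k : ℝ) / lam - V| ^ 2 := (sq_abs _).symm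
      have e2 : (a k) ^ 2 = |a k| ^ 2 := (sq_abs _).symm
      rw [e1, e2]
      have h3 : θ / 2 * |(k : ℝ) / lam - V| ^ 2 + 1 / (2 * θ) * |a k| ^ 2 -
          |(k : ℝ) / lam - V| * |a k| = (θ * |(k : ℝ) / lam - V| - |a k|) ^ 2 / (2 * θ) := by
        field_simp; ring
      have h4 : 0 ≤ (θ * |(k : ℝ) / lam - V| - |a k|) ^ 2 / (2 * θ) := by positivity
      linarith
    have := mul_le_mul_of_nonneg_left h1 hp
    calc pwt V lam k * |(k : ℝ) / lam - V| * |a k| = pwt V lam k * (|(k : ℝ) / lam - V| * |a k|) := by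
          ring
      _ ≤ _ := this
      _ = _ := by ring
  have h5 := tsum_of_norm_bounded hdom.hasSum hterm
  rw [Real.norm_eq_abs] at h5
  refine h5.trans (le_of_eq ?_)
  rw [hvar.summable.tsum_add (hsq.mul_left _), hvar.tsum_eq, tsum_mul_left]

end Pool.Agent.Helper322.EFPP
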