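import Pool.Agent.Helper322.EFPP.Slopes

/-!
# Finite volume: the restricted Poisson process is a mixed binomial process
-/

namespace Pool.Agent.Helper322.EFPP

open MeasureTheory Set ProbabilityTheory Metric TopologicalSpace Filter Topology
open scoped ENNReal

variable {d : ℕ}

/-- restriction of a configuration -/
def restr (W : Set (Sp d)) (A : Config d) : Config d := (A.pts ∩ W : Set (Sp d))

theorem restr_meas {W : Set (Sp d)} (hW : MeasurableSet W) : Measurable (restr W) := by
  apply measurable_generateFrom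
  rintro _ ⟨B, hB, hv, rfl⟩
  have : restr W ⁻¹' voidEv B = voidEv (W ∩ B) := by
    ext A
    simp only [voidEv, restr, Config.pts, Set.mem_preimage, Set.mem_ofPred_eq, Set.inter_assoc]
  rw [this]
  exact voidEv_meas (hW.inter hB) ((measure_mono Set.inter_subset_right).trans_lt
    (lt_top_iff_ne_top.mpr hv)).ne

/-- void probabilities of a Poisson process of intensity `lam` -/
def IsVoid {Ω : Type*} [MeasurableSpace Ω] (P : Measure Ω) (Q : Ω → Set (Sp d)) (lam : ℝ) : Prop :=
  ∀ B : Set (Sp d), MeasurableSet B → volume B ≠ ⊤ → MeasurableSet {ω | Q ω ∩ B = ∅} ∧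
    P {ω | Q ω ∩ B = ∅} = ENNReal.ofReal (Real.exp (-(lam * (volume B).toReal)))

theorem IsVoid.toConfig_meas {Ω : Type*} [MeasurableSpace Ω] {P : Measure Ω}
    {Q : Ω → Set (Sp d)} {lam : ℝ} (h : IsVoid P Q lam) : Measurable (toConfig Q) := by
  apply measurable_generateFrom
  rintro _ ⟨B, hB, hv, rfl⟩
  exact (h B hB hv).1

/-- uniform law on a window -/
noncomputable def uW (W : Set (Sp d)) : Measure (Sp d) := (volume W)⁻¹ • volume.restrict W

theorem uW_prob {W : Set (Sp d)} (h0 : volume W ≠ 0) (h1 : volume W ≠ ⊤) :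
    IsProbabilityMeasure (uW W) := by
  constructor
  unfold uW
  simp only [Measure.smul_apply, Measure.restrict_apply_univ, smul_eq_mul]
  exact ENNReal.inv_mul_cancel h0 h1

theorem range_meas (k : ℕ) :
    Measurable (fun x : Fin k → Sp d => (show Config d from Set.range x)) := by
  apply measurable_generateFrom
  rintro _ ⟨B, hB, -, rfl⟩
  have : (fun x : Fin k → Sp d => (show Config d from Set.range x)) ⁻¹' voidEv B =
      Set.pi Set.univ (fun _ => Bᶜ) := by
    ext x
    simp only [voidEv, Config.pts, Set.mem_preimage, Set.mem_ofPred_eq, Set.mem_pi, Set.mem_univ,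
      true_implies, Set.eq_empty_iff_forall_notMem, Set.mem_inter_iff, Set.mem_range,
      Set.mem_compl_iff]
    constructor
    · intro h i hi
      exact h (x i) ⟨⟨i, rfl⟩, hi⟩
    · rintro h y ⟨⟨i, rfl⟩, hy⟩
      exact h i hy
  rw [this]
  exact MeasurableSet.univ_pi fun _ => hB.compl

/-- law of `k` independent uniform points -/
noncomputable def nuK (W : Set (Sp d)) (k : ℕ) : Measure (Config d) :=
  (Measure.pi (fun _ : Fin k => uW W)).map (fun x => (show Config d from Set.range x))

theorem nuK_prob {W : Set (Sp d)} (h0 : volume W ≠ 0) (h1 : volume W ≠ ⊤) (k : ℕ) :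
    IsProbabilityMeasure (nuK W k) := by
  have := uW_prob h0 h1
  exact Measure.isProbabilityMeasure_map (range_meas k).aemeasurable

theorem uW_compl {W : Set (Sp d)} (hW : MeasurableSet W) (h0 : volume W ≠ 0) (h1 : volume W ≠ ⊤)
    {B : Set (Sp d)} (hB : MeasurableSet B) :
    uW W Bᶜ = ENNReal.ofReal (1 - (volume (W ∩ B)).toReal / (volume W).toReal) := by
  have hp := uW_prob h0 h1
  rw [prob_compl_eq_one_sub hB]
  have hfin : volume (W ∩ B) ≠ ⊤ := ((measure_mono Set.inter_subset_left).trans_lt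
    (lt_top_iff_ne_top.mpr h1)).ne
  have hV : 0 < (volume W).toReal := ENNReal.toReal_pos h0 h1
  have : uW W B = ENNReal.ofReal ((volume (W ∩ B)).toReal / (volume W).toReal) := by
    unfold uW
    rw [Measure.smul_apply, Measure.restrict_apply hB, smul_eq_mul, Set.inter_comm,
      ENNReal.ofReal_div_of_pos hV, ENNReal.ofReal_toReal hfin, ENNReal.ofReal_toReal h1,
      mul_comm, div_eq_mul_inv]
  rw [this, ENNReal.ofReal_sub _ (by positivity), ENNReal.ofReal_one]

theorem nuK_void {W : Set (Sp d)} (hW : MeasurableSet W) (h0 : volume W ≠ 0)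
    (h1 : volume W ≠ ⊤) {B : Set (Sp d)} (hB : MeasurableSet B) (hv : volume B ≠ ⊤) (k : ℕ) :
    nuK W k (voidEv B) =
      ENNReal.ofReal ((1 - (volume (W ∩ B)).toReal / (volume W).toReal) ^ k) := by
  have hp := uW_prob h0 h1
  unfold nuK
  rw [Measure.map_apply (range_meas k) (voidEv_meas hB hv)]
  have : (fun x : Fin k → Sp d => (show Config d from Set.range x)) ⁻¹' voidEv B =
      Set.pi Set.univ (fun _ => Bᶜ) := by
    ext x
    simp only [voidEv, Config.pts, Set.mem_preimage, Set.mem_ofPred_eq, Set.mem_pi, Set.mem_univ,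
      true_implies, Set.eq_empty_iff_forall_notMem, Set.mem_inter_iff, Set.mem_range,
      Set.mem_compl_iff]
    constructor
    · intro h i hi
      exact h (x i) ⟨⟨i, rfl⟩, hi⟩
    · rintro h y ⟨⟨i, rfl⟩, hy⟩
      exact h i hy
  have hle : (volume (W ∩ B)).toReal ≤ (volume W).toReal :=
    ENNReal.toReal_mono h1 (measure_mono Set.inter_subset_left)
  have hV : 0 < (volume W).toReal := ENNReal.toReal_pos h0 h1
  rw [this, Measure.pi_pi]
  simp only [Finset.prod_const, Finset.card_univ, Fintype.card_fin]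
  rw [uW_compl hW h0 h1 hB, ENNReal.ofReal_pow]
  rw [sub_nonneg, div_le_one hV]
  exact hle

/-- Poisson weights -/
noncomputable def pwt (V lam : ℝ) (k : ℕ) : ℝ := Real.exp (-(lam * V)) * (lam * V) ^ k / k.factorial

theorem pwt_nonneg {V lam : ℝ} (hV : 0 ≤ V) (hl : 0 ≤ lam) (k : ℕ) : 0 ≤ pwt V lam k := by
  unfold pwt; positivity

theorem hasSum_pow_exp (z : ℝ) : HasSum (fun k : ℕ => z ^ k / (k.factorial : ℝ)) (Real.exp z) := by
  have := NormedSpace.expSeries_div_hasSum_exp (𝔸 := ℝ) z
  rwa [← Real.exp_eq_exp_ℝ] at this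

theorem hasSum_pwt_pow (V lam a : ℝ) :
    HasSum (fun k : ℕ => pwt V lam k * a ^ k) (Real.exp (-(lam * V)) * Real.exp (lam * V * a)) := by
  have h := (hasSum_pow_exp (lam * V * a)).mul_left (Real.exp (-(lam * V)))
  have e : (fun k : ℕ => pwt V lam k * a ^ k) =
      fun k : ℕ => Real.exp (-(lam * V)) * ((lam * V * a) ^ k / (k.factorial : ℝ)) := by
    funext k
    unfold pwt
    rw [mul_pow]; ring
  rw [e]; exact h

/-- mixed binomial law -/
noncomputable def mixL (W : Set (Sp d)) (lam : ℝ) : Measure (Config d) :=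
  Measure.sum (fun k => ENNReal.ofReal (pwt (volume W).toReal lam k) • nuK W k)

theorem mixL_void {W : Set (Sp d)} (hW : MeasurableSet W) (h0 : volume W ≠ 0)
    (h1 : volume W ≠ ⊤) {lam : ℝ} (hl : 0 ≤ lam)
    {B : Set (Sp d)} (hB : MeasurableSet B) (hv : volume B ≠ ⊤) :
    mixL W lam (voidEv B) = ENNReal.ofReal (Real.exp (-(lam * (volume (W ∩ B)).toReal))) := by
  have hV : 0 < (volume W).toReal := ENNReal.toReal_pos h0 h1
  have hle : (volume (W ∩ B)).toReal ≤ (volume W).toReal :=
    ENNReal.toReal_mono h1 (measure_mono Set.inter_subset_left)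
  have hfrac : 0 ≤ 1 - (volume (W ∩ B)).toReal / (volume W).toReal := by
    rw [sub_nonneg, div_le_one hV]
    exact hle
  unfold mixL
  rw [Measure.sum_apply _ (voidEv_meas hB hv)]
  have hs := hasSum_pwt_pow (volume W).toReal lam (1 - (volume (W ∩ B)).toReal / (volume W).toReal)
  have : ∀ k, (ENNReal.ofReal (pwt (volume W).toReal lam k) • nuK W k) (voidEv B) =
      ENNReal.ofReal (pwt (volume W).toReal lam k *
        (1 - (volume (W ∩ B)).toReal / (volume W).toReal) ^ k) := by
    intro k
    rw [Measure.smul_apply, nuK_void hW h0 h1 hB hv, smul_eq_mul,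
      ENNReal.ofReal_mul (pwt_nonneg hV.le hl k)]
  simp_rw [this]
  rw [← ENNReal.ofReal_tsum_of_nonneg
    (fun k => mul_nonneg (pwt_nonneg hV.le hl k) (pow_nonneg hfrac k)) hs.summable, hs.tsum_eq,
    ← Real.exp_add]
  congr 2
  field_simp
  ring

theorem mixL_prob {W : Set (Sp d)} (hW : MeasurableSet W) (h0 : volume W ≠ 0)
    (h1 : volume W ≠ ⊤) {lam : ℝ} (hl : 0 ≤ lam) : IsProbabilityMeasure (mixL W lam) := by
  constructor
  have h := mixL_void hW h0 h1 hl (B := ∅) MeasurableSet.empty (by simp)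
  have h2 : voidEv (∅ : Set (Sp d)) = Set.univ := by
    ext A; simp [voidEv]
  rw [h2] at h
  rw [h]; simp

theorem law_restr {Ω : Type*} [MeasurableSpace Ω] {P : Measure Ω} [IsProbabilityMeasure P]
    {Q : Ω → Set (Sp d)} {lam : ℝ} (hl : 0 ≤ lam) (hQ : IsVoid P Q lam)
    {W : Set (Sp d)} (hW : MeasurableSet W) (h0 : volume W ≠ 0) (h1 : volume W ≠ ⊤) :
    P.map (fun ω => restr W (toConfig Q ω)) = mixL W lam := by
  have m : Measurable (fun ω => restr W (toConfig Q ω)) := (restr_meas hW).comp hQ.toConfig_meas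
  have i1 : IsProbabilityMeasure (P.map (fun ω => restr W (toConfig Q ω))) :=
    Measure.isProbabilityMeasure_map m.aemeasurable
  have i2 := mixL_prob hW h0 h1 hl
  apply ext_of_generate_finite (voidSys d) rfl (voidSys_pi d)
  · rintro _ ⟨B, hB, hv, rfl⟩
    rw [Measure.map_apply m (voidEv_meas hB hv), mixL_void hW h0 h1 hl hB hv]
    have hv' : volume (W ∩ B) ≠ ⊤ := ((measure_mono Set.inter_subset_left).trans_lt
      (lt_top_iff_ne_top.mpr h1)).ne
    have := (hQ (W ∩ B) (hW.inter hB) hv').2
    rw [← this]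
    congr 1
    ext ω
    simp only [voidEv, restr, toConfig, Config.pts, Set.mem_preimage, Set.mem_ofPred_eq,
      Set.inter_assoc]
  · simp

/-- coefficients of the series -/
noncomputable def coef (W : Set (Sp d)) (F : Config d → ℝ) (k : ℕ) : ℝ := ∫ A, F A ∂(nuK W k)

theorem coef_bound {W : Set (Sp d)} (h0 : volume W ≠ 0) (h1 : volume W ≠ ⊤)
    {F : Config d → ℝ} {M : ℝ} (hM : ∀ A, |F A| ≤ M) (k : ℕ) : |coef W F k| ≤ M := by
  have := nuK_prob h0 h1 k
  unfold coef
  have h := norm_integral_le_of_norm_le_const (μ := nuK W k) (f := F) (C := M)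
    (Filter.Eventually.of_forall fun A => by rw [Real.norm_eq_abs]; exact hM A)
  simpa using h

theorem expect_series {Ω : Type*} [MeasurableSpace Ω] {P : Measure Ω} [IsProbabilityMeasure P]
    {Q : Ω → Set (Sp d)} {lam : ℝ} (hl : 0 ≤ lam) (hQ : IsVoid P Q lam)
    {W : Set (Sp d)} (hW : MeasurableSet W) (h0 : volume W ≠ 0) (h1 : volume W ≠ ⊤)
    {F : Config d → ℝ} (hF : Measurable F) {M : ℝ} (hM : ∀ A, |F A| ≤ M)
    (hFW : ∀ A, F (restr W A) = F A) :
    HasSum (fun k => pwt (volume W).toReal lam k * coef W F k) (∫ ω, F (toConfig Q ω) ∂P) := by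
  have m : Measurable (fun ω => restr W (toConfig Q ω)) := (restr_meas hW).comp hQ.toConfig_meas
  have hV : 0 ≤ (volume W).toReal := ENNReal.toReal_nonneg
  have e1 : ∫ ω, F (toConfig Q ω) ∂P = ∫ A, F A ∂(mixL W lam) := by
    rw [← law_restr hl hQ hW h0 h1, integral_map m.aemeasurable hF.aestronglyMeasurable]
    apply integral_congr_ae
    filter_upwards with ω
    rw [hFW]
  rw [e1]
  have i2 := mixL_prob hW h0 h1 hl
  have hint : Integrable F (mixL W lam) := by
    apply Integrable.of_bound hF.aestronglyMeasurable M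
    filter_upwards with A
    rw [Real.norm_eq_abs]; exact hM A
  unfold mixL at hint ⊢
  have h2 := hasSum_integral_measure hint
  have e : (fun k => pwt (volume W).toReal lam k * coef W F k) =
      fun k => ∫ A, F A ∂(ENNReal.ofReal (pwt (volume W).toReal lam k) • nuK W k) := by
    funext k
    rw [integral_smul_measure, ENNReal.toReal_ofReal (pwt_nonneg hV hl k)]
    rfl
  rw [e]; exact h2

end Pool.Agent.Helper322.EFPP
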