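import Pool.Agent.Helper322.EFPP.Const

/-!
# Truncated local passage times, and differentiability in the intensity
-/

namespace Pool.Agent.Helper322.EFPP

open MeasureTheory Set ProbabilityTheory Metric TopologicalSpace Filter Topology
open scoped ENNReal

variable {d : ℕ}

/-- truncated passage time in a ball -/
noncomputable def FR (α : ℝ) (y : Sp d) (R : ℝ) (A : Config d) : ℝ :=
  min ((TT α 0 y (restr (ball 0 R) A)).toReal) R

theorem FR_meas (α : ℝ) (y : Sp d) (R : ℝ) : Measurable (FR α y R) :=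
  ((TT_meas α 0 y).comp (restr_meas measurableSet_ball)).ennreal_toReal.min measurable_const

theorem FR_nonneg (α : ℝ) (y : Sp d) {R : ℝ} (hR : 0 ≤ R) (A : Config d) : 0 ≤ FR α y R A :=
  le_min ENNReal.toReal_nonneg hR

theorem FR_le (α : ℝ) (y : Sp d) (R : ℝ) (A : Config d) : FR α y R A ≤ R := min_le_right _ _

theorem restr_restr {W W' : Set (Sp d)} (h : W ⊆ W') (A : Config d) :
    restr W (restr W' A) = restr W A := by
  unfold restr Config.pts
  rw [Set.inter_assoc, Set.inter_eq_right.mpr h]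

theorem FR_restr (α : ℝ) (y : Sp d) {R R' : ℝ} (h : R ≤ R') (A : Config d) :
    FR α y R (restr (ball 0 R') A) = FR α y R A := by
  unfold FR
  rw [restr_restr (ball_subset_ball h)]

theorem scl_inter_ball {A : Set (Sp d)} {c : ℝ} (hc : 0 < c) (r : ℝ) :
    (scl c hc.ne' '' A) ∩ ball (0 : Sp d) r = scl c hc.ne' '' (A ∩ ball (0 : Sp d) (r / c)) := by
  ext z
  constructor
  · rintro ⟨⟨a, ha, rfl⟩, hz⟩
    refine ⟨a, ⟨ha, ?_⟩, rfl⟩
    rw [mem_ball, dist_zero_right, scl_apply, norm_smul, Real.norm_of_nonneg hc.le] at hz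
    rw [mem_ball, dist_zero_right, lt_div_iff₀ hc]
    linarith
  · rintro ⟨a, ⟨ha, hz⟩, rfl⟩
    refine ⟨⟨a, ha, rfl⟩, ?_⟩
    rw [mem_ball, dist_zero_right, lt_div_iff₀ hc] at hz
    rw [mem_ball, dist_zero_right, scl_apply, norm_smul, Real.norm_of_nonneg hc.le]
    linarith

theorem scl_zero {c : ℝ} (hc : 0 < c) : scl (d := d) c hc.ne' 0 = 0 := by
  rw [scl_apply, smul_zero]

theorem FR_eq {α : ℝ} (hα : 0 < α) {A : Set (Sp d)} {c : ℝ} (hc : 0 < c) (hc2 : c ≤ 2) {x : Sp d}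
    {R : ℝ} (hA : Good A) (h0 : UniqueAt A 0) (hx : UniqueAt A x)
    (hloc : ∀ W : Set (Sp d), ball (0 : Sp d) (R / 2) ⊆ W →
      Good (A ∩ W) ∧ UniqueAt (A ∩ W) 0 ∧ UniqueAt (A ∩ W) x ∧
      passageTime α (A ∩ W) 0 x = passageTime α A 0 x ∧
      2 ^ α * passageTime α A 0 x ≤ R) {R' : ℝ} (hR0 : 0 ≤ R) (hR : R ≤ R') :
    FR α (scl c hc.ne' x) R' (show Config d from (scl c hc.ne' '' A)) =
      passageTime α (scl c hc.ne' '' A) 0 (scl c hc.ne' x) := by
  have hW : ball (0 : Sp d) (R / 2) ⊆ ball (0 : Sp d) (R' / c) := by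
    apply ball_subset_ball
    rw [div_le_div_iff₀ (by norm_num) hc]
    calc R * c ≤ R * 2 := mul_le_mul_of_nonneg_left hc2 hR0
      _ ≤ R' * 2 := by linarith
  obtain ⟨a1, a2, a3, a4, a5⟩ := hloc _ hW
  have e1 : restr (ball 0 R') (show Config d from (scl c hc.ne' '' A)) =
      (show Config d from (scl c hc.ne' '' (A ∩ ball (0 : Sp d) (R' / c)))) := by
    show ((scl c hc.ne' '' A) ∩ ball (0 : Sp d) R' : Set (Sp d)) = _
    exact scl_inter_ball hc R'
  have e2 : passageTime α (scl c hc.ne' '' A) 0 (scl c hc.ne' x) =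
      c ^ α * passageTime α A 0 x := by
    have := passageTime_scl (α := α) hA hc h0 hx
    rwa [scl_zero hc] at this
  have e3 : passageTime α (scl c hc.ne' '' (A ∩ ball (0 : Sp d) (R' / c))) 0 (scl c hc.ne' x) =
      c ^ α * passageTime α A 0 x := by
    have := passageTime_scl (α := α) a1 hc a2 a3
    rwa [scl_zero hc, a4] at this
  have u0 : UniqueAt (scl c hc.ne' '' (A ∩ ball (0 : Sp d) (R' / c))) 0 := by
    have := unique_scl hc a2
    rwa [scl_zero hc] at this
  have hTT := TT_eq hα (good_scl a1 hc) u0 (unique_scl hc a3)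
  unfold FR
  rw [e1, hTT, e3, ENNReal.toReal_ofReal (mul_nonneg (by positivity) (passageTime_nonneg _ _ _)),
    e2]
  apply min_eq_left
  refine le_trans ?_ (a5.trans hR)
  exact mul_le_mul_of_nonneg_right (Real.rpow_le_rpow hc.le hc2 hα.le) (passageTime_nonneg _ _ _)

/-- the scaling factor -/
noncomputable def cl (d : ℕ) (lam : ℝ) : ℝ := lam ^ (-(1 / (d : ℝ)))

theorem cl_pos (d : ℕ) {lam : ℝ} (hl : 0 < lam) : 0 < cl d lam := Real.rpow_pos_of_pos hl _

theorem cl_pow (d : ℕ) [NeZero d] {lam : ℝ} (hl : 0 < lam) : ((cl d lam) ^ d)⁻¹ = lam := by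
  have hd : (d : ℝ) ≠ 0 := by exact_mod_cast (NeZero.ne d)
  unfold cl
  rw [← Real.rpow_natCast, ← Real.rpow_mul hl.le, show -(1 / (d:ℝ)) * d = -1 by field_simp,
    Real.rpow_neg_one, inv_inv]

theorem cl_le (d : ℕ) [NeZero d] {lam : ℝ} (hl : lam ∈ Set.Ioo (1 / 2 : ℝ) 2) :
    cl d lam ≤ 2 := by
  have hd : (1:ℝ) ≤ d := by exact_mod_cast NeZero.one_le
  have h0 : (1:ℝ) / d ≤ 1 := by rw [div_le_one (by linarith)]; exact hd
  unfold cl
  calc lam ^ (-(1 / (d:ℝ))) ≤ (1 / 2 : ℝ) ^ (-(1 / (d:ℝ))) :=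
        Real.rpow_le_rpow_of_nonpos (by norm_num) hl.1.le (by
          have : 0 ≤ 1 / (d:ℝ) := by positivity
          linarith)
    _ ≤ (1 / 2 : ℝ) ^ (-1 : ℝ) :=
        Real.rpow_le_rpow_of_exponent_ge (by norm_num) (by norm_num) (by linarith)
    _ = 2 := by rw [Real.rpow_neg_one]; norm_num

theorem le_cl (d : ℕ) [NeZero d] {lam : ℝ} (hl : lam ∈ Set.Ioo (1 / 2 : ℝ) 2) :
    1 / 2 ≤ cl d lam := by
  have hd : (1:ℝ) ≤ d := by exact_mod_cast NeZero.one_le
  have h0 : (1:ℝ) / d ≤ 1 := by rw [div_le_one (by linarith)]; exact hd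
  unfold cl
  calc (1 / 2 : ℝ) = (2 : ℝ) ^ (-1 : ℝ) := by rw [Real.rpow_neg_one]; norm_num
    _ ≤ (2 : ℝ) ^ (-(1 / (d:ℝ))) :=
        Real.rpow_le_rpow_of_exponent_le (by norm_num) (by linarith)
    _ ≤ lam ^ (-(1 / (d:ℝ))) :=
        Real.rpow_le_rpow_of_nonpos (by linarith [hl.1]) hl.2.le (by
          have : 0 ≤ 1 / (d:ℝ) := by positivity
          linarith)

/-- the process of intensity `lam` -/
noncomputable def QL {Ω : Type*} (Q : Ω → Set (Sp d)) (lam : ℝ) (ω : Ω) : Set (Sp d) :=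
  (fun v : Sp d => cl d lam • v) '' (Q ω)

theorem QL_eq {Ω : Type*} (Q : Ω → Set (Sp d)) {lam : ℝ} (hl : 0 < lam) (ω : Ω) :
    QL Q lam ω = scl (cl d lam) (cl_pos d hl).ne' '' (Q ω) := rfl

variable {Ω : Type*} [MeasurableSpace Ω] {P : Measure Ω} {Q : Ω → Set (Sp d)}

theorem isVoid_QL [NeZero d] (hQ : IsPoissonProcess P Q) {lam : ℝ} (hl : 0 < lam) :
    IsVoid P (QL Q lam) lam := by
  have := isVoid_scl hQ (cl_pos d hl)
  rw [cl_pow d hl] at this
  exact this

theorem int_abs_le [IsProbabilityMeasure P] {B : Set Ω} {H : Ω → ℝ} {M p : ℝ}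
    (hH : Measurable H) (hM : ∀ ω, |H ω| ≤ M) (hB : ∀ᵐ ω ∂P, ω ∉ B → H ω = 0)
    (hp : P B ≤ ENNReal.ofReal p) (hp0 : 0 ≤ p) : ∫ ω, |H ω| ∂P ≤ M * p := by
  have hM0 : 0 ≤ M := by
    have : Nonempty Ω := P.nonempty_of_neZero
    obtain ⟨ω⟩ := this
    exact (abs_nonneg _).trans (hM ω)
  have hm := measurableSet_toMeasurable P B
  have hint : Integrable (fun ω => |H ω|) P := by
    apply Integrable.of_bound (C := M)
    · exact (by simpa [Real.norm_eq_abs] using hH.norm : Measurable fun ω => |H ω|).aestronglyMeasurable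
    · filter_upwards with ω
      rw [Real.norm_eq_abs, abs_abs]; exact hM ω
  have hint2 : Integrable ((toMeasurable P B).indicator (fun _ => M)) P :=
    (integrable_const M).indicator hm
  calc ∫ ω, |H ω| ∂P ≤ ∫ ω, (toMeasurable P B).indicator (fun _ => M) ω ∂P := by
        apply integral_mono_ae hint hint2
        filter_upwards [hB] with ω hω
        by_cases h : ω ∈ B
        · rw [Set.indicator_of_mem (subset_toMeasurable P B h)]; exact hM ω
        · rw [hω h, abs_zero]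
          exact Set.indicator_nonneg (fun _ _ => hM0) ω
    _ = P.real (toMeasurable P B) * M := by
        rw [integral_indicator_const _ hm, smul_eq_mul]
    _ ≤ p * M := by
        apply mul_le_mul_of_nonneg_right _ hM0
        rw [measureReal_def, measure_toMeasurable]
        exact ENNReal.toReal_le_of_le_ofReal hp0 hp
    _ = M * p := mul_comm _ _

end Pool.Agent.Helper322.EFPP
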