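import Pool.Agent.Helper322.EFPP.Moments

/-!
# The semiconcavity inequality for the mean passage time
-/

namespace Pool.Agent.Helper322.EFPP

open MeasureTheory Set ProbabilityTheory Metric TopologicalSpace
open scoped ENNReal

variable {d : ℕ}

/-- pathwise comparison of the stretched passage time and the stretched cost -/
theorem stretched_compare {i j : Fin d} (hij : i ≠ j) {α s : ℝ} (hα : 0 < α)
    (hs : 0 ≤ s) {A : Set (Sp d)} (hA : Good A) (x y : Sp d) :
    |passageTime α (stretch hij s '' A) (stretch hij s x) (stretch hij s y) -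
      DD (cs i j α s) A (closest A x) (closest A y)| ≤ errT hij α s A x + errT hij α s A y := by
  have hA' := good_stretch hA hij hs
  have hm : DD (fun v : Sp d => ‖v‖ ^ α) (stretch hij s '' A) (stretch hij s (closest A x))
      (stretch hij s (closest A y)) = DD (cs i j α s) A (closest A x) (closest A y) := by
    apply DD_map
    intro a b
    unfold cs
    rw [stretch_apply, stretch_apply, ← map_sub]
  have hq := (hA.closest_spec x).1
  have hr := (hA.closest_spec y).1
  have hq' := (hA'.closest_spec (stretch hij s x)).1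
  have hr' := (hA'.closest_spec (stretch hij s y)).1
  have hcn : ∀ v : Sp d, 0 ≤ (fun v : Sp d => ‖v‖ ^ α) v := fun v => by positivity
  have hcs : ∀ v : Sp d, (fun v : Sp d => ‖v‖ ^ α) (-v) = (fun v : Sp d => ‖v‖ ^ α) v :=
    fun v => by simp only [norm_neg]
  have h1 := DD_change_endpoints hcn hcs (A := stretch hij s '' A)
    (q := stretch hij s (closest A x)) (r := stretch hij s (closest A y))
    ⟨_, hq, rfl⟩ ⟨_, hr, rfl⟩ hq' hr'
  have h2 := DD_change_endpoints hcn hcs (A := stretch hij s '' A)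
    hq' hr' (q' := stretch hij s (closest A x)) (r' := stretch hij s (closest A y))
    ⟨_, hq, rfl⟩ ⟨_, hr, rfl⟩
  rw [hm] at h1 h2
  have e1 : ‖closest (stretch hij s '' A) (stretch hij s x) -
      stretch hij s (closest A x)‖ ^ α = errT hij α s A x := by
    unfold errT
    rw [norm_sub_rev]
  have e2 : ‖closest (stretch hij s '' A) (stretch hij s y) -
      stretch hij s (closest A y)‖ ^ α = errT hij α s A y := by
    unfold errT
    rw [norm_sub_rev]
  rw [e1, e2] at h2
  have e3 : ‖stretch hij s (closest A x) -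
      closest (stretch hij s '' A) (stretch hij s x)‖ ^ α = errT hij α s A x := rfl
  have e4 : ‖stretch hij s (closest A y) -
      closest (stretch hij s '' A) (stretch hij s y)‖ ^ α = errT hij α s A y := rfl
  rw [e3, e4] at h1
  have e5 : passageTime α (stretch hij s '' A) (stretch hij s x) (stretch hij s y) =
    DD (fun v : Sp d => ‖v‖ ^ α) (stretch hij s '' A)
      (closest (stretch hij s '' A) (stretch hij s x))
      (closest (stretch hij s '' A) (stretch hij s y)) := rfl
  rw [e5, abs_le]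
  constructor <;> linarith

/-- the semiconcavity inequality -/
theorem main_ineq (d : ℕ) [NeZero d] {i j : Fin d} (hij : i ≠ j) {α : ℝ} (hα : 0 < α) :
    ∃ C : ℝ, 0 < C ∧ ∀ {Ω : Type*} [MeasurableSpace Ω] (P : Measure Ω) [IsProbabilityMeasure P]
      (Q : Ω → Set (Sp d)), IsPoissonProcess P Q → ∀ (x y : Sp d) (h δ : ℝ), 0 < h → h ≤ δ →
      δ ≤ 1/2 → α * δ ≤ 1 →
    (1 - h/δ) * FF P Q α x y +
      (h/δ) * (FF P Q α (stretch hij δ x) (stretch hij δ y) - 2 * C * δ) ≤
      (1 + (6 * α + α ^ 2) * (h * δ)) *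
        (FF P Q α (stretch hij h x) (stretch hij h y) + 2 * C * h) := by
  obtain ⟨C, hC, herr⟩ := errT_real d hij hα
  refine ⟨C, hC, ?_⟩
  intro Ω _ P _ Q hQ x y h δ hh hδ hδ1 hαδ
  have hδ0 : 0 < δ := hh.trans_le hδ
  have hθ0 : 0 ≤ h / δ := by positivity
  have hθ1 : 0 ≤ 1 - h / δ := by
    have := (div_le_one hδ0).mpr hδ
    linarith
  have hK : 0 < 1 + (6 * α + α ^ 2) * (h * δ) := by positivity
  obtain ⟨X1, hX1, hX1b, hX1i, -⟩ := herr P Q hQ x h hh (by linarith)
  obtain ⟨Y1, hY1, hY1b, hY1i, -⟩ := herr P Q hQ y h hh (by linarith)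
  obtain ⟨X2, hX2, hX2b, hX2i, -⟩ := herr P Q hQ x δ hδ0 (by linarith)
  obtain ⟨Y2, hY2, hY2b, hY2i, -⟩ := herr P Q hQ y δ hδ0 (by linarith)
  -- the three passage times
  have I0 := passageTime_integrable hQ hα x y
  have Ih := passageTime_integrable (hQ.stretch hij h) hα (stretch hij h x) (stretch hij h y)
  have Iδ := passageTime_integrable (hQ.stretch hij δ) hα (stretch hij δ x) (stretch hij δ y)
  have hpath : ∀ᵐ ω ∂P, (1 - h/δ) * passageTime α (Q ω) x y + (h/δ) *
      (passageTime α (stretch hij δ '' (Q ω)) (stretch hij δ x) (stretch hij δ y) -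
        (X2 ω + Y2 ω)) ≤ (1 + (6 * α + α ^ 2) * (h * δ)) *
      (passageTime α (stretch hij h '' (Q ω)) (stretch hij h x) (stretch hij h y) +
        (X1 ω + Y1 ω)) := by
    filter_upwards [hQ.ae_good, hX1b, hY1b, hX2b, hY2b] with ω hA b1 b2 b3 b4
    have c1 := stretched_compare hij hα hh.le hA x y
    have c2 := stretched_compare hij hα hδ0.le hA x y
    have hq := (hA.closest_spec x).1
    have hr := (hA.closest_spec y).1
    have hsemi := DD_semiconc (c0 := cs i j α 0) (c1 := cs i j α δ) (c2 := cs i j α h)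
      (cs_nonneg i j α 0) (cs_nonneg i j α δ) hθ1 hθ0 hK
      (fun v => cs_semiconc i j hα hh hδ hδ1 hαδ v) hq hr
    have e0 : DD (cs i j α 0) (Q ω) (closest (Q ω) x) (closest (Q ω) y) =
        passageTime α (Q ω) x y := by
      have : cs i j α 0 = fun v : Sp d => ‖v‖ ^ α := by
        funext v; exact cs_at_zero i j α v
      rw [this]; rfl
    rw [e0] at hsemi
    rw [abs_le] at c1 c2
    have t1 : passageTime α (stretch hij δ '' (Q ω)) (stretch hij δ x) (stretch hij δ y) -
        (X2 ω + Y2 ω) ≤ DD (cs i j α δ) (Q ω) (closest (Q ω) x) (closest (Q ω) y) := by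
      linarith [c2.2]
    have t2 : DD (cs i j α h) (Q ω) (closest (Q ω) x) (closest (Q ω) y) ≤
        passageTime α (stretch hij h '' (Q ω)) (stretch hij h x) (stretch hij h y) +
        (X1 ω + Y1 ω) := by linarith [c1.1]
    have t3 := mul_le_mul_of_nonneg_left t1 hθ0
    have t4 := mul_le_mul_of_nonneg_left t2 hK.le
    linarith
  have hL : Integrable (fun ω => (1 - h/δ) * passageTime α (Q ω) x y + (h/δ) *
      (passageTime α (stretch hij δ '' (Q ω)) (stretch hij δ x) (stretch hij δ y) -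
        (X2 ω + Y2 ω))) P :=
    (I0.const_mul _).add ((Iδ.sub (hX2.add hY2)).const_mul _)
  have hR : Integrable (fun ω => (1 + (6 * α + α ^ 2) * (h * δ)) *
      (passageTime α (stretch hij h '' (Q ω)) (stretch hij h x) (stretch hij h y) +
        (X1 ω + Y1 ω))) P := (Ih.add (hX1.add hY1)).const_mul _
  have hmono := integral_mono_ae hL hR hpath
  have eL : ∫ ω, ((1 - h/δ) * passageTime α (Q ω) x y + (h/δ) *
      (passageTime α (stretch hij δ '' (Q ω)) (stretch hij δ x) (stretch hij δ y) -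
        (X2 ω + Y2 ω))) ∂P = (1 - h/δ) * FF P Q α x y + (h/δ) *
      (FF P Q α (stretch hij δ x) (stretch hij δ y) - ((∫ ω, X2 ω ∂P) + ∫ ω, Y2 ω ∂P)) := by
    have a1 : ∫ ω, ((1 - h/δ) * passageTime α (Q ω) x y + (h/δ) *
      (passageTime α (stretch hij δ '' (Q ω)) (stretch hij δ x) (stretch hij δ y) -
        (X2 ω + Y2 ω))) ∂P = (∫ ω, (1 - h/δ) * passageTime α (Q ω) x y ∂P) +
        ∫ ω, (h/δ) *
      (passageTime α (stretch hij δ '' (Q ω)) (stretch hij δ x) (stretch hij δ y) -
        (X2 ω + Y2 ω)) ∂P :=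
      integral_add (I0.const_mul _) ((Iδ.sub (hX2.add hY2)).const_mul _)
    have a2 : ∫ ω, (passageTime α (stretch hij δ '' (Q ω)) (stretch hij δ x) (stretch hij δ y) -
        (X2 ω + Y2 ω)) ∂P = (∫ ω, passageTime α (stretch hij δ '' (Q ω)) (stretch hij δ x)
          (stretch hij δ y) ∂P) - ∫ ω, (X2 ω + Y2 ω) ∂P :=
      integral_sub Iδ (hX2.add hY2)
    have a3 : ∫ ω, (X2 ω + Y2 ω) ∂P = (∫ ω, X2 ω ∂P) + ∫ ω, Y2 ω ∂P := integral_add hX2 hY2
    rw [a1, integral_const_mul, integral_const_mul, a2, a3, ← FF_stretch hQ hα hij δ x y]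
    rfl
  have eR : ∫ ω, ((1 + (6 * α + α ^ 2) * (h * δ)) *
      (passageTime α (stretch hij h '' (Q ω)) (stretch hij h x) (stretch hij h y) +
        (X1 ω + Y1 ω))) ∂P = (1 + (6 * α + α ^ 2) * (h * δ)) *
      (FF P Q α (stretch hij h x) (stretch hij h y) + ((∫ ω, X1 ω ∂P) + ∫ ω, Y1 ω ∂P)) := by
    have a2 : ∫ ω, (passageTime α (stretch hij h '' (Q ω)) (stretch hij h x) (stretch hij h y) +
        (X1 ω + Y1 ω)) ∂P = (∫ ω, passageTime α (stretch hij h '' (Q ω)) (stretch hij h x)
          (stretch hij h y) ∂P) + ∫ ω, (X1 ω + Y1 ω) ∂P :=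
      integral_add Ih (hX1.add hY1)
    have a3 : ∫ ω, (X1 ω + Y1 ω) ∂P = (∫ ω, X1 ω ∂P) + ∫ ω, Y1 ω ∂P := integral_add hX1 hY1
    rw [integral_const_mul, a2, a3, ← FF_stretch hQ hα hij h x y]
  rw [eL, eR] at hmono
  have u1 : (h/δ) * (FF P Q α (stretch hij δ x) (stretch hij δ y) - 2 * C * δ) ≤
      (h/δ) * (FF P Q α (stretch hij δ x) (stretch hij δ y) -
        ((∫ ω, X2 ω ∂P) + ∫ ω, Y2 ω ∂P)) := by
    apply mul_le_mul_of_nonneg_left _ hθ0
    linarith
  have u2 : (1 + (6 * α + α ^ 2) * (h * δ)) *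
      (FF P Q α (stretch hij h x) (stretch hij h y) + ((∫ ω, X1 ω ∂P) + ∫ ω, Y1 ω ∂P)) ≤
      (1 + (6 * α + α ^ 2) * (h * δ)) *
      (FF P Q α (stretch hij h x) (stretch hij h y) + 2 * C * h) := by
    apply mul_le_mul_of_nonneg_left _ hK.le
    linarith
  linarith

/-- the stretch map acts on the first axis by dilation -/
theorem stretch_e1 [NeZero d] {j : Fin d} (hj : (0 : Fin d) ≠ j) (s n : ℝ) :
    stretch hj s (n • e1 d) = (Real.exp s * n) • e1 d := by
  ext k
  rw [stretch_apply, stretchL_apply]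
  simp only [e1, PiLp.smul_apply, smul_eq_mul, PiLp.single_apply]
  by_cases hk : k = 0
  · subst hk
    simp [wt]
  · simp [hk]

theorem stretch_zero' {i j : Fin d} (hij : i ≠ j) (s : ℝ) : stretch hij s 0 = 0 := by
  rw [stretch_apply, map_zero]

end Pool.Agent.Helper322.EFPP
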