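import Pool.Agent.Helper322.EFPP.Closest

/-!
# Measurability of the passage time and invariance in law
-/

namespace Pool.Agent.Helper322.EFPP

open MeasureTheory Set ProbabilityTheory Metric TopologicalSpace
open scoped ENNReal

variable {d : ℕ}

/-- configurations, with the sigma-algebra generated by the void events -/
def Config (d : ℕ) : Type := Set (Sp d)

/-- the points of a configuration -/
def Config.pts (A : Config d) : Set (Sp d) := A

/-- void events -/
def voidEv (B : Set (Sp d)) : Set (Config d) := {A | A.pts ∩ B = ∅}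

/-- the generating pi-system -/
def voidSys (d : ℕ) : Set (Set (Config d)) :=
  {S | ∃ B : Set (Sp d), MeasurableSet B ∧ volume B ≠ ⊤ ∧ S = voidEv B}

instance : MeasurableSpace (Config d) := MeasurableSpace.generateFrom (voidSys d)

theorem voidSys_pi (d : ℕ) : IsPiSystem (voidSys d) := by
  rintro _ ⟨B, hB, hv, rfl⟩ _ ⟨B', hB', hv', rfl⟩ _
  refine ⟨B ∪ B', hB.union hB', ?_, ?_⟩
  · exact (measure_union_lt_top (lt_top_iff_ne_top.mpr hv) (lt_top_iff_ne_top.mpr hv')).ne
  · ext A
    simp only [voidEv, Set.mem_inter_iff, Set.mem_ofPred_eq, Set.inter_union_distrib_left,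
      Set.union_empty_iff]

theorem voidEv_meas {B : Set (Sp d)} (hB : MeasurableSet B) (hv : volume B ≠ ⊤) :
    MeasurableSet (voidEv B) :=
  MeasurableSpace.measurableSet_generateFrom ⟨B, hB, hv, rfl⟩

theorem hitEv_meas {B : Set (Sp d)} (hB : MeasurableSet B) (hv : volume B ≠ ⊤) :
    MeasurableSet {A : Config d | (A.pts ∩ B).Nonempty} := by
  have : {A : Config d | (A.pts ∩ B).Nonempty} = (voidEv B)ᶜ := by
    ext A; simp [voidEv, Set.nonempty_iff_ne_empty]
  rw [this]
  exact (voidEv_meas hB hv).compl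

variable {Ω : Type*} [MeasurableSpace Ω] {P : Measure Ω} {Q : Ω → Set (Sp d)}
variable {Ω' : Type*} [MeasurableSpace Ω'] {P' : Measure Ω'} {Q' : Ω' → Set (Sp d)}

/-- the random configuration -/
def toConfig (Q : Ω → Set (Sp d)) (ω : Ω) : Config d := Q ω

theorem toConfig_meas (hQ : IsPoissonProcess P Q) : Measurable (toConfig Q) := by
  apply measurable_generateFrom
  rintro _ ⟨B, hB, -, rfl⟩
  exact hQ.meas_void hB

theorem law_unique [IsProbabilityMeasure P] [IsProbabilityMeasure P']
    (hQ : IsPoissonProcess P Q) (hQ' : IsPoissonProcess P' Q') :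
    P.map (toConfig Q) = P'.map (toConfig Q') := by
  have m := toConfig_meas hQ
  have m' := toConfig_meas hQ'
  have : IsProbabilityMeasure (P.map (toConfig Q)) := Measure.isProbabilityMeasure_map m.aemeasurable
  have : IsProbabilityMeasure (P'.map (toConfig Q')) :=
    Measure.isProbabilityMeasure_map m'.aemeasurable
  apply ext_of_generate_finite (voidSys d) rfl (voidSys_pi d)
  · rintro _ ⟨B, hB, hv, rfl⟩
    rw [Measure.map_apply m (voidEv_meas hB hv), Measure.map_apply m' (voidEv_meas hB hv)]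
    have e1 : toConfig Q ⁻¹' voidEv B = {ω | Q ω ∩ B = ∅} := rfl
    have e2 : toConfig Q' ⁻¹' voidEv B = {ω | Q' ω ∩ B = ∅} := rfl
    rw [e1, e2, hQ.void_prob hB hv, hQ'.void_prob hB hv]
  · simp

/-- the closest particle to `x` belongs to `U` -/
def CX (x : Sp d) (U : Set (Sp d)) : Set (Config d) :=
  ⋃ r : ℚ, {A : Config d | (A.pts ∩ (U ∩ ball x (r : ℝ))).Nonempty} ∩
    voidEv (Uᶜ ∩ ball x (r : ℝ))

theorem CX_meas (x : Sp d) {U : Set (Sp d)} (hU : MeasurableSet U) : MeasurableSet (CX x U) := by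
  apply MeasurableSet.iUnion
  intro r
  have h1 : volume (U ∩ ball x (r : ℝ)) ≠ ⊤ :=
    ((measure_mono Set.inter_subset_right).trans_lt measure_ball_lt_top).ne
  have h2 : volume (Uᶜ ∩ ball x (r : ℝ)) ≠ ⊤ :=
    ((measure_mono Set.inter_subset_right).trans_lt measure_ball_lt_top).ne
  exact (hitEv_meas (hU.inter measurableSet_ball) h1).inter
    (voidEv_meas (hU.compl.inter measurableSet_ball) h2)

theorem closest_mem_of_CX {A : Set (Sp d)} (hA : Good A) {x : Sp d} {U : Set (Sp d)}
    (h : (show Config d from A) ∈ CX x U) : closest A x ∈ U := by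
  obtain ⟨r, ⟨a, haA, haU, har⟩, hv⟩ := Set.mem_iUnion.mp h
  have hc := hA.closest_spec x
  by_contra hcon
  have h1 : dist (closest A x) x < r := lt_of_le_of_lt (hc.2 a haA) (mem_ball.mp har)
  have h2 : closest A x ∈ A ∩ (Uᶜ ∩ ball x (r : ℝ)) := ⟨hc.1, hcon, mem_ball.mpr h1⟩
  have h3 : A ∩ (Uᶜ ∩ ball x (r : ℝ)) = ∅ := hv
  rw [h3] at h2
  exact h2

theorem CX_of_closest_mem {A : Set (Sp d)} (hA : Good A) {x : Sp d} (hx : UniqueAt A x)
    {U : Set (Sp d)} (h : closest A x ∈ U) : (show Config d from A) ∈ CX x U := by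
  have hc := hA.closest_spec x
  set q := closest A x with hq
  -- a gap above the minimal distance
  have hgap : ∃ R : ℝ, dist q x < R ∧ ∀ a ∈ A, a ≠ q → R ≤ dist a x := by
    by_cases hS : ((A ∩ closedBall x (dist q x + 1)) \ {q}).Nonempty
    · obtain ⟨b, hb, hmin⟩ := Set.exists_min_image ((A ∩ closedBall x (dist q x + 1)) \ {q})
        (fun a => dist a x) ((hA.locFin x _).subset Set.sdiff_subset) hS
      have hbq : dist q x < dist b x := by
        rcases (hc.2 b hb.1.1).lt_or_eq with h1 | h1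
        · exact h1
        · exfalso
          apply hb.2
          have : IsClosest A x b := ⟨hb.1.1, fun a ha => by rw [← h1]; exact hc.2 a ha⟩
          exact hx b q this hc
      refine ⟨dist b x, hbq, ?_⟩
      intro a ha hne
      by_cases h2 : dist a x ≤ dist q x + 1
      · exact hmin a ⟨⟨ha, mem_closedBall.mpr h2⟩, hne⟩
      · push Not at h2
        have h3 : dist b x ≤ dist q x + 1 := mem_closedBall.mp hb.1.2
        linarith
    · refine ⟨dist q x + 1, by linarith, ?_⟩
      intro a ha hne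
      by_contra hcon
      push Not at hcon
      exact hS ⟨a, ⟨ha, mem_closedBall.mpr hcon.le⟩, hne⟩
  obtain ⟨R, hR, hgap⟩ := hgap
  obtain ⟨r, hr1, hr2⟩ := exists_rat_btwn hR
  refine Set.mem_iUnion.mpr ⟨r, ⟨q, hc.1, h, mem_ball.mpr hr1⟩, ?_⟩
  change A ∩ (Uᶜ ∩ ball x (r : ℝ)) = ∅
  rw [Set.eq_empty_iff_forall_notMem]
  rintro a ⟨haA, haU, har⟩
  by_cases hne : a = q
  · exact haU (hne ▸ h)
  · have := hgap a haA hne
    rw [mem_ball] at har
    linarith

/-- cost of an approximate chain -/
noncomputable def apxCost (α : ℝ) (k : ℕ) (z : Fin (k + 1) → ℕ) (m : ℕ) : ℝ :=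
  ∑ i : Fin k, (‖denseSeq (Sp d) (z i.castSucc) - denseSeq (Sp d) (z i.succ)‖ +
    2 * (1 / ((m : ℝ) + 1))) ^ α

/-- the event `T(x, y) < t` in terms of hitting events -/
def GT (α : ℝ) (x y : Sp d) (t : ℝ) : Set (Config d) :=
  ⋃ (k : ℕ) (_ : 1 ≤ k) (z : Fin (k + 1) → ℕ) (m : ℕ) (_ : apxCost (d := d) α k z m < t),
    (⋂ i, {A : Config d | (A.pts ∩ ball (denseSeq (Sp d) (z i)) (1 / ((m : ℝ) + 1))).Nonempty}) ∩
    CX x (ball (denseSeq (Sp d) (z 0)) (1 / ((m : ℝ) + 1))) ∩
    CX y (ball (denseSeq (Sp d) (z (Fin.last k))) (1 / ((m : ℝ) + 1)))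

theorem GT_meas (α : ℝ) (x y : Sp d) (t : ℝ) : MeasurableSet (GT α x y t) := by
  unfold GT
  refine MeasurableSet.iUnion fun k => MeasurableSet.iUnion fun _ => MeasurableSet.iUnion fun z =>
    MeasurableSet.iUnion fun m => MeasurableSet.iUnion fun _ => ?_
  refine ((MeasurableSet.iInter fun i => ?_).inter (CX_meas x measurableSet_ball)).inter
    (CX_meas y measurableSet_ball)
  exact hitEv_meas measurableSet_ball measure_ball_lt_top.ne

theorem mem_GT_iff {α : ℝ} (hα : 0 < α) {A : Set (Sp d)} (hA : Good A) {x y : Sp d}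
    (hx : UniqueAt A x) (hy : UniqueAt A y) (t : ℝ) :
    (show Config d from A) ∈ GT α x y t ↔ passageTime α A x y < t := by
  have hcx := hA.closest_spec x
  have hcy := hA.closest_spec y
  constructor
  · intro h
    simp only [GT, Set.mem_iUnion] at h
    obtain ⟨k, hk, z, m, hcost, ⟨hhit, hX⟩, hY⟩ := h
    have hX' := closest_mem_of_CX hA hX
    have hY' := closest_mem_of_CX hA hY
    rw [Set.mem_iInter] at hhit
    choose a ha using hhit
    set ε : ℝ := 1 / ((m : ℝ) + 1) with hε
    -- the chain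
    let p : ℕ → Sp d := fun i => if i = 0 then closest A x else if h : i < k then
      a ⟨i, by omega⟩ else closest A y
    have hp : ∀ i (hi : i < k + 1), p i ∈ A ∧ p i ∈ ball (denseSeq (Sp d) (z ⟨i, hi⟩)) ε := by
      intro i hi
      by_cases h0 : i = 0
      · subst h0
        simp only [p, if_true]
        exact ⟨hcx.1, hX'⟩
      · by_cases h1 : i < k
        · simp only [p, h0, if_false, h1, dif_pos]
          exact ha ⟨i, hi⟩
        · have h2 : i = k := by omega
          subst h2
          simp only [p, h0, if_false, h1, dif_neg, not_false_eq_true]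
          exact ⟨hcy.1, hY'⟩
    have hk0 : ¬ (k = 0) := by omega
    have hle := DD_le_of_chain (c := fun v : Sp d => ‖v‖ ^ α) (A := A) (q := closest A x)
      (q' := closest A y) (fun v => by positivity) hk (p := p) (by simp [p])
      (by simp [p, hk0]) (fun i hi => (hp i (by omega)).1)
    refine lt_of_le_of_lt hle (lt_of_le_of_lt ?_ hcost)
    unfold costD apxCost
    rw [Finset.sum_range]
    apply Finset.sum_le_sum
    intro i _
    apply Real.rpow_le_rpow (norm_nonneg _) _ hα.le
    have h1 := (hp i (by omega)).2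
    have h2 := (hp (i + 1) (by omega)).2
    rw [mem_ball, dist_eq_norm] at h1 h2
    have e1 : (⟨(i : ℕ), by omega⟩ : Fin (k + 1)) = i.castSucc := rfl
    have e2 : (⟨(i : ℕ) + 1, by omega⟩ : Fin (k + 1)) = i.succ := rfl
    rw [e1] at h1
    rw [e2] at h2
    have h3 : p i - p (i + 1) = (p i - denseSeq (Sp d) (z i.castSucc)) +
        (denseSeq (Sp d) (z i.castSucc) - denseSeq (Sp d) (z i.succ)) -
        (p (i + 1) - denseSeq (Sp d) (z i.succ)) := by abel
    rw [h3]
    have h4 := norm_sub_le ((p i - denseSeq (Sp d) (z i.castSucc)) +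
        (denseSeq (Sp d) (z i.castSucc) - denseSeq (Sp d) (z i.succ)))
        (p (i + 1) - denseSeq (Sp d) (z i.succ))
    have h5 := norm_add_le (p i - denseSeq (Sp d) (z i.castSucc))
        (denseSeq (Sp d) (z i.castSucc) - denseSeq (Sp d) (z i.succ))
    linarith
  · intro h
    obtain ⟨k, hk, p, h0, h1, hpA, hcost⟩ := exists_chain_lt hcx.1 hcy.1
      (c := fun v : Sp d => ‖v‖ ^ α) h
    -- choose epsilon
    have hcont : Filter.Tendsto (fun m : ℕ => ∑ i ∈ Finset.range k,
        (‖p i - p (i + 1)‖ + 4 * (1 / ((m : ℝ) + 1))) ^ α) Filter.atTop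
        (nhds (∑ i ∈ Finset.range k, (‖p i - p (i + 1)‖ + 4 * 0) ^ α)) := by
      apply tendsto_finsetSum
      intro i _
      have h2 : Filter.Tendsto (fun m : ℕ => ‖p i - p (i + 1)‖ + 4 * (1 / ((m : ℝ) + 1)))
          Filter.atTop (nhds (‖p i - p (i + 1)‖ + 4 * 0)) :=
        (tendsto_one_div_add_atTop_nhds_zero_nat.const_mul 4).const_add _
      exact (Real.continuous_rpow_const hα.le).continuousAt.tendsto.comp h2
    have hlt : ∑ i ∈ Finset.range k, (‖p i - p (i + 1)‖ + 4 * 0) ^ α < t := by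
      simpa [costD] using hcost
    obtain ⟨m, hm⟩ := (hcont.eventually (gt_mem_nhds hlt)).exists
    set ε : ℝ := 1 / ((m : ℝ) + 1) with hε
    have hε0 : 0 < ε := by positivity
    have hden : ∀ i : Fin (k + 1), ∃ n, dist (denseSeq (Sp d) n) (p i) < ε := by
      intro i
      obtain ⟨n, hn⟩ := (denseRange_denseSeq (Sp d)).exists_dist_lt (p i) hε0
      exact ⟨n, by rw [dist_comm]; exact hn⟩
    choose z hz using hden
    simp only [GT, Set.mem_iUnion]
    refine ⟨k, hk, z, m, ?_, ⟨?_, ?_⟩, ?_⟩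
    · refine lt_of_le_of_lt ?_ hm
      unfold apxCost
      rw [Finset.sum_range]
      apply Finset.sum_le_sum
      intro i _
      apply Real.rpow_le_rpow (by positivity) _ hα.le
      have h2 := hz i.castSucc
      have h3 := hz i.succ
      rw [dist_eq_norm] at h2 h3
      have e1 : ((i.castSucc : Fin (k + 1)) : ℕ) = i := rfl
      have e2 : ((i.succ : Fin (k + 1)) : ℕ) = i + 1 := rfl
      rw [e1] at h2
      rw [e2] at h3
      have h4 : denseSeq (Sp d) (z i.castSucc) - denseSeq (Sp d) (z i.succ) =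
        (denseSeq (Sp d) (z i.castSucc) - p i) + (p i - p (i + 1)) -
          (denseSeq (Sp d) (z i.succ) - p (i + 1)) := by abel
      have h5 := norm_sub_le ((denseSeq (Sp d) (z i.castSucc) - p i) + (p i - p (i + 1)))
        (denseSeq (Sp d) (z i.succ) - p (i + 1))
      have h6 := norm_add_le (denseSeq (Sp d) (z i.castSucc) - p i) (p i - p (i + 1))
      rw [← h4] at h5
      linarith
    · rw [Set.mem_iInter]
      intro i
      exact ⟨p i, hpA i (by omega), by rw [mem_ball, dist_comm]; exact hz i⟩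
    · apply CX_of_closest_mem hA hx
      rw [mem_ball, dist_comm]
      have h9 := hz 0
      have e0 : p ((0 : Fin (k + 1)) : ℕ) = closest A x := h0
      rw [e0] at h9
      exact h9
    · apply CX_of_closest_mem hA hy
      rw [mem_ball, dist_comm]
      have h9 := hz (Fin.last k)
      have e0 : p ((Fin.last k : Fin (k + 1)) : ℕ) = closest A y := h1
      rw [e0] at h9
      exact h9

/-- a measurable version of the passage time -/
noncomputable def TT (α : ℝ) (x y : Sp d) (A : Config d) : ℝ≥0∞ :=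
  ⨅ (t : ℚ) (_ : A ∈ GT α x y (t : ℝ)), ENNReal.ofReal (t : ℝ)

theorem TT_meas (α : ℝ) (x y : Sp d) : Measurable (TT α x y) := by
  classical
  unfold TT
  apply Measurable.iInf
  intro t
  have : (fun A : Config d => ⨅ (_ : A ∈ GT α x y (t : ℝ)), ENNReal.ofReal (t : ℝ)) =
      fun A => if A ∈ GT α x y (t : ℝ) then ENNReal.ofReal (t : ℝ) else ⊤ := by
    funext A
    rw [iInf_eq_if]
  rw [this]
  exact Measurable.ite (GT_meas α x y t) measurable_const measurable_const

theorem passageTime_nonneg {α : ℝ} (A : Set (Sp d)) (x y : Sp d) : 0 ≤ passageTime α A x y :=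
  DD_nonneg (c := fun v : Sp d => ‖v‖ ^ α) (fun v => by positivity) A _ _

theorem TT_eq {α : ℝ} (hα : 0 < α) {A : Set (Sp d)} (hA : Good A) {x y : Sp d}
    (hx : UniqueAt A x) (hy : UniqueAt A y) :
    TT α x y (show Config d from A) = ENNReal.ofReal (passageTime α A x y) := by
  have h0 := passageTime_nonneg (α := α) A x y
  apply le_antisymm
  · apply le_of_forall_gt
    intro c hc
    by_cases hct : c = ⊤
    · obtain ⟨t, ht1, -⟩ := exists_rat_btwn (lt_add_one (passageTime α A x y))
      rw [hct]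
      refine lt_of_le_of_lt (iInf₂_le t ((mem_GT_iff hα hA hx hy t).mpr ht1)) ENNReal.ofReal_lt_top
    · have h1 : passageTime α A x y < c.toReal := by
        rwa [← ENNReal.ofReal_lt_ofReal_iff_of_nonneg h0, ENNReal.ofReal_toReal hct]
      obtain ⟨t, ht1, ht2⟩ := exists_rat_btwn h1
      refine lt_of_le_of_lt (iInf₂_le t ((mem_GT_iff hα hA hx hy t).mpr ht1)) ?_
      rw [← ENNReal.ofReal_toReal hct]
      exact (ENNReal.ofReal_lt_ofReal_iff_of_nonneg (h0.trans ht1.le)).mpr ht2
  · apply le_iInf₂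
    intro t ht
    exact ENNReal.ofReal_le_ofReal ((mem_GT_iff hα hA hx hy t).mp ht).le

theorem passageTime_ae_eq [NeZero d] [IsProbabilityMeasure P] (hQ : IsPoissonProcess P Q)
    {α : ℝ} (hα : 0 < α) (x y : Sp d) :
    (fun ω => passageTime α (Q ω) x y) =ᵐ[P] fun ω => (TT α x y (toConfig Q ω)).toReal := by
  filter_upwards [hQ.ae_good, hQ.ae_unique x, hQ.ae_unique y] with ω h1 h2 h3
  have := TT_eq hα h1 h2 h3
  rw [show toConfig Q ω = (show Config d from Q ω) from rfl, this,
    ENNReal.toReal_ofReal (passageTime_nonneg _ _ _)]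

theorem passageTime_aemeas [NeZero d] [IsProbabilityMeasure P] (hQ : IsPoissonProcess P Q)
    {α : ℝ} (hα : 0 < α) (x y : Sp d) :
    AEMeasurable (fun ω => passageTime α (Q ω) x y) P :=
  ⟨fun ω => (TT α x y (toConfig Q ω)).toReal,
    ((TT_meas α x y).comp (toConfig_meas hQ)).ennreal_toReal, passageTime_ae_eq hQ hα x y⟩

theorem passageTime_expect_law [NeZero d] [IsProbabilityMeasure P] [IsProbabilityMeasure P']
    (hQ : IsPoissonProcess P Q) (hQ' : IsPoissonProcess P' Q')
    {α : ℝ} (hα : 0 < α) (x y : Sp d) :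
    ∫ ω, passageTime α (Q ω) x y ∂P = ∫ ω, passageTime α (Q' ω) x y ∂P' := by
  rw [integral_congr_ae (passageTime_ae_eq hQ hα x y),
    integral_congr_ae (passageTime_ae_eq hQ' hα x y)]
  have m : Measurable (fun A : Config d => (TT α x y A).toReal) := (TT_meas α x y).ennreal_toReal
  have e1 := integral_map (toConfig_meas hQ).aemeasurable (μ := P)
    m.aestronglyMeasurable
  have e2 := integral_map (toConfig_meas hQ').aemeasurable (μ := P')
    m.aestronglyMeasurable
  rw [← e1, ← e2, law_unique hQ hQ']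

end Pool.Agent.Helper322.EFPP
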