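import Pool.Agent.Helper322.EFPP.Meas

/-!
# Moments, stationarity and subadditivity
-/

namespace Pool.Agent.Helper322.EFPP

open MeasureTheory Set ProbabilityTheory Metric TopologicalSpace
open scoped ENNReal

variable {d : ℕ}

/-- passing from an extended nonnegative bound to a real integrable bound -/
theorem real_bound {Ω : Type*} [MeasurableSpace Ω] {P : Measure Ω} {E : Ω → ℝ≥0∞} {X : Ω → ℝ}
    {c : ℝ} (hc : 0 ≤ c)
    (hE : Measurable E) (hX : ∀ᵐ ω ∂P, ENNReal.ofReal (X ω) ≤ E ω)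
    (hint : ∫⁻ ω, E ω ∂P ≤ ENNReal.ofReal c) :
    ∃ Y : Ω → ℝ, Integrable Y P ∧ (∀ᵐ ω ∂P, X ω ≤ Y ω) ∧ ∫ ω, Y ω ∂P ≤ c ∧ ∀ ω, 0 ≤ Y ω := by
  have hne : ∫⁻ ω, E ω ∂P ≠ ⊤ := (hint.trans_lt ENNReal.ofReal_lt_top).ne
  refine ⟨fun ω => (E ω).toReal, integrable_toReal_of_lintegral_ne_top hE.aemeasurable hne, ?_, ?_,
    fun ω => ENNReal.toReal_nonneg⟩
  · filter_upwards [hX, ae_lt_top hE hne] with ω h1 h2
    rcases le_total (X ω) 0 with h | h
    · exact h.trans ENNReal.toReal_nonneg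
    · rw [← ENNReal.toReal_ofReal h]
      exact ENNReal.toReal_mono h2.ne h1
  · rw [integral_toReal hE.aemeasurable (ae_lt_top hE hne)]
    calc (∫⁻ ω, E ω ∂P).toReal ≤ (ENNReal.ofReal c).toReal := ENNReal.toReal_mono ENNReal.ofReal_ne_top hint
      _ = c := ENNReal.toReal_ofReal hc

theorem errT_real (d : ℕ) [NeZero d] {i j : Fin d} (hij : i ≠ j) {α : ℝ} (hα : 0 < α) :
    ∃ C : ℝ, 0 < C ∧ ∀ {Ω : Type*} [MeasurableSpace Ω] (P : Measure Ω) [IsProbabilityMeasure P]
      (Q : Ω → Set (Sp d)), IsPoissonProcess P Q → ∀ (x : Sp d) (s : ℝ), 0 < s → s ≤ 1 →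
    ∃ Y : Ω → ℝ, Integrable Y P ∧ (∀ᵐ ω ∂P, errT hij α s (Q ω) x ≤ Y ω) ∧
      ∫ ω, Y ω ∂P ≤ C * s ∧ ∀ ω, 0 ≤ Y ω := by
  obtain ⟨C, hC, h⟩ := errT_expect d hij hα
  refine ⟨C, hC, ?_⟩
  intro Ω _ P _ Q hQ x s hs hs1
  obtain ⟨E, hE, h1, h2⟩ := h P Q hQ x s hs hs1
  exact real_bound (by positivity) hE h1 h2

/-- the distance to the closest particle -/
noncomputable def RR (A : Set (Sp d)) (x : Sp d) : ℝ := dist (closest A x) x

theorem void_of_le_RR {A : Set (Sp d)} (hA : Good A) {x : Sp d} {r : ℝ} (h : r ≤ RR A x) :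
    A ∩ ball x r = ∅ := by
  rw [Set.eq_empty_iff_forall_notMem]
  rintro a ⟨haA, har⟩
  have := (hA.closest_spec x).2 a haA
  rw [mem_ball] at har
  unfold RR at h
  linarith

theorem RR_moment (d : ℕ) [NeZero d] {m : ℝ} (hm : 0 < m) :
    ∃ C : ℝ, 0 < C ∧ ∀ {Ω : Type*} [MeasurableSpace Ω] (P : Measure Ω) [IsProbabilityMeasure P]
      (Q : Ω → Set (Sp d)), IsPoissonProcess P Q → ∀ (x : Sp d),
    ∃ Y : Ω → ℝ, Integrable Y P ∧ (∀ᵐ ω ∂P, RR (Q ω) x ^ m ≤ Y ω) ∧
      ∫ ω, Y ω ∂P ≤ C ∧ ∀ ω, 0 ≤ Y ω := by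
  have hκ := kap_pos d
  set κ := kap d with hκd
  have hr0 : (0:ℝ) ≤ Real.exp (-(κ / 2)) := (Real.exp_pos _).le
  have hr1 : Real.exp (-(κ / 2)) < 1 := by rw [Real.exp_lt_one_iff]; linarith
  have hgeo := (hasSum_geometric_of_lt_one hr0 hr1).mul_left ((m / (κ / 2)) ^ m)
  set C0 : ℝ := (m / (κ / 2)) ^ m * (1 - Real.exp (-(κ / 2)))⁻¹ with hC0
  have hC0' : 0 ≤ C0 := by
    rw [hC0]
    have : 0 ≤ (1 - Real.exp (-(κ / 2)))⁻¹ := by rw [inv_nonneg]; linarith
    positivity
  refine ⟨1 + C0, by positivity, ?_⟩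
  intro Ω _ P _ Q hQ x
  set E : Ω → ℝ≥0∞ := fun ω => 1 + ∑' k : ℕ, ({ω | Q ω ∩ ball x ((k : ℝ) + 1) = ∅}).indicator
    (fun _ => ENNReal.ofReal (((k : ℝ) + 2) ^ m)) ω with hEdef
  have hmeas : ∀ k : ℕ, MeasurableSet {ω | Q ω ∩ ball x ((k : ℝ) + 1) = ∅} :=
    fun k => hQ.meas_void measurableSet_ball
  apply real_bound (E := E) (by positivity)
  · apply Measurable.const_add
    apply Measurable.tsum
    intro k
    exact measurable_const.indicator (hmeas k)
  · filter_upwards [hQ.ae_good] with ω hA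
    have hR0 : 0 ≤ RR (Q ω) x := dist_nonneg
    rcases lt_or_ge (RR (Q ω) x) 1 with h1 | h1
    · have : RR (Q ω) x ^ m ≤ 1 := Real.rpow_le_one hR0 h1.le hm.le
      calc ENNReal.ofReal (RR (Q ω) x ^ m) ≤ ENNReal.ofReal 1 := ENNReal.ofReal_le_ofReal this
        _ = 1 := ENNReal.ofReal_one
        _ ≤ E ω := le_self_add
    · -- the integer part
      obtain ⟨k, hk1, hk2⟩ : ∃ k : ℕ, (k : ℝ) + 1 ≤ RR (Q ω) x ∧ RR (Q ω) x < (k : ℝ) + 2 := by
        have h3 : 1 ≤ ⌊RR (Q ω) x⌋₊ := by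
          rw [Nat.one_le_floor_iff]; exact h1
        refine ⟨⌊RR (Q ω) x⌋₊ - 1, ?_, ?_⟩
        · have h2 := Nat.floor_le hR0
          rw [Nat.cast_sub h3]; push_cast; linarith
        · have h2 := Nat.lt_floor_add_one (RR (Q ω) x)
          rw [Nat.cast_sub h3]; push_cast; linarith
      have hmem : ω ∈ {ω | Q ω ∩ ball x ((k : ℝ) + 1) = ∅} := void_of_le_RR hA hk1
      calc ENNReal.ofReal (RR (Q ω) x ^ m) ≤ ENNReal.ofReal (((k : ℝ) + 2) ^ m) := by
            apply ENNReal.ofReal_le_ofReal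
            exact Real.rpow_le_rpow hR0 hk2.le hm.le
        _ = ({ω | Q ω ∩ ball x ((k : ℝ) + 1) = ∅}).indicator
            (fun _ => ENNReal.ofReal (((k : ℝ) + 2) ^ m)) ω := by
              rw [Set.indicator_of_mem hmem]
        _ ≤ ∑' k : ℕ, ({ω | Q ω ∩ ball x ((k : ℝ) + 1) = ∅}).indicator
            (fun _ => ENNReal.ofReal (((k : ℝ) + 2) ^ m)) ω := ENNReal.le_tsum
              (f := fun k : ℕ => ({ω | Q ω ∩ ball x ((k : ℝ) + 1) = ∅}).indicator
                (fun _ => ENNReal.ofReal (((k : ℝ) + 2) ^ m)) ω) k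
        _ ≤ E ω := le_add_self
  · have hsplit : ∫⁻ ω, E ω ∂P = 1 + ∑' k : ℕ, ∫⁻ ω, ({ω | Q ω ∩ ball x ((k : ℝ) + 1) = ∅}).indicator
          (fun _ => ENNReal.ofReal (((k : ℝ) + 2) ^ m)) ω ∂P := by
      rw [hEdef, lintegral_add_left measurable_const, lintegral_tsum
        (fun k => (measurable_const.indicator (hmeas k)).aemeasurable)]
      simp
    rw [hsplit]
    · have h1 : ∀ k : ℕ, ∫⁻ ω, ({ω | Q ω ∩ ball x ((k : ℝ) + 1) = ∅}).indicator
          (fun _ => ENNReal.ofReal (((k : ℝ) + 2) ^ m)) ω ∂P ≤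
          ENNReal.ofReal ((m / (κ / 2)) ^ m * Real.exp (-(κ / 2)) ^ k) := by
        intro k
        rw [lintegral_indicator_const (hmeas k), hQ.void_ball x (by positivity),
          ← ENNReal.ofReal_mul (by positivity)]
        apply ENNReal.ofReal_le_ofReal
        have h2 := rpow_le_exp (M := m) (κ := κ / 2) (x := (k : ℝ) + 2) hm (by positivity)
          (by positivity)
        have h3 : Real.exp (-(((k : ℝ) + 1) ^ d * κ)) ≤ Real.exp (-(((k : ℝ) + 1) * κ)) := by
          apply Real.exp_le_exp.mpr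
          have h4 : (k : ℝ) + 1 ≤ ((k : ℝ) + 1) ^ d :=
            le_self_pow₀ (by linarith [(Nat.cast_nonneg k : (0:ℝ) ≤ k)]) (NeZero.ne d)
          have := mul_le_mul_of_nonneg_right h4 hκ.le
          linarith
        calc ((k : ℝ) + 2) ^ m * Real.exp (-(((k : ℝ) + 1) ^ d * κ)) ≤
            ((m / (κ / 2)) ^ m * Real.exp (κ / 2 * ((k : ℝ) + 2))) *
              Real.exp (-(((k : ℝ) + 1) * κ)) := by
              apply mul_le_mul h2 h3 (Real.exp_pos _).le (by positivity)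
          _ = (m / (κ / 2)) ^ m * Real.exp (-(κ / 2)) ^ k := by
              rw [mul_assoc, ← Real.exp_add, ← Real.exp_nat_mul]
              congr 2; ring
      have h2 : ∑' k : ℕ, ∫⁻ ω, ({ω | Q ω ∩ ball x ((k : ℝ) + 1) = ∅}).indicator
          (fun _ => ENNReal.ofReal (((k : ℝ) + 2) ^ m)) ω ∂P ≤ ENNReal.ofReal C0 := by
        refine (ENNReal.tsum_le_tsum h1).trans ?_
        rw [← ENNReal.ofReal_tsum_of_nonneg (fun k => by positivity) hgeo.summable, hgeo.tsum_eq]
      rw [ENNReal.ofReal_add zero_le_one hC0', ENNReal.ofReal_one]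
      gcongr

theorem passageTime_le {α : ℝ} (hα : 0 < α) {A : Set (Sp d)} (hA : Good A) (x y : Sp d) :
    passageTime α A x y ≤ 3 ^ α * (RR A x ^ α + dist x y ^ α + RR A y ^ α) := by
  have h1 : passageTime α A x y ≤ ‖closest A x - closest A y‖ ^ α :=
    DD_le_edge (c := fun v : Sp d => ‖v‖ ^ α) (fun v => by positivity)
      (hA.closest_spec x).1 (hA.closest_spec y).1
  have h2 : ‖closest A x - closest A y‖ ≤ RR A x + dist x y + RR A y := by
    rw [← dist_eq_norm]
    unfold RR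
    calc dist (closest A x) (closest A y) ≤ dist (closest A x) x + dist x y + dist y (closest A y) :=
          dist_triangle4 _ _ _ _
      _ = _ := by rw [dist_comm y]
  have ha : 0 ≤ RR A x := dist_nonneg
  have hb : 0 ≤ dist x y := dist_nonneg
  have hc : 0 ≤ RR A y := dist_nonneg
  set M := max (RR A x) (max (dist x y) (RR A y)) with hM
  have hM0 : 0 ≤ M := ha.trans (le_max_left _ _)
  have h3 : RR A x + dist x y + RR A y ≤ 3 * M := by
    have e1 : RR A x ≤ M := le_max_left _ _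
    have e2 : dist x y ≤ M := (le_max_left _ _).trans (le_max_right _ _)
    have e3 : RR A y ≤ M := (le_max_right _ _).trans (le_max_right _ _)
    linarith
  have h4 : M ^ α ≤ RR A x ^ α + dist x y ^ α + RR A y ^ α := by
    have p1 : 0 ≤ RR A x ^ α := by positivity
    have p2 : 0 ≤ dist x y ^ α := by positivity
    have p3 : 0 ≤ RR A y ^ α := by positivity
    rcases max_choice (RR A x) (max (dist x y) (RR A y)) with h | h
    · rw [hM, h]; linarith
    · rcases max_choice (dist x y) (RR A y) with h' | h'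
      · rw [hM, h, h']; linarith
      · rw [hM, h, h']; linarith
  calc passageTime α A x y ≤ ‖closest A x - closest A y‖ ^ α := h1
    _ ≤ (3 * M) ^ α := Real.rpow_le_rpow (norm_nonneg _) (h2.trans h3) hα.le
    _ = 3 ^ α * M ^ α := Real.mul_rpow (by norm_num) hM0
    _ ≤ _ := mul_le_mul_of_nonneg_left h4 (by positivity)

/-- mean passage time between two points -/
noncomputable def FF {Ω : Type*} [MeasurableSpace Ω] (P : Measure Ω) (Q : Ω → Set (Sp d))
    (α : ℝ) (x y : Sp d) : ℝ := ∫ ω, passageTime α (Q ω) x y ∂P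

theorem passageTime_bound (d : ℕ) [NeZero d] {α : ℝ} (hα : 0 < α) :
    ∃ C : ℝ, 0 < C ∧ ∀ {Ω : Type*} [MeasurableSpace Ω] (P : Measure Ω) [IsProbabilityMeasure P]
      (Q : Ω → Set (Sp d)), IsPoissonProcess P Q → ∀ (x y : Sp d),
    Integrable (fun ω => passageTime α (Q ω) x y) P ∧
      FF P Q α x y ≤ C * (1 + dist x y ^ α) := by
  obtain ⟨C, hC, h⟩ := RR_moment d hα
  refine ⟨3 ^ α * (2 * C + 1), by positivity, ?_⟩
  intro Ω _ P _ Q hQ x y
  obtain ⟨Y, hY, hY1, hY2, hY3⟩ := h P Q hQ x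
  obtain ⟨Z, hZ, hZ1, hZ2, hZ3⟩ := h P Q hQ y
  have hint : Integrable (fun ω => 3 ^ α * (Y ω + dist x y ^ α + Z ω)) P :=
    ((hY.add (integrable_const _)).add hZ).const_mul _
  have hle : ∀ᵐ ω ∂P, passageTime α (Q ω) x y ≤ 3 ^ α * (Y ω + dist x y ^ α + Z ω) := by
    filter_upwards [hQ.ae_good, hY1, hZ1] with ω hA h1 h2
    refine (passageTime_le hα hA x y).trans ?_
    apply mul_le_mul_of_nonneg_left _ (by positivity)
    linarith
  have hI : Integrable (fun ω => passageTime α (Q ω) x y) P := by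
    apply hint.mono' (passageTime_aemeas hQ hα x y).aestronglyMeasurable
    filter_upwards [hle] with ω h1
    rw [Real.norm_of_nonneg (passageTime_nonneg _ _ _)]
    exact h1
  refine ⟨hI, ?_⟩
  calc FF P Q α x y ≤ ∫ ω, 3 ^ α * (Y ω + dist x y ^ α + Z ω) ∂P := integral_mono_ae hI hint hle
    _ = 3 ^ α * ((∫ ω, Y ω ∂P) + dist x y ^ α + ∫ ω, Z ω ∂P) := by
        have i1 : ∫ ω, (Y ω + dist x y ^ α + Z ω) ∂P =
            (∫ ω, (Y ω + dist x y ^ α) ∂P) + ∫ ω, Z ω ∂P :=
          integral_add (hY.add (integrable_const _)) hZ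
        have i2 : ∫ ω, (Y ω + dist x y ^ α) ∂P = (∫ ω, Y ω ∂P) + dist x y ^ α := by
          rw [integral_add hY (integrable_const _)]
          simp
        rw [integral_const_mul, i1, i2]
    _ ≤ 3 ^ α * (C + dist x y ^ α + C) := by gcongr
    _ ≤ 3 ^ α * (2 * C + 1) * (1 + dist x y ^ α) := by
        have p2 : 0 ≤ dist x y ^ α := by positivity
        have p3 : (0:ℝ) < 3 ^ α := by positivity
        have : C + dist x y ^ α + C ≤ (2 * C + 1) * (1 + dist x y ^ α) := by nlinarith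
        calc 3 ^ α * (C + dist x y ^ α + C) ≤ 3 ^ α * ((2 * C + 1) * (1 + dist x y ^ α)) :=
              mul_le_mul_of_nonneg_left this p3.le
          _ = _ := by ring

section

variable {Ω : Type*} [MeasurableSpace Ω] {P : Measure Ω} [IsProbabilityMeasure P]
  {Q : Ω → Set (Sp d)}

theorem passageTime_integrable [NeZero d] (hQ : IsPoissonProcess P Q) {α : ℝ} (hα : 0 < α)
    (x y : Sp d) : Integrable (fun ω => passageTime α (Q ω) x y) P := by
  obtain ⟨C, -, h⟩ := passageTime_bound d hα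
  exact (h P Q hQ x y).1

omit [IsProbabilityMeasure P] in
theorem FF_nonneg (α : ℝ) (x y : Sp d) : 0 ≤ FF P Q α x y :=
  integral_nonneg fun _ => passageTime_nonneg _ _ _

theorem FF_triangle [NeZero d] (hQ : IsPoissonProcess P Q) {α : ℝ} (hα : 0 < α) (x y z : Sp d) :
    FF P Q α x z ≤ FF P Q α x y + FF P Q α y z := by
  unfold FF
  rw [← integral_add (passageTime_integrable hQ hα x y) (passageTime_integrable hQ hα y z)]
  apply integral_mono_ae (passageTime_integrable hQ hα x z)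
    ((passageTime_integrable hQ hα x y).add (passageTime_integrable hQ hα y z))
  filter_upwards [hQ.ae_good] with ω hA
  exact DD_triangle (c := fun v : Sp d => ‖v‖ ^ α) (fun v => by positivity)
    (hA.closest_spec x).1 (hA.closest_spec y).1 (hA.closest_spec z).1

theorem FF_symm [NeZero d] (hQ : IsPoissonProcess P Q) {α : ℝ} (x y : Sp d) :
    FF P Q α x y = FF P Q α y x := by
  unfold FF
  apply integral_congr_ae
  filter_upwards [hQ.ae_good] with ω hA
  exact DD_symm (c := fun v : Sp d => ‖v‖ ^ α) (fun v => by positivity)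
    (fun v => by simp only [norm_neg]) (hA.closest_spec y).1 (hA.closest_spec x).1

omit [IsProbabilityMeasure P] in
theorem closest_translate {A : Set (Sp d)} (hA : Good A) {x : Sp d} (hx : UniqueAt A x)
    (u : Sp d) : closest (Equiv.addRight u '' A) (x + u) = closest A x + u := by
  have hA' : Good (Equiv.addRight u '' A) := by
    apply hA.image
    intro y r
    apply (isBounded_closedBall (x := y - u) (r := r)).subset
    intro z hz
    rw [Set.mem_preimage, mem_closedBall, Equiv.coe_addRight] at hz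
    rw [mem_closedBall]
    calc dist z (y - u) = dist (z + u) (y - u + u) := (dist_add_right _ _ _).symm
      _ = dist (z + u) y := by rw [sub_add_cancel]
      _ ≤ r := hz
  have h1 := hA'.closest_spec (x + u)
  obtain ⟨q, hq, hqe⟩ := h1.1
  have h2 : IsClosest A x q := by
    refine ⟨hq, fun a ha => ?_⟩
    have h3 := h1.2 (a + u) ⟨a, ha, rfl⟩
    rw [← hqe] at h3
    simpa using h3
  have h4 := hx q (closest A x) h2 (hA.closest_spec x)
  rw [← hqe, ← h4]; rfl

theorem FF_translate [NeZero d] (hQ : IsPoissonProcess P Q) {α : ℝ} (hα : 0 < α)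
    (x y u : Sp d) : FF P Q α (x + u) (y + u) = FF P Q α x y := by
  have h1 := passageTime_expect_law hQ (hQ.translate u) hα (x + u) (y + u)
  unfold FF
  rw [h1]
  apply integral_congr_ae
  filter_upwards [hQ.ae_good, hQ.ae_unique x, hQ.ae_unique y] with ω hA hx hy
  unfold passageTime
  rw [closest_translate hA hx, closest_translate hA hy, chainInf_eq, chainInf_eq]
  have := DD_map (fun v : Sp d => ‖v‖ ^ α) (fun v : Sp d => ‖v‖ ^ α) (Equiv.addRight u)
    (fun a b => by simp) (Q ω) (closest (Q ω) x) (closest (Q ω) y)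
  exact this

theorem FF_stretch [NeZero d] (hQ : IsPoissonProcess P Q) {α : ℝ} (hα : 0 < α)
    {i j : Fin d} (hij : i ≠ j) (s : ℝ) (x y : Sp d) :
    FF P Q α (stretch hij s x) (stretch hij s y) =
      ∫ ω, passageTime α (stretch hij s '' (Q ω)) (stretch hij s x) (stretch hij s y) ∂P :=
  passageTime_expect_law hQ (hQ.stretch hij s) hα _ _

end

end Pool.Agent.Helper322.EFPP
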