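import Pool.Agent.Helper322.EFPP.Positive
import Pool.Agent.Helper322.EFPP.Analysis

/-!
# Dimension one, and regularity of the mean passage time
-/

namespace Pool.Agent.Helper322.EFPP

open MeasureTheory Set ProbabilityTheory Metric TopologicalSpace Filter Topology
open scoped ENNReal

theorem norm_sp1 (v : Sp 1) : ‖v‖ = |v 0| := by
  rw [EuclideanSpace.norm_eq]
  simp [Real.sqrt_sq_eq_abs]

theorem sp1_ext {v w : Sp 1} (h : v 0 = w 0) : v = w := by
  ext k
  have : k = 0 := Subsingleton.elim _ _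
  rw [this, h]

theorem chain_split {α : ℝ} (hα : 1 ≤ α) {A : Set (Sp 1)} {b : Sp 1} (hb : b ∈ A) (k : ℕ) :
    ∀ p : ℕ → Sp 1, (∀ i ≤ k, p i ∈ A) → (p 0) 0 ≤ b 0 → b 0 ≤ (p k) 0 →
    DD (fun v : Sp 1 => ‖v‖ ^ α) A (p 0) b + DD (fun v : Sp 1 => ‖v‖ ^ α) A b (p k) ≤
      costD (fun v : Sp 1 => ‖v‖ ^ α) k p := by
  have hα0 : 0 < α := by linarith
  have hc : ∀ v : Sp 1, 0 ≤ (fun v : Sp 1 => ‖v‖ ^ α) v := fun v => by positivity
  have hc0 : (fun v : Sp 1 => ‖v‖ ^ α) 0 = 0 := by
    simp [Real.zero_rpow hα0.ne']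
  induction k with
  | zero =>
    intro p hp h1 h2
    have h3 : p 0 = b := sp1_ext (le_antisymm h1 h2)
    rw [h3, DD_self hc hc0 hb]
    simp [costD]
  | succ k ih =>
    intro p hp h1 h2
    have hcost : costD (fun v : Sp 1 => ‖v‖ ^ α) (k + 1) p =
        costD (fun v : Sp 1 => ‖v‖ ^ α) k (fun i => p (i + 1)) + ‖p 0 - p 1‖ ^ α := by
      unfold costD
      rw [Finset.sum_range_succ']
    have hp0 : p 0 ∈ A := hp 0 (by omega)
    have hp1 : p 1 ∈ A := hp 1 (by omega)
    have hpk : p (k + 1) ∈ A := hp (k + 1) le_rfl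
    rcases le_or_gt ((p 1) 0) (b 0) with h | h
    · have h3 := ih (fun i => p (i + 1)) (fun i hi => hp (i + 1) (by omega)) h h2
      simp only [zero_add] at h3
      have h4 := DD_triangle hc hp0 hp1 hb
      have h5 := DD_le_edge hc hp0 hp1
      rw [hcost]
      linarith
    · have h3 := DD_le_edge hc hp0 hb
      have h4 := DD_triangle hc hb hp1 hpk
      have h5 := DD_le_edge hc hb hp1
      have h6 := DD_le_of_chain' hc hc0 (k := k) (p := fun i => p (i + 1)) (q := p 1)
        (q' := p (k + 1)) (A := A) rfl rfl (fun i hi => hp (i + 1) (by omega))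
      have h7 : ‖p 0 - b‖ ^ α + ‖b - p 1‖ ^ α ≤ ‖p 0 - p 1‖ ^ α := by
        rw [norm_sp1, norm_sp1, norm_sp1]
        have e1 : |(p 0 - b) 0| = b 0 - (p 0) 0 := by
          rw [PiLp.sub_apply, abs_sub_comm, abs_of_nonneg (by linarith)]
        have e2 : |(b - p 1) 0| = (p 1) 0 - b 0 := by
          rw [PiLp.sub_apply, abs_sub_comm, abs_of_nonneg (by linarith)]
        have e3 : |(p 0 - p 1) 0| = (b 0 - (p 0) 0) + ((p 1) 0 - b 0) := by
          rw [PiLp.sub_apply, abs_sub_comm, abs_of_nonneg (by linarith)]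
          ring
        rw [e1, e2, e3]
        exact Real.add_rpow_le_rpow_add (by linarith) (by linarith) hα
      rw [hcost]
      linarith

theorem closest_mono {A : Set (Sp 1)} (hA : Good A) {x y : Sp 1}
    (hxy : x 0 ≤ y 0) : (closest A x) 0 ≤ (closest A y) 0 := by
  have h1 := hA.closest_spec x
  have h2 := hA.closest_spec y
  rcases hxy.eq_or_lt with h | h
  · have : x = y := sp1_ext h
    rw [this]
  · by_contra hcon
    push Not at hcon
    have h3 := h1.2 _ h2.1
    have h4 := h2.2 _ h1.1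
    rw [dist_eq_norm, dist_eq_norm, norm_sp1, norm_sp1, PiLp.sub_apply, PiLp.sub_apply] at h3 h4
    rcases abs_cases ((closest A x) 0 - x 0) with h5 | h5 <;>
    rcases abs_cases ((closest A y) 0 - x 0) with h6 | h6 <;>
    rcases abs_cases ((closest A x) 0 - y 0) with h7 | h7 <;>
    rcases abs_cases ((closest A y) 0 - y 0) with h8 | h8 <;>
    linarith

section

variable {d : ℕ} {Ω : Type*} [MeasurableSpace Ω] {P : Measure Ω} [IsProbabilityMeasure P]
  {Q : Ω → Set (Sp d)}

omit [IsProbabilityMeasure P] in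
theorem meanTime_eq [NeZero d] (α n : ℝ) : meanTime P Q α n = FF P Q α 0 (n • e1 d) := rfl

theorem dist_zero_e1 [NeZero d] (t : ℝ) : dist (0 : Sp d) (t • e1 d) = |t| := by
  rw [dist_zero_left, norm_smul, e1, PiLp.norm_single]
  simp

theorem FF_axis [NeZero d] (hQ : IsPoissonProcess P Q) {α : ℝ} (hα : 0 < α) (s t : ℝ) :
    FF P Q α (s • e1 d) (t • e1 d) = FF P Q α 0 ((t - s) • e1 d) := by
  have := FF_translate hQ hα 0 ((t - s) • e1 d) (s • e1 d)
  rw [zero_add, ← add_smul, sub_add_cancel] at this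
  exact this

theorem meanTime_reg [NeZero d] (hQ : IsPoissonProcess P Q) {α : ℝ} (hα : 0 < α) :
    ∃ M : ℝ, Reg (meanTime P Q α) M := by
  obtain ⟨C, hC, hb⟩ := passageTime_bound d hα
  refine ⟨C * 2, ?_, ?_, ?_, ?_⟩
  · intro s t _ _
    rw [meanTime_eq, meanTime_eq, meanTime_eq]
    have h1 := FF_triangle hQ hα 0 (s • e1 d) ((s + t) • e1 d)
    rw [FF_axis hQ hα] at h1
    simpa using h1
  · intro s t _ _
    rw [meanTime_eq, meanTime_eq, meanTime_eq]
    have h1 := FF_triangle hQ hα 0 (t • e1 d) (s • e1 d)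
    rw [FF_symm hQ (t • e1 d), FF_axis hQ hα] at h1
    exact h1
  · intro t ht0 ht1
    rw [meanTime_eq]
    refine (hb P Q hQ 0 (t • e1 d)).2.trans ?_
    rw [dist_zero_e1, abs_of_nonneg ht0]
    have : t ^ α ≤ 1 := Real.rpow_le_one ht0 ht1 hα.le
    nlinarith
  · intro t _
    rw [meanTime_eq]
    exact FF_nonneg _ _ _

end

section

variable {Ω : Type*} [MeasurableSpace Ω] {P : Measure Ω} [IsProbabilityMeasure P]
  {Q : Ω → Set (Sp 1)}

theorem e1_apply (t : ℝ) : (t • e1 1) 0 = t := by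
  simp [e1]

theorem meanTime_add (hQ : IsPoissonProcess P Q) {α : ℝ} (hα : 1 ≤ α) {s t : ℝ}
    (hs : 0 ≤ s) (ht : 0 ≤ t) :
    meanTime P Q α (s + t) = meanTime P Q α s + meanTime P Q α t := by
  have hα0 : 0 < α := by linarith
  apply le_antisymm
  · obtain ⟨M, hM⟩ := meanTime_reg hQ hα0
    exact hM.sub s t hs ht
  · rw [meanTime_eq, meanTime_eq, meanTime_eq]
    have e : FF P Q α 0 (t • e1 1) = FF P Q α (s • e1 1) ((s + t) • e1 1) := by
      rw [FF_axis hQ hα0]; simp
    rw [e]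
    unfold FF
    rw [← integral_add (passageTime_integrable hQ hα0 _ _) (passageTime_integrable hQ hα0 _ _)]
    apply integral_mono_ae
      ((passageTime_integrable hQ hα0 _ _).add (passageTime_integrable hQ hα0 _ _))
      (passageTime_integrable hQ hα0 _ _)
    filter_upwards [hQ.ae_good] with ω hA
    have hm1 : (closest (Q ω) (0 : Sp 1)) 0 ≤ (closest (Q ω) (s • e1 1)) 0 :=
      closest_mono hA (by rw [e1_apply]; simpa using hs)
    have hm2 : (closest (Q ω) (s • e1 1)) 0 ≤ (closest (Q ω) ((s + t) • e1 1)) 0 :=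
      closest_mono hA (by rw [e1_apply, e1_apply]; linarith)
    have hq := (hA.closest_spec (0 : Sp 1)).1
    have hr := (hA.closest_spec (s • e1 1)).1
    have hu := (hA.closest_spec ((s + t) • e1 1)).1
    apply le_DD (c := fun v : Sp 1 => ‖v‖ ^ α) hq hu
    intro k hk p h0' h1' hpA
    have := chain_split hα hr k p hpA (by rw [h0']; exact hm1) (by rw [h1']; exact hm2)
    rw [h0', h1'] at this
    exact this

/-- in dimension one the mean passage time is linear -/
theorem meanTime_linear (hQ : IsPoissonProcess P Q) {α : ℝ} (hα : 1 ≤ α) {L : ℝ}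
    (hL : Tendsto (fun t : ℝ => meanTime P Q α t / t) atTop (𝓝 L)) {t : ℝ} (ht : 0 < t) :
    meanTime P Q α t = L * t := by
  have hk : ∀ k : ℕ, meanTime P Q α ((k + 1 : ℕ) * t) = (k + 1 : ℕ) * meanTime P Q α t := by
    intro k
    induction k with
    | zero => simp
    | succ k ih =>
      have e1 : ((k + 1 + 1 : ℕ) : ℝ) * t = ((k + 1 : ℕ) : ℝ) * t + t := by push_cast; ring
      rw [e1, meanTime_add hQ hα (by positivity) ht.le, ih]
      push_cast; ring
  have hseq : Tendsto (fun k : ℕ => ((k + 1 : ℕ) : ℝ) * t) atTop atTop := by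
    apply Tendsto.atTop_mul_const ht
    exact tendsto_natCast_atTop_atTop.comp (tendsto_add_atTop_nat 1)
  have h9 := hL.comp hseq
  have h10 : (fun t : ℝ => meanTime P Q α t / t) ∘ (fun k : ℕ => ((k + 1 : ℕ) : ℝ) * t) =
      fun _ => meanTime P Q α t / t := by
    funext k
    simp only [Function.comp]
    rw [hk k]
    have : ((k + 1 : ℕ) : ℝ) ≠ 0 := by positivity
    field_simp
  rw [h10] at h9
  have h11 := tendsto_nhds_unique h9 tendsto_const_nhds
  rw [h11]; field_simp

end

end Pool.Agent.Helper322.EFPP
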