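import Pool.Agent.Helper322.EFPP.MainIneq

/-!
# Path counting: cheap long chains are exponentially unlikely
-/

namespace Pool.Agent.Helper322.EFPP

open MeasureTheory Set ProbabilityTheory Metric TopologicalSpace
open scoped ENNReal

variable {d : ℕ}

/-- the half-open cube with index `z` and side `l` -/
def cube (l : ℝ) (z : Fin d → ℤ) : Set (Sp d) := {x | ∀ k, ⌊x k / l⌋ = z k}

/-- index of the cube containing a point -/
noncomputable def idx (l : ℝ) (x : Sp d) : Fin d → ℤ := fun k => ⌊x k / l⌋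

theorem mem_cube_idx (l : ℝ) (x : Sp d) : x ∈ cube l (idx l x) := fun _ => rfl

theorem cube_meas (l : ℝ) (z : Fin d → ℤ) : MeasurableSet (cube l z) := by
  have : cube l z = ⋂ k, (fun x : Sp d => ⌊x k / l⌋) ⁻¹' {z k} := by
    ext x; simp [cube]
  rw [this]
  apply MeasurableSet.iInter
  intro k
  have hm : Measurable (fun x : Sp d => ⌊x k / l⌋) := by
    apply Int.measurable_floor.comp
    have : Continuous (fun x : Sp d => x k / l) := by fun_prop
    exact this.measurable
  exact hm (MeasurableSet.singleton _)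

theorem cube_disjoint (l : ℝ) {z z' : Fin d → ℤ} (h : z ≠ z') :
    Disjoint (cube l z) (cube l z') := by
  rw [Set.disjoint_left]
  intro x hx hx'
  apply h
  funext k
  rw [← hx k, ← hx' k]

theorem cube_subset_ball {l : ℝ} (hl : 0 < l) (z : Fin d → ℤ) :
    cube l z ⊆ ball (WithLp.toLp 2 (fun k => l * (z k : ℝ))) (((d : ℝ) + 1) * l) := by
  intro x hx
  rw [mem_ball, dist_eq_norm]
  have hd : (0:ℝ) ≤ d := Nat.cast_nonneg d
  apply lt_of_pow_lt_pow_left₀ 2 (by positivity)
  rw [EuclideanSpace.norm_sq_eq]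
  have h1 : ∀ k : Fin d, ‖(x - WithLp.toLp 2 (fun k => l * (z k : ℝ))) k‖ ^ 2 ≤ l ^ 2 := by
    intro k
    have h2 : ⌊x k / l⌋ = z k := hx k
    rw [Int.floor_eq_iff] at h2
    have h3 : (z k : ℝ) * l ≤ x k := by
      have := h2.1; rwa [le_div_iff₀ hl] at this
    have h4 : x k < ((z k : ℝ) + 1) * l := by
      have := h2.2; rwa [div_lt_iff₀ hl] at this
    rw [Real.norm_eq_abs, sq_abs]
    have h5 : (x - WithLp.toLp 2 (fun k => l * (z k : ℝ))) k = x k - l * (z k : ℝ) := rfl
    rw [h5]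
    apply pow_le_pow_left₀ <;> nlinarith
  calc ∑ k : Fin d, ‖(x - WithLp.toLp 2 (fun k => l * (z k : ℝ))) k‖ ^ 2 ≤ ∑ k : Fin d, l ^ 2 :=
        Finset.sum_le_sum fun k _ => h1 k
    _ = d * l ^ 2 := by simp
    _ < (((d : ℝ) + 1) * l) ^ 2 := by
        have : 0 < l ^ 2 := by positivity
        nlinarith

theorem cube_vol {l : ℝ} (hl : 0 < l) (z : Fin d → ℤ) :
    volume (cube l z) ≤ ENNReal.ofReal ((((d : ℝ) + 1) * l) ^ d * kap d) := by
  refine (measure_mono (cube_subset_ball hl z)).trans ?_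
  rw [vol_ball _ (by positivity)]

/-- truncated jump size -/
def wj (m : ℤ) : ℕ := m.natAbs - 1

/-- total truncated jump size -/
def phi (v : Fin d → ℤ) : ℕ := ∑ k, wj (v k)

theorem tsum_pi_prod {β : Type*} (g : β → ℝ≥0∞) (m : ℕ) :
    ∑' v : Fin m → β, ∏ i, g (v i) = (∑' b, g b) ^ m := by
  induction m with
  | zero => simp
  | succ m ih =>
    have hfun : ∀ c : β × (Fin m → β),
        ∏ i, g ((Fin.consEquiv (fun _ : Fin (m + 1) => β)) c i) = g c.1 * ∏ i, g (c.2 i) := by
      rintro ⟨a, v⟩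
      rw [Fin.prod_univ_succ]
      simp [Fin.consEquiv]
    rw [← (Fin.consEquiv (fun _ : Fin (m + 1) => β)).tsum_eq, tsum_congr hfun,
      ENNReal.tsum_prod (f := fun (a : β) (v : Fin m → β) => g a * ∏ i, g (v i)), pow_succ']
    simp_rw [ENNReal.tsum_mul_left, ih, ENNReal.tsum_mul_right]

theorem tsum_wj : ∑' m : ℤ, ((1:ℝ≥0∞) / 2) ^ (wj m) = 5 := by
  have g : ∑' n : ℕ, ((1:ℝ≥0∞) / 2) ^ n = 2 := by
    rw [ENNReal.tsum_geometric, one_div, ENNReal.one_sub_inv_two, inv_inv]
  have h1 : HasSum (fun n : ℕ => ((1:ℝ≥0∞) / 2) ^ (wj (n : ℤ))) 3 := by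
    rw [ENNReal.summable.hasSum_iff, tsum_eq_zero_add' ENNReal.summable]
    have : ∀ n : ℕ, wj ((n + 1 : ℕ) : ℤ) = n := by
      intro n; simp [wj]; omega
    simp_rw [this, g]
    simp [wj]
    norm_num
  have h2 : HasSum (fun n : ℕ => ((1:ℝ≥0∞) / 2) ^ (wj (-((n : ℤ) + 1)))) 2 := by
    rw [ENNReal.summable.hasSum_iff]
    have : ∀ n : ℕ, wj (-((n : ℤ) + 1)) = n := by
      intro n
      unfold wj
      omega
    simp_rw [this, g]
  have := (HasSum.of_nat_of_neg_add_one (f := fun m : ℤ => ((1:ℝ≥0∞) / 2) ^ (wj m)) h1 h2).tsum_eq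
  rw [this]; norm_num

theorem tsum_phi (d : ℕ) : ∑' v : Fin d → ℤ, ((1:ℝ≥0∞) / 2) ^ (phi v) = 5 ^ d := by
  have h := tsum_pi_prod (fun m : ℤ => ((1:ℝ≥0∞) / 2) ^ (wj m)) d
  rw [tsum_wj] at h
  rw [← h]
  congr 1
  funext v
  rw [phi, Finset.prod_pow_eq_pow_sum]

/-- loop erasure -/
theorem loop_erase (V : Type*) (c : V → V → ℕ) (k : ℕ) : ∀ (z : ℕ → V),
    ∃ (m : ℕ) (w : ℕ → V), w 0 = z 0 ∧ w m = z k ∧ (∀ i ≤ m, ∀ j ≤ m, w i = w j → i = j) ∧
      (∀ i ≤ m, ∃ i' ≤ k, w i = z i') ∧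
      ∑ i ∈ Finset.range m, c (w i) (w (i + 1)) ≤ ∑ i ∈ Finset.range k, c (z i) (z (i + 1)) := by
  induction k using Nat.strong_induction_on with
  | _ k ih =>
    intro z
    by_cases hinj : ∀ i ≤ k, ∀ j ≤ k, z i = z j → i = j
    · exact ⟨k, z, rfl, rfl, hinj, fun i hi => ⟨i, hi, rfl⟩, le_rfl⟩
    · push Not at hinj
      obtain ⟨i, hi, j, hj, hz, hne⟩ := hinj
      wlog hlt : i < j generalizing i j
      · exact this j hj i hi hz.symm hne.symm (lt_of_le_of_ne (not_lt.mp hlt) hne.symm)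
      -- remove the loop
      set z' : ℕ → V := fun t => if t ≤ i then z t else z (t + (j - i)) with hz'
      have hk' : k - (j - i) < k := by omega
      obtain ⟨m, w, h0, h1, hw, hsub, hcost⟩ := ih (k - (j - i)) hk' z'
      have e0 : z' 0 = z 0 := by simp [hz']
      have ek : z' (k - (j - i)) = z k := by
        simp only [hz']
        split_ifs with h
        · have h2 : k - (j - i) = i := by omega
          have h3 : j = k := by omega
          rw [h2, ← h3, hz]
        · congr 1; omega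
      refine ⟨m, w, by rw [h0, e0], by rw [h1, ek], hw, ?_, ?_⟩
      · intro t ht
        obtain ⟨t', ht', hwt⟩ := hsub t ht
        rw [hwt]
        simp only [hz']
        split_ifs with h
        · exact ⟨t', by omega, rfl⟩
        · exact ⟨t' + (j - i), by omega, rfl⟩
      · refine hcost.trans ?_
        have hsplit : k = i + ((j - i) + (k - j)) := by omega
        have hsplit' : k - (j - i) = i + (k - j) := by omega
        rw [hsplit', Finset.sum_range_add]
        conv_rhs => rw [hsplit, Finset.sum_range_add, Finset.sum_range_add]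
        have a1 : ∑ x ∈ Finset.range i, c (z' x) (z' (x + 1)) =
            ∑ x ∈ Finset.range i, c (z x) (z (x + 1)) := by
          apply Finset.sum_congr rfl
          intro x hx
          rw [Finset.mem_range] at hx
          have b1 : x ≤ i := hx.le
          have b2 : x + 1 ≤ i := hx
          simp only [hz', b1, b2, if_true]
        have a2 : ∑ x ∈ Finset.range (k - j), c (z' (i + x)) (z' (i + x + 1)) =
            ∑ x ∈ Finset.range (k - j), c (z (i + ((j - i) + x))) (z (i + ((j - i) + x) + 1)) := by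
          apply Finset.sum_congr rfl
          intro x _
          have b2 : ¬ (i + x + 1 ≤ i) := by omega
          have b3 : i + x + 1 + (j - i) = i + ((j - i) + x) + 1 := by omega
          have b4 : z' (i + x) = z (i + ((j - i) + x)) := by
            simp only [hz']
            split_ifs with h
            · have b5 : x = 0 := by omega
              subst b5
              simp only [add_zero]
              rw [hz]; congr 1; omega
            · congr 1; omega
          rw [b4]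
          simp only [hz', b2, if_false, b3]
        rw [a1, a2]
        omega

/-- path with given increments -/
def pw {m : ℕ} (a : Fin d → ℤ) (v : Fin m → (Fin d → ℤ)) (i : ℕ) : Fin d → ℤ :=
  a + ∑ j ∈ Finset.range i, (if h : j < m then v ⟨j, h⟩ else 0)

theorem pw_eq {m : ℕ} (w : ℕ → (Fin d → ℤ)) (i : ℕ) (hi : i ≤ m) :
    pw (w 0) (fun j : Fin m => w (j + 1) - w j) i = w i := by
  unfold pw
  have : ∑ j ∈ Finset.range i, (if h : j < m then
      (fun j : Fin m => w (j + 1) - w j) ⟨j, h⟩ else 0) =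
      ∑ j ∈ Finset.range i, (w (j + 1) - w j) := by
    apply Finset.sum_congr rfl
    intro j hj
    rw [Finset.mem_range] at hj
    have : j < m := by omega
    simp [this]
  rw [this, Finset.sum_range_sub]
  abel

variable {Ω : Type*} [MeasurableSpace Ω] {P : Measure Ω} {Q : Ω → Set (Sp d)}

/-- a self-avoiding sequence of occupied cubes, starting at `a`, reaching distance `D` in some
coordinate, with total truncated jump size at most `K` -/
def occEv (Q : Ω → Set (Sp d)) (l : ℝ) (a : Fin d → ℤ) (D K : ℕ) : Set Ω :=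
  {ω | ∃ (m : ℕ) (w : ℕ → (Fin d → ℤ)), w 0 = a ∧ (∀ i ≤ m, ∀ j ≤ m, w i = w j → i = j) ∧
    (∀ i ≤ m, (Q ω ∩ cube l (w i)).Nonempty) ∧
    (∑ i ∈ Finset.range m, phi (w (i + 1) - w i) ≤ K) ∧
    ∃ c : Fin d, D ≤ (w m c - a c).natAbs}

theorem steps_lower {m D K : ℕ} {w : ℕ → (Fin d → ℤ)} {c : Fin d}
    (hK : ∑ i ∈ Finset.range m, phi (w (i + 1) - w i) ≤ K)
    (hD : D ≤ (w m c - w 0 c).natAbs) : D ≤ K + m := by
  have h1 : ∀ n : ℕ, (w n c - w 0 c).natAbs ≤ ∑ i ∈ Finset.range n, (w (i + 1) c - w i c).natAbs := by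
    intro n
    induction n with
    | zero => simp
    | succ n ih =>
      rw [Finset.sum_range_succ]
      have : w (n + 1) c - w 0 c = (w n c - w 0 c) + (w (n + 1) c - w n c) := by ring
      rw [this]
      exact (Int.natAbs_add_le _ _).trans (Nat.add_le_add_right ih _)
  have h2 : ∑ i ∈ Finset.range m, (w (i + 1) c - w i c).natAbs ≤
      ∑ i ∈ Finset.range m, (phi (w (i + 1) - w i) + 1) := by
    apply Finset.sum_le_sum
    intro i _
    have h3 : wj ((w (i + 1) - w i) c) ≤ phi (w (i + 1) - w i) :=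
      Finset.single_le_sum (f := fun k => wj ((w (i + 1) - w i) k)) (fun _ _ => Nat.zero_le _)
        (Finset.mem_univ c)
    have h4 : (w (i + 1) c - w i c).natAbs ≤ wj ((w (i + 1) - w i) c) + 1 := by
      unfold wj
      rw [Pi.sub_apply]; omega
    omega
  rw [Finset.sum_add_distrib] at h2
  simp only [Finset.sum_const, Finset.card_range, smul_eq_mul, mul_one] at h2
  have := h1 m
  omega

theorem occ_prob [IsProbabilityMeasure P] (hQ : IsPoissonProcess P Q) {l : ℝ} (hl : 0 < l)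
    (hsmall : 5 ^ d * ENNReal.ofReal ((((d : ℝ) + 1) * l) ^ d * kap d) ≤ 1 / 8)
    (a : Fin d → ℤ) (D K : ℕ) :
    P (occEv Q l a D K) ≤ 2 * 2 ^ K * (1 / 8) ^ (D - K) := by
  classical
  set p : ℝ≥0∞ := ENNReal.ofReal ((((d : ℝ) + 1) * l) ^ d * kap d) with hp
  have hp1 : p ≤ 1 := by
    have h5 : (1:ℝ≥0∞) ≤ 5 ^ d := one_le_pow₀ (by norm_num)
    calc p = 1 * p := (one_mul _).symm
      _ ≤ 5 ^ d * p := by gcongr
      _ ≤ 1 / 8 := hsmall
      _ ≤ 1 := by
        rw [one_div]
        exact ENNReal.inv_le_one.mpr (by norm_num)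
  -- the events
  let EV : (n : ℕ) → (Fin ((D - K) + n) → (Fin d → ℤ)) → Set Ω := fun n v =>
    if (Function.Injective (fun i : Fin ((D - K) + n + 1) => pw a v i)) ∧ ∑ i, phi (v i) ≤ K then
      ⋂ i : Fin ((D - K) + n + 1), {ω | (Q ω ∩ cube l (pw a v i)).Nonempty}
    else ∅
  have hcover : occEv Q l a D K ⊆ ⋃ (n : ℕ) (v : Fin ((D - K) + n) → (Fin d → ℤ)), EV n v := by
    rintro ω ⟨m, w, h0, hinj, hocc, hcost, c, hD⟩
    rw [← h0] at hD
    have hm := steps_lower hcost hD
    obtain ⟨n, rfl⟩ : ∃ n, m = (D - K) + n := ⟨m - (D - K), by omega⟩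
    refine Set.mem_iUnion.mpr ⟨n, Set.mem_iUnion.mpr
      ⟨fun j => w (j + 1) - w j, ?_⟩⟩
    have hpw : ∀ i : Fin ((D - K) + n + 1),
        pw a (fun j : Fin ((D - K) + n) => w (j + 1) - w j) i = w i := by
      intro i
      rw [← h0]
      exact pw_eq w i (by omega)
    have hcond : (Function.Injective (fun i : Fin ((D - K) + n + 1) =>
        pw a (fun j : Fin ((D - K) + n) => w (j + 1) - w j) i)) ∧
        ∑ i : Fin ((D - K) + n), phi (w (i + 1) - w i) ≤ K := by
      constructor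
      · intro i j hij
        simp only [hpw] at hij
        exact Fin.ext (hinj i (by omega) j (by omega) hij)
      · rw [← Finset.sum_range (fun i => phi (w (i + 1) - w i))]
        exact hcost
    simp only [EV]
    rw [if_pos hcond]
    rw [Set.mem_iInter]
    intro i
    rw [Set.mem_ofPred_eq, hpw]
    exact hocc i (by omega)
  have hbound : ∀ (n : ℕ) (v : Fin ((D - K) + n) → (Fin d → ℤ)),
      P (EV n v) ≤ 2 ^ K * ∏ i, (p * ((1:ℝ≥0∞) / 2) ^ (phi (v i))) := by
    intro n v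
    simp only [EV]
    split_ifs with h
    · rw [hQ.indep_hit ((D - K) + n + 1) (fun i => cube l (pw a v i)) (fun i => cube_meas l _)
        (fun i j hij => cube_disjoint l (fun he => hij (h.1 he)))]
      calc ∏ i : Fin ((D - K) + n + 1), P {ω | (Q ω ∩ cube l (pw a v i)).Nonempty} ≤
          ∏ i : Fin ((D - K) + n + 1), p := by
            apply Finset.prod_le_prod'
            intro i _
            have hv := cube_vol hl (pw a v i)
            exact (hQ.hit_prob (cube_meas l _) (hv.trans_lt ENNReal.ofReal_lt_top).ne).trans hv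
        _ = p ^ ((D - K) + n) * p := by simp [pow_succ]
        _ ≤ p ^ ((D - K) + n) * 1 := by gcongr
        _ = 1 * p ^ ((D - K) + n) := by ring
        _ ≤ (2 ^ K * ((1:ℝ≥0∞) / 2) ^ (∑ i, phi (v i))) * p ^ ((D - K) + n) := by
            gcongr
            have h2 : ((1:ℝ≥0∞) / 2) ^ K ≤ ((1:ℝ≥0∞) / 2) ^ (∑ i, phi (v i)) := by
              apply pow_le_pow_of_le_one zero_le _ h.2
              rw [one_div]; exact ENNReal.inv_le_one.mpr (by norm_num)
            calc (1:ℝ≥0∞) = 2 ^ K * ((1:ℝ≥0∞) / 2) ^ K := by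
                  rw [← mul_pow, one_div, ENNReal.mul_inv_cancel (by norm_num) (by norm_num),
                    one_pow]
              _ ≤ _ := by gcongr
        _ = 2 ^ K * ∏ i, (p * ((1:ℝ≥0∞) / 2) ^ (phi (v i))) := by
            rw [Finset.prod_mul_distrib, Finset.prod_pow_eq_pow_sum]
            simp only [Finset.prod_const, Finset.card_univ, Fintype.card_fin]
            ring
    · simp
  have hsum : ∀ n : ℕ, ∑' v : Fin ((D - K) + n) → (Fin d → ℤ), P (EV n v) ≤
      2 ^ K * (1 / 8) ^ ((D - K) + n) := by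
    intro n
    calc ∑' v : Fin ((D - K) + n) → (Fin d → ℤ), P (EV n v) ≤
        ∑' v : Fin ((D - K) + n) → (Fin d → ℤ), 2 ^ K *
          ∏ i, (p * ((1:ℝ≥0∞) / 2) ^ (phi (v i))) := ENNReal.tsum_le_tsum (hbound n)
      _ = 2 ^ K * (p * 5 ^ d) ^ ((D - K) + n) := by
          rw [ENNReal.tsum_mul_left, tsum_pi_prod (fun u : Fin d → ℤ =>
            p * ((1:ℝ≥0∞) / 2) ^ (phi u)), ENNReal.tsum_mul_left, tsum_phi]
      _ ≤ 2 ^ K * (1 / 8) ^ ((D - K) + n) := by
          rw [mul_comm p]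
          gcongr
  calc P (occEv Q l a D K) ≤ P (⋃ (n : ℕ) (v : Fin ((D - K) + n) → (Fin d → ℤ)), EV n v) :=
        measure_mono hcover
    _ ≤ ∑' n : ℕ, P (⋃ v : Fin ((D - K) + n) → (Fin d → ℤ), EV n v) := measure_iUnion_le _
    _ ≤ ∑' n : ℕ, ∑' v : Fin ((D - K) + n) → (Fin d → ℤ), P (EV n v) :=
        ENNReal.tsum_le_tsum fun n => measure_iUnion_le _
    _ ≤ ∑' n : ℕ, 2 ^ K * (1 / 8) ^ ((D - K) + n) := ENNReal.tsum_le_tsum hsum
    _ = 2 ^ K * (1 / 8) ^ (D - K) * ∑' n : ℕ, (1 / 8) ^ n := by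
        rw [← ENNReal.tsum_mul_left]
        congr 1; funext n; rw [pow_add]; ring
    _ ≤ 2 ^ K * (1 / 8) ^ (D - K) * 2 := by
        gcongr
        calc ∑' n : ℕ, ((1:ℝ≥0∞) / 8) ^ n ≤ ∑' n : ℕ, ((1:ℝ≥0∞) / 2) ^ n := by
              apply ENNReal.tsum_le_tsum
              intro n
              gcongr
              norm_num
          _ = 2 := by
              rw [ENNReal.tsum_geometric, one_div, ENNReal.one_sub_inv_two, inv_inv]
    _ = 2 * 2 ^ K * (1 / 8) ^ (D - K) := by ring

theorem exists_side (d : ℕ) [NeZero d] : ∃ l : ℝ, 0 < l ∧ l ≤ 1 ∧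
    5 ^ d * ENNReal.ofReal ((((d : ℝ) + 1) * l) ^ d * kap d) ≤ 1 / 8 := by
  have hκ := kap_pos d
  have hd : (0:ℝ) ≤ d := Nat.cast_nonneg d
  set M : ℝ := (d + 1) * (8 * 5 ^ d * kap d + 1) with hM
  have hM0 : 0 < M := by positivity
  have hM1 : 1 ≤ M := by
    rw [hM]
    have : 0 ≤ 8 * 5 ^ d * kap d := by positivity
    nlinarith
  refine ⟨1 / M, by positivity, by rw [div_le_one hM0]; exact hM1, ?_⟩
  have h1 : ((d : ℝ) + 1) * (1 / M) = 1 / (8 * 5 ^ d * kap d + 1) := by
    rw [hM]; field_simp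
  rw [h1]
  have h2 : (1 / (8 * 5 ^ d * kap d + 1)) ^ d ≤ 1 / (8 * 5 ^ d * kap d + 1) := by
    apply pow_le_of_le_one (by positivity) _ (NeZero.ne d)
    rw [div_le_one (by positivity)]
    have : 0 ≤ 8 * 5 ^ d * kap d := by positivity
    linarith
  have h3 : (1 / (8 * 5 ^ d * kap d + 1)) ^ d * kap d ≤ 1 / (8 * 5 ^ d) := by
    calc (1 / (8 * 5 ^ d * kap d + 1)) ^ d * kap d ≤ 1 / (8 * 5 ^ d * kap d + 1) * kap d := by
          gcongr
      _ ≤ 1 / (8 * 5 ^ d) := by
          rw [div_mul_eq_mul_div, one_mul, div_le_div_iff₀ (by positivity) (by positivity)]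
          nlinarith
  calc 5 ^ d * ENNReal.ofReal ((1 / (8 * 5 ^ d * kap d + 1)) ^ d * kap d) ≤
      5 ^ d * ENNReal.ofReal (1 / (8 * 5 ^ d)) := by gcongr
    _ = ENNReal.ofReal (5 ^ d * (1 / (8 * 5 ^ d))) := by
        rw [ENNReal.ofReal_mul (by positivity), ENNReal.ofReal_pow (by norm_num)]
        norm_num
    _ = ENNReal.ofReal (1 / 8) := by congr 1; field_simp
    _ ≤ 1 / 8 := by
        rw [ENNReal.ofReal_div_of_pos (by norm_num)]
        norm_num

end Pool.Agent.Helper322.EFPP
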