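import Pool.Agent.Helper322.EFPP.Stretch

/-!
# Elementary facts about the Poisson process
-/

namespace Pool.Agent.Helper322.EFPP

open MeasureTheory Set ProbabilityTheory
open scoped ENNReal

variable {d : ℕ} {Ω : Type*} [MeasurableSpace Ω] {P : Measure Ω} {Q : Ω → Set (Sp d)}

theorem encard_eq_zero_iff' (A B : Set (Sp d)) : (A ∩ B).encard = 0 ↔ A ∩ B = ∅ :=
  Set.encard_eq_zero

theorem IsPoissonProcess.meas_encard (hQ : IsPoissonProcess P Q) {B : Set (Sp d)}
    (hB : MeasurableSet B) (S : Set ℕ∞) : MeasurableSet {ω | (Q ω ∩ B).encard ∈ S} :=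
  hQ.measurable_count B hB (MeasurableSet.of_discrete (s := S))

theorem IsPoissonProcess.meas_void (hQ : IsPoissonProcess P Q) {B : Set (Sp d)}
    (hB : MeasurableSet B) : MeasurableSet {ω | Q ω ∩ B = ∅} := by
  have := hQ.meas_encard hB {0}
  simpa [Set.encard_eq_zero] using this

theorem IsPoissonProcess.void_prob (hQ : IsPoissonProcess P Q) {B : Set (Sp d)}
    (hB : MeasurableSet B) (hv : volume B ≠ ⊤) :
    P {ω | Q ω ∩ B = ∅} = ENNReal.ofReal (Real.exp (-(volume B).toReal)) := by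
  have := hQ.law_count B hB hv 0
  simpa [Set.encard_eq_zero] using this

theorem IsPoissonProcess.one_prob (hQ : IsPoissonProcess P Q) {B : Set (Sp d)}
    (hB : MeasurableSet B) (hv : volume B ≠ ⊤) :
    P {ω | (Q ω ∩ B).encard = 1} =
      ENNReal.ofReal (Real.exp (-(volume B).toReal) * (volume B).toReal) := by
  have := hQ.law_count B hB hv 1
  simpa using this

theorem IsPoissonProcess.hit_prob [IsProbabilityMeasure P] (hQ : IsPoissonProcess P Q)
    {B : Set (Sp d)} (hB : MeasurableSet B) (hv : volume B ≠ ⊤) :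
    P {ω | (Q ω ∩ B).Nonempty} ≤ volume B := by
  have h1 : {ω | (Q ω ∩ B).Nonempty} = {ω | Q ω ∩ B = ∅}ᶜ := by
    ext ω; simp [Set.nonempty_iff_ne_empty]
  rw [h1, prob_compl_eq_one_sub (hQ.meas_void hB), hQ.void_prob hB hv]
  rw [← ENNReal.ofReal_one, ← ENNReal.ofReal_sub _ (Real.exp_pos _).le,
    ← ENNReal.ofReal_toReal hv]
  apply ENNReal.ofReal_le_ofReal
  rw [ENNReal.toReal_ofReal ENNReal.toReal_nonneg]
  linarith [Real.add_one_le_exp (-(volume B).toReal)]

theorem two_le_encard_iff (n : ℕ∞) : 2 ≤ n ↔ ¬ (n = 0 ∨ n = 1) := by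
  constructor
  · intro h hn
    rcases hn with rfl | rfl
    · exact absurd h (by norm_num)
    · exact absurd h (by norm_num)
  · intro h
    push Not at h
    obtain ⟨h0, h1⟩ := h
    have h2 : 1 ≤ n := Order.one_le_iff_ne_zero.mpr h0
    have h3 : 1 < n := lt_of_le_of_ne h2 (Ne.symm h1)
    have h4 := Order.add_one_le_of_lt h3
    have h5 : (1:ℕ∞) + 1 = 2 := by norm_num
    rwa [h5] at h4

theorem IsPoissonProcess.two_prob [IsProbabilityMeasure P] (hQ : IsPoissonProcess P Q)
    {B : Set (Sp d)} (hB : MeasurableSet B) (hv : volume B ≠ ⊤) :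
    P {ω | 2 ≤ (Q ω ∩ B).encard} ≤ (volume B) ^ 2 := by
  have h1 : {ω | 2 ≤ (Q ω ∩ B).encard} =
      ({ω | (Q ω ∩ B).encard = 0} ∪ {ω | (Q ω ∩ B).encard = 1})ᶜ := by
    ext ω
    simp only [Set.mem_ofPred_eq, Set.mem_compl_iff, Set.mem_union]
    exact two_le_encard_iff _
  have m0 : MeasurableSet {ω | (Q ω ∩ B).encard = 0} := hQ.meas_encard hB {0}
  have m1 : MeasurableSet {ω | (Q ω ∩ B).encard = 1} := hQ.meas_encard hB {1}
  rw [h1, prob_compl_eq_one_sub (m0.union m1), measure_union _ m1]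
  · have p0 : P {ω | (Q ω ∩ B).encard = 0} = ENNReal.ofReal (Real.exp (-(volume B).toReal)) := by
      have := hQ.law_count B hB hv 0
      simpa using this
    rw [p0, hQ.one_prob hB hv, ← ENNReal.ofReal_add (by positivity) (by positivity)]
    rw [← ENNReal.ofReal_one, ← ENNReal.ofReal_sub _ (by positivity),
      ← ENNReal.ofReal_toReal hv, ← ENNReal.ofReal_pow (by positivity)]
    apply ENNReal.ofReal_le_ofReal
    rw [ENNReal.toReal_ofReal ENNReal.toReal_nonneg]
    set v := (volume B).toReal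
    have hv0 : 0 ≤ v := ENNReal.toReal_nonneg
    have h3 := Real.add_one_le_exp (-v)
    have h4 : (1 - v) * (1 + v) ≤ Real.exp (-v) * (1 + v) :=
      mul_le_mul_of_nonneg_right (by linarith) (by linarith)
    nlinarith
  · rw [Set.disjoint_left]
    intro ω h0 h1
    simp only [Set.mem_ofPred_eq] at h0 h1
    rw [h0] at h1
    exact absurd h1 (by norm_num)

theorem IsPoissonProcess.ae_finite [IsProbabilityMeasure P] (hQ : IsPoissonProcess P Q)
    {B : Set (Sp d)} (hB : MeasurableSet B) (hv : volume B ≠ ⊤) :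
    ∀ᵐ ω ∂P, (Q ω ∩ B).Finite := by
  have hU : P (⋃ k : ℕ, {ω | (Q ω ∩ B).encard = (k : ℕ∞)}) = 1 := by
    rw [measure_iUnion]
    · have h1 : ∀ k : ℕ, P {ω | (Q ω ∩ B).encard = (k : ℕ∞)} =
          ENNReal.ofReal (Real.exp (-(volume B).toReal) * (volume B).toReal ^ k / (k.factorial : ℝ)) :=
        fun k => hQ.law_count B hB hv k
      simp_rw [h1]
      have h2 : HasSum (fun k : ℕ => Real.exp (-(volume B).toReal) *
          (volume B).toReal ^ k / (k.factorial : ℝ)) 1 :=
        ProbabilityTheory.hasSum_one_poissonMeasure (volume B).toNNReal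
      rw [← ENNReal.ofReal_tsum_of_nonneg (fun n => by positivity) h2.summable, h2.tsum_eq,
        ENNReal.ofReal_one]
    · intro a b hab
      rw [Function.onFun, Set.disjoint_left]
      intro ω h0 h1
      simp only [Set.mem_ofPred_eq] at h0 h1
      rw [h0] at h1
      exact hab (by exact_mod_cast h1)
    · intro k; exact hQ.meas_encard hB {(k : ℕ∞)}
  have hU' : ∀ᵐ ω ∂P, ω ∈ ⋃ k : ℕ, {ω | (Q ω ∩ B).encard = (k : ℕ∞)} := by
    rw [← prob_compl_eq_zero_iff] at hU
    · exact hU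
    · exact MeasurableSet.iUnion fun k => hQ.meas_encard hB {(k : ℕ∞)}
  filter_upwards [hU'] with ω hω
  rw [Set.mem_iUnion] at hω
  obtain ⟨k, hk⟩ := hω
  exact Set.finite_of_encard_eq_coe hk

end Pool.Agent.Helper322.EFPP
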