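import Pool.Agent.Helper322.EFPP.Poisson

/-!
# More facts about the Poisson process: balls, independence, transport
-/

namespace Pool.Agent.Helper322.EFPP

open MeasureTheory Set ProbabilityTheory Metric
open scoped ENNReal

variable {d : ℕ} {Ω : Type*} [MeasurableSpace Ω] {P : Measure Ω} {Q : Ω → Set (Sp d)}

/-- volume of the unit ball -/
noncomputable def kap (d : ℕ) : ℝ := (volume (ball (0 : Sp d) 1)).toReal

theorem kap_pos (d : ℕ) : 0 < kap d := by
  unfold kap
  apply ENNReal.toReal_pos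
  · exact (measure_ball_pos volume 0 one_pos).ne'
  · exact measure_ball_lt_top.ne

theorem vol_ball (x : Sp d) {r : ℝ} (hr : 0 < r) :
    volume (ball x r) = ENNReal.ofReal (r ^ d * kap d) := by
  rw [Measure.addHaar_ball_of_pos _ _ hr, finrank_euclideanSpace_fin,
    ENNReal.ofReal_mul (by positivity), kap, ENNReal.ofReal_toReal measure_ball_lt_top.ne]

theorem vol_ball_toReal (x : Sp d) {r : ℝ} (hr : 0 < r) :
    (volume (ball x r)).toReal = r ^ d * kap d := by
  rw [vol_ball x hr, ENNReal.toReal_ofReal]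
  have := kap_pos d
  positivity

theorem IsPoissonProcess.indep_two (hQ : IsPoissonProcess P Q)
    {B₁ B₂ : Set (Sp d)} (h₁ : MeasurableSet B₁) (h₂ : MeasurableSet B₂) (hd : Disjoint B₁ B₂)
    (S₁ S₂ : Set ℕ∞) :
    P ({ω | (Q ω ∩ B₁).encard ∈ S₁} ∩ {ω | (Q ω ∩ B₂).encard ∈ S₂}) =
      P {ω | (Q ω ∩ B₁).encard ∈ S₁} * P {ω | (Q ω ∩ B₂).encard ∈ S₂} := by
  have hi := hQ.indep_count 2 ![B₁, B₂] (by intro i; fin_cases i <;> simp [h₁, h₂]) (by
    intro i j hij
    fin_cases i <;> fin_cases j <;> simp_all [disjoint_comm])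
  have := hi.measure_inter_preimage_eq_mul Finset.univ (sets := ![S₁, S₂])
    (fun i _ => MeasurableSet.of_discrete)
  simp only [Finset.mem_univ, Set.iInter_true, Fin.prod_univ_two, Matrix.cons_val_zero,
    Matrix.cons_val_one] at this
  have h3 : (⋂ i : Fin 2, (fun ω => (Q ω ∩ ![B₁, B₂] i).encard) ⁻¹' (![S₁, S₂] i)) =
      {ω | (Q ω ∩ B₁).encard ∈ S₁} ∩ {ω | (Q ω ∩ B₂).encard ∈ S₂} := by
    ext ω
    simp [Set.mem_iInter, Fin.forall_fin_two]
  rw [h3] at this
  exact this

theorem IsPoissonProcess.indep_hit (hQ : IsPoissonProcess P Q) (m : ℕ)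
    (B : Fin m → Set (Sp d)) (hB : ∀ i, MeasurableSet (B i))
    (hd : Pairwise (fun i j => Disjoint (B i) (B j))) :
    P (⋂ i, {ω | (Q ω ∩ B i).Nonempty}) = ∏ i, P {ω | (Q ω ∩ B i).Nonempty} := by
  have hi := hQ.indep_count m B hB hd
  have := hi.measure_inter_preimage_eq_mul Finset.univ (sets := fun _ => {n : ℕ∞ | n ≠ 0})
    (fun i _ => MeasurableSet.of_discrete)
  simp only [Finset.mem_univ, Set.iInter_true] at this
  have h3 : ∀ i, (fun ω => (Q ω ∩ B i).encard) ⁻¹' {n : ℕ∞ | n ≠ 0} =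
      {ω | (Q ω ∩ B i).Nonempty} := by
    intro i
    ext ω
    simp [Set.nonempty_iff_ne_empty]
  simp_rw [h3] at this
  exact this

theorem encard_image_inter (φ : Sp d ≃ Sp d) (A B : Set (Sp d)) :
    (φ '' A ∩ B).encard = (A ∩ φ ⁻¹' B).encard := by
  rw [← Set.image_inter_preimage]
  exact φ.injective.encard_image _

theorem IsPoissonProcess.transport (hQ : IsPoissonProcess P Q) (φ : Sp d ≃ Sp d)
    (hφ : Measurable (φ : Sp d → Sp d))
    (hvol : ∀ B : Set (Sp d), volume (φ ⁻¹' B) = volume B) :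
    IsPoissonProcess P (fun ω => φ '' (Q ω)) := by
  refine ⟨?_, ?_, ?_⟩
  · intro B hB
    simp_rw [encard_image_inter]
    exact hQ.measurable_count _ (hφ hB)
  · intro B hB hv k
    simp_rw [encard_image_inter]
    rw [← hvol B]
    exact hQ.law_count _ (hφ hB) (by rw [hvol]; exact hv) k
  · intro m B hB hd
    simp_rw [encard_image_inter]
    exact hQ.indep_count m (fun i => φ ⁻¹' (B i)) (fun i => hφ (hB i))
      (fun i j hij => (hd hij).preimage _)

theorem IsPoissonProcess.stretch (hQ : IsPoissonProcess P Q) {i j : Fin d} (hij : i ≠ j) (s : ℝ) :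
    IsPoissonProcess P (fun ω => (stretch hij s) '' (Q ω)) :=
  hQ.transport _ (stretch_measurable hij s) (stretch_volume hij s)

theorem IsPoissonProcess.translate (hQ : IsPoissonProcess P Q) (x : Sp d) :
    IsPoissonProcess P (fun ω => (Equiv.addRight x) '' (Q ω)) := by
  apply hQ.transport (Equiv.addRight x)
  · exact (continuous_id.add continuous_const).measurable
  · intro B
    exact measure_preimage_add_right volume x B

/-- almost surely the process is locally finite -/
theorem IsPoissonProcess.ae_locFinite [IsProbabilityMeasure P] (hQ : IsPoissonProcess P Q) :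
    ∀ᵐ ω ∂P, ∀ (x : Sp d) (r : ℝ), (Q ω ∩ closedBall x r).Finite := by
  have h1 : ∀ᵐ ω ∂P, ∀ n : ℕ, (Q ω ∩ closedBall (0 : Sp d) n).Finite := by
    rw [ae_all_iff]
    intro n
    exact hQ.ae_finite isClosed_closedBall.measurableSet measure_closedBall_lt_top.ne
  filter_upwards [h1] with ω hω x r
  obtain ⟨n, hn⟩ := exists_nat_ge (‖x‖ + r)
  apply (hω n).subset
  apply Set.inter_subset_inter_right
  apply closedBall_subset_closedBall'
  rw [dist_zero_right]
  linarith

theorem IsPoissonProcess.void_ball (hQ : IsPoissonProcess P Q) (x : Sp d) {r : ℝ} (hr : 0 < r) :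
    P {ω | Q ω ∩ ball x r = ∅} = ENNReal.ofReal (Real.exp (-(r ^ d * kap d))) := by
  rw [hQ.void_prob measurableSet_ball measure_ball_lt_top.ne, vol_ball_toReal x hr]

theorem IsPoissonProcess.ae_nonempty [NeZero d] [IsProbabilityMeasure P]
    (hQ : IsPoissonProcess P Q) : ∀ᵐ ω ∂P, (Q ω).Nonempty := by
  have h1 : P {ω | ¬ (Q ω).Nonempty} = 0 := by
    apply le_antisymm _ (zero_le)
    have h2 : ∀ n : ℕ, P {ω | ¬ (Q ω).Nonempty} ≤
        ENNReal.ofReal (Real.exp (-((n + 1 : ℕ) : ℝ) * kap d)) := by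
      intro n
      have h3 : {ω | ¬ (Q ω).Nonempty} ⊆ {ω | Q ω ∩ ball (0 : Sp d) ((n + 1 : ℕ) : ℝ) = ∅} := by
        intro ω hω
        simp only [Set.mem_ofPred_eq, Set.not_nonempty_iff_eq_empty] at hω ⊢
        rw [hω, Set.empty_inter]
      refine (measure_mono h3).trans ?_
      rw [hQ.void_ball 0 (by positivity)]
      apply ENNReal.ofReal_le_ofReal
      apply Real.exp_le_exp.mpr
      rw [neg_mul]
      apply neg_le_neg
      apply mul_le_mul_of_nonneg_right _ (kap_pos d).le
      apply le_self_pow₀ _ (NeZero.ne d)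
      push_cast; linarith [(Nat.cast_nonneg n : (0:ℝ) ≤ n)]
    have h4 : Filter.Tendsto (fun n : ℕ => ENNReal.ofReal (Real.exp (-((n + 1 : ℕ) : ℝ) * kap d)))
        Filter.atTop (nhds 0) := by
      rw [← ENNReal.ofReal_zero]
      apply ENNReal.tendsto_ofReal
      apply Real.tendsto_exp_atBot.comp
      apply Filter.Tendsto.atBot_mul_const (kap_pos d)
      apply Filter.tendsto_neg_atTop_atBot.comp
      exact tendsto_natCast_atTop_atTop.comp (Filter.tendsto_add_atTop_nat 1)
    exact ge_of_tendsto' h4 h2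
  exact h1

end Pool.Agent.Helper322.EFPP
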