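import Pool.Agent.Helper322.EFPP.PathCount

/-!
# Positivity of the time constant
-/

namespace Pool.Agent.Helper322.EFPP

open MeasureTheory Set ProbabilityTheory Metric TopologicalSpace
open scoped ENNReal

variable {d : ℕ}

theorem abs_coord_le_norm (x : Sp d) (k : Fin d) : |x k| ≤ ‖x‖ := by
  have := PiLp.norm_apply_le x k
  rwa [Real.norm_eq_abs] at this

theorem wj_le {a b : ℝ} : (wj (⌊b⌋ - ⌊a⌋) : ℝ) ≤ |a - b| := by
  unfold wj
  rcases Nat.eq_zero_or_pos (⌊b⌋ - ⌊a⌋).natAbs with h | h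
  · rw [h]; simp
  · rw [Nat.cast_sub h, Nat.cast_natAbs]
    push_cast
    have h1 := Int.floor_le a
    have h2 := Int.lt_floor_add_one a
    have h3 := Int.floor_le b
    have h4 := Int.lt_floor_add_one b
    have h5 : |(⌊b⌋ : ℝ) - ⌊a⌋| ≤ |a - b| + 1 := by
      rw [abs_le]
      constructor
      · linarith [le_abs_self (a - b), neg_abs_le (a - b)]
      · linarith [le_abs_self (a - b), neg_abs_le (a - b)]
    linarith

theorem step_cost {l α : ℝ} (hl : 0 < l) (hα : 1 ≤ α) (x y : Sp d) :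
    l ^ α * (phi (idx l y - idx l x) : ℝ) ≤ d * ‖x - y‖ ^ α := by
  unfold phi
  rw [Nat.cast_sum, Finset.mul_sum]
  calc ∑ k : Fin d, l ^ α * (wj ((idx l y - idx l x) k) : ℝ) ≤ ∑ k : Fin d, ‖x - y‖ ^ α := by
        apply Finset.sum_le_sum
        intro k _
        have h1 : (wj ((idx l y - idx l x) k) : ℝ) ≤ |x k / l - y k / l| := wj_le
        have h2 : |x k / l - y k / l| = |x k - y k| / l := by
          rw [← sub_div, abs_div, abs_of_pos hl]
        rw [h2, le_div_iff₀ hl] at h1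
        have h3 : |x k - y k| ≤ ‖x - y‖ := abs_coord_le_norm (x - y) k
        set n := wj ((idx l y - idx l x) k) with hn
        have h4 : (n : ℝ) ≤ (n : ℝ) ^ α := by
          rcases Nat.eq_zero_or_pos n with h0 | h0
          · rw [h0]; simp only [Nat.cast_zero]
            positivity
          · have : (1:ℝ) ≤ n := by exact_mod_cast h0
            exact Real.self_le_rpow_of_one_le this hα
        calc l ^ α * (n : ℝ) ≤ l ^ α * (n : ℝ) ^ α := by gcongr
          _ = (l * n) ^ α := by rw [Real.mul_rpow hl.le (Nat.cast_nonneg n)]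
          _ ≤ ‖x - y‖ ^ α := by
              apply Real.rpow_le_rpow (by positivity) _ (by linarith)
              linarith
    _ = d * ‖x - y‖ ^ α := by simp

theorem chain_occ {Ω : Type*} {Q : Ω → Set (Sp d)} {ω : Ω} {l α : ℝ} (hl : 0 < l) (hα : 1 ≤ α)
    [NeZero d] {k : ℕ} {p : ℕ → Sp d} (hA : ∀ i ≤ k, p i ∈ Q ω) {D K : ℕ}
    (hcost : costD (fun v : Sp d => ‖v‖ ^ α) k p ≤ l ^ α / d * K)
    (hD : ∃ c : Fin d, D ≤ (idx l (p k) c - idx l (p 0) c).natAbs) :
    ω ∈ occEv Q l (idx l (p 0)) D K := by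
  have hd : (0:ℝ) < d := by exact_mod_cast Nat.pos_of_ne_zero (NeZero.ne d)
  obtain ⟨m, w, h0, h1, hinj, hsub, hle⟩ := loop_erase (Fin d → ℤ) (fun a b => phi (b - a)) k
    (fun i => idx l (p i))
  refine ⟨m, w, h0, hinj, ?_, ?_, ?_⟩
  · intro i hi
    obtain ⟨i', hi', hw⟩ := hsub i hi
    rw [hw]
    exact ⟨p i', hA i' hi', mem_cube_idx l _⟩
  · refine hle.trans ?_
    have h2 : l ^ α * ((∑ i ∈ Finset.range k, phi (idx l (p (i + 1)) - idx l (p i)) : ℕ) : ℝ) ≤
        l ^ α * K := by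
      rw [Nat.cast_sum, Finset.mul_sum]
      calc ∑ i ∈ Finset.range k, l ^ α * (phi (idx l (p (i + 1)) - idx l (p i)) : ℝ) ≤
          ∑ i ∈ Finset.range k, d * ‖p i - p (i + 1)‖ ^ α :=
            Finset.sum_le_sum fun i _ => step_cost hl hα _ _
        _ = d * costD (fun v : Sp d => ‖v‖ ^ α) k p := by rw [costD, Finset.mul_sum]
        _ ≤ d * (l ^ α / d * K) := by gcongr
        _ = l ^ α * K := by field_simp
    have h3 := le_of_mul_le_mul_left h2 (by positivity)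
    exact_mod_cast h3
  · rw [h1]
    exact hD

/-- points close to the origin have their cube index in a fixed finite set -/
theorem idx_mem_box {l ρ : ℝ} (hl : 0 < l) {x : Sp d} (hx : ‖x‖ ≤ ρ) :
    idx l x ∈ (Finset.Icc (fun _ => -⌈ρ / l⌉ - 1) (fun _ => ⌈ρ / l⌉ + 1) :
      Finset (Fin d → ℤ)) := by
  rw [Finset.mem_Icc]
  have h1 : ∀ k, |x k / l| ≤ ρ / l := by
    intro k
    rw [abs_div, abs_of_pos hl]
    exact div_le_div_of_nonneg_right ((abs_coord_le_norm x k).trans hx) hl.le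
  have h2 := Int.le_ceil (ρ / l)
  constructor
  · intro k
    have h3 := abs_le.mp (h1 k)
    have h4 := Int.lt_floor_add_one (x k / l)
    have h5 : ((-⌈ρ / l⌉ - 1 : ℤ) : ℝ) < (⌊x k / l⌋ : ℝ) + 1 := by push_cast; linarith
    have h6 : -⌈ρ / l⌉ - 1 < ⌊x k / l⌋ + 1 := by exact_mod_cast h5
    show -⌈ρ / l⌉ - 1 ≤ ⌊x k / l⌋
    omega
  · intro k
    have h3 := abs_le.mp (h1 k)
    have h4 := Int.floor_le (x k / l)
    have h5 : (⌊x k / l⌋ : ℝ) ≤ ((⌈ρ / l⌉ + 1 : ℤ) : ℝ) := by push_cast; linarith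
    show ⌊x k / l⌋ ≤ ⌈ρ / l⌉ + 1
    exact_mod_cast h5

/-- the first coordinate of `idx` -/
theorem idx_natAbs_lower {l : ℝ} (x y : Sp d) (c : Fin d) {D : ℕ}
    (h : (D : ℝ) + 1 ≤ |x c / l - y c / l|) : D ≤ (idx l x c - idx l y c).natAbs := by
  have h1 := Int.floor_le (x c / l)
  have h2 := Int.lt_floor_add_one (x c / l)
  have h3 := Int.floor_le (y c / l)
  have h4 := Int.lt_floor_add_one (y c / l)
  have h5 : (D : ℝ) ≤ |(⌊x c / l⌋ : ℝ) - ⌊y c / l⌋| := by
    rcases abs_cases (x c / l - y c / l) with h6 | h6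
    · refine le_trans ?_ (le_abs_self _); linarith
    · refine le_trans ?_ (neg_le_abs _); linarith
  have h6 : (D : ℝ) ≤ (((⌊x c / l⌋ - ⌊y c / l⌋).natAbs : ℕ) : ℝ) := by
    rw [Nat.cast_natAbs]; push_cast; exact h5
  exact_mod_cast h6

variable {Ω : Type*} [MeasurableSpace Ω] {P : Measure Ω} {Q : Ω → Set (Sp d)}

theorem RR_tail [NeZero d] [IsProbabilityMeasure P] (hQ : IsPoissonProcess P Q) (x : Sp d)
    {r : ℝ} (hr : 0 < r) :
    P {ω | Good (Q ω) ∧ r ≤ RR (Q ω) x} ≤ ENNReal.ofReal (Real.exp (-(r ^ d * kap d))) := by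
  rw [← hQ.void_ball x hr]
  apply measure_mono
  rintro ω ⟨h1, h2⟩
  exact void_of_le_RR h1 h2

/-- union bound over starting cubes near the origin -/
theorem box_occ_prob [IsProbabilityMeasure P] (hQ : IsPoissonProcess P Q) {l : ℝ} (hl : 0 < l)
    (hsmall : 5 ^ d * ENNReal.ofReal ((((d : ℝ) + 1) * l) ^ d * kap d) ≤ 1 / 8)
    (F : Finset (Fin d → ℤ)) (D K : ℕ) :
    P (⋃ a ∈ F, occEv Q l a D K) ≤ F.card * (2 * 2 ^ K * (1 / 8) ^ (D - K)) := by
  calc P (⋃ a ∈ F, occEv Q l a D K) ≤ ∑ a ∈ F, P (occEv Q l a D K) :=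
        measure_biUnion_finset_le F _
    _ ≤ ∑ a ∈ F, (2 * 2 ^ K * (1 / 8) ^ (D - K)) :=
        Finset.sum_le_sum fun a _ => occ_prob hQ hl hsmall a D K
    _ = _ := by simp

/-- the mean passage time grows at least linearly -/
theorem mean_lower (d : ℕ) [NeZero d] {α : ℝ} (hα : 1 ≤ α) : ∃ c : ℝ, 0 < c ∧ ∃ n₀ : ℝ, 0 < n₀ ∧
    ∀ {Ω : Type*} [MeasurableSpace Ω] (P : Measure Ω) [IsProbabilityMeasure P]
      (Q : Ω → Set (Sp d)), IsPoissonProcess P Q → ∀ n : ℝ, n₀ ≤ n →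
      c * n ≤ FF P Q α 0 (n • e1 d) := by
  have hα0 : 0 < α := by linarith
  have hd : (0:ℝ) < d := by exact_mod_cast Nat.pos_of_ne_zero (NeZero.ne d)
  have hκ := kap_pos d
  obtain ⟨l, hl, hl1, hsmall⟩ := exists_side d
  -- radius rho with small void probability
  obtain ⟨ρ, hρ, hρv⟩ : ∃ ρ : ℝ, 0 < ρ ∧ Real.exp (-(ρ ^ d * kap d)) ≤ 1 / 8 := by
    refine ⟨1 + 8 / kap d, by positivity, ?_⟩
    have h1 : (1 + 8 / kap d) ≤ (1 + 8 / kap d) ^ d :=
      le_self_pow₀ (by have : 0 < 8 / kap d := by positivity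
                       linarith) (NeZero.ne d)
    have h2 : 8 ≤ (1 + 8 / kap d) ^ d * kap d := by
      calc (8:ℝ) ≤ (1 + 8 / kap d) * kap d := by
            have : (1 + 8 / kap d) * kap d = kap d + 8 := by field_simp
            linarith
        _ ≤ _ := mul_le_mul_of_nonneg_right h1 hκ.le
    have h3 : (8:ℝ) ≤ Real.exp ((1 + 8 / kap d) ^ d * kap d) := by
      linarith [Real.add_one_le_exp ((1 + 8 / kap d) ^ d * kap d)]
    rw [Real.exp_neg, one_div]
    exact inv_anti₀ (by norm_num) h3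
  set F : Finset (Fin d → ℤ) := Finset.Icc (fun _ => -⌈ρ / l⌉ - 1) (fun _ => ⌈ρ / l⌉ + 1) with hF
  -- K0 large
  obtain ⟨K0, hK0⟩ : ∃ K0 : ℕ, ∀ K ≥ K0, (F.card : ℝ≥0∞) * (2 * 2 ^ K * (1 / 8) ^ (4 * K - K)) ≤
      1 / 8 := by
    have hconv : Filter.Tendsto (fun K : ℕ => (F.card : ℝ≥0∞) * 2 * (1 / 256) ^ K)
        Filter.atTop (nhds 0) := by
      have h1 : Filter.Tendsto (fun K : ℕ => ((1:ℝ≥0∞) / 256) ^ K) Filter.atTop (nhds 0) := by
        apply ENNReal.tendsto_pow_atTop_nhds_zero_of_lt_one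
        rw [one_div]
        exact ENNReal.inv_lt_one.mpr (by norm_num)
      have h2 := ENNReal.Tendsto.const_mul (a := (F.card : ℝ≥0∞) * 2) h1
        (Or.inr (ENNReal.mul_ne_top (ENNReal.natCast_ne_top _) (by norm_num)))
      simpa using h2
    have h8 : (0:ℝ≥0∞) < 1 / 8 := by
      rw [one_div]; exact ENNReal.inv_pos.mpr (by norm_num)
    obtain ⟨K0, hK0⟩ := Filter.eventually_atTop.mp (hconv.eventually (gt_mem_nhds h8))
    refine ⟨K0, fun K hK => ?_⟩
    have h3 := (hK0 K hK).le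
    refine le_trans (le_of_eq ?_) h3
    have h4 : 4 * K - K = 3 * K := by omega
    rw [h4, pow_mul]
    have h5 : ((1:ℝ≥0∞) / 8) ^ 3 = 1 / 512 := by
      rw [one_div, one_div, ← ENNReal.inv_pow]; norm_num
    rw [h5]
    have h6 : (2:ℝ≥0∞) ^ K * (1 / 512) ^ K = (1 / 256) ^ K := by
      rw [← mul_pow]
      congr 1
      rw [one_div, one_div, show (512:ℝ≥0∞) = 2 * 256 by norm_num, ENNReal.mul_inv (by norm_num)
        (by norm_num), ← mul_assoc, ENNReal.mul_inv_cancel (by norm_num) (by norm_num), one_mul]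
    calc (F.card : ℝ≥0∞) * (2 * 2 ^ K * (1 / 512) ^ K) =
        (F.card : ℝ≥0∞) * 2 * (2 ^ K * (1 / 512) ^ K) := by ring
      _ = _ := by rw [h6]
  -- choose constants
  set c : ℝ := l ^ α / d / 32 with hc
  have hc0 : 0 < c := by positivity
  refine ⟨c, hc0, max (4 * ρ + 4) (8 * (K0 : ℝ) + 32), by positivity, ?_⟩
  intro Ω _ P _ Q hQ n hn
  have hn1 : 4 * ρ + 4 ≤ n := (le_max_left _ _).trans hn
  have hn2 : 8 * (K0 : ℝ) + 32 ≤ n := (le_max_right _ _).trans hn
  have hn0 : 0 < n := by linarith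
  set K : ℕ := ⌊n / 8⌋₊ - 1 with hKdef
  have hfl := Nat.lt_floor_add_one (n / 8)
  have hfl2 := Nat.floor_le (show 0 ≤ n / 8 by positivity)
  have hfl3 : 2 ≤ ⌊n / 8⌋₊ := by
    apply Nat.le_floor; push_cast
    linarith [(Nat.cast_nonneg K0 : (0:ℝ) ≤ K0)]
  have hK1 : (K : ℝ) = ⌊n / 8⌋₊ - 1 := by
    rw [hKdef, Nat.cast_sub (by omega)]; norm_num
  have hKK0 : K0 ≤ K := by
    have : (K0 : ℝ) ≤ K := by rw [hK1]; linarith
    exact_mod_cast this
  have hKn : 4 * (K : ℝ) + 1 ≤ n - 2 * ρ := by rw [hK1]; linarith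
  have hKn2 : n / 16 ≤ K := by rw [hK1]; linarith [(Nat.cast_nonneg K0 : (0:ℝ) ≤ K0)]
  set t : ℝ := l ^ α / d * K with ht
  have ht0 : 0 ≤ t := by positivity
  -- the bad event
  have hbad : P {ω | Good (Q ω) ∧ passageTime α (Q ω) 0 (n • e1 d) < t} ≤ 3 / 8 := by
    have hsub : {ω | Good (Q ω) ∧ passageTime α (Q ω) 0 (n • e1 d) < t} ⊆
        {ω | Good (Q ω) ∧ ρ ≤ RR (Q ω) 0} ∪ ({ω | Good (Q ω) ∧ ρ ≤ RR (Q ω) (n • e1 d)} ∪
          ⋃ a ∈ F, occEv Q l a (4 * K) K) := by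
      rintro ω ⟨hA, hT⟩
      by_cases h1 : ρ ≤ RR (Q ω) 0
      · exact Or.inl ⟨hA, h1⟩
      by_cases h2 : ρ ≤ RR (Q ω) (n • e1 d)
      · exact Or.inr (Or.inl ⟨hA, h2⟩)
      push Not at h1 h2
      refine Or.inr (Or.inr ?_)
      have hq := hA.closest_spec (0 : Sp d)
      have hr := hA.closest_spec (n • e1 d)
      obtain ⟨k, hk, p, h0, hpk, hpA, hcost⟩ := exists_chain_lt hq.1 hr.1
        (c := fun v : Sp d => ‖v‖ ^ α) hT
      have hocc : ω ∈ occEv Q l (idx l (p 0)) (4 * K) K := by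
        apply chain_occ hl hα hpA hcost.le
        refine ⟨0, ?_⟩
        apply idx_natAbs_lower
        rw [h0, hpk]
        -- the first coordinates are far apart
        have b1 : |(closest (Q ω) (0 : Sp d)) 0| < ρ := by
          refine lt_of_le_of_lt (abs_coord_le_norm _ 0) ?_
          unfold RR at h1
          rwa [dist_zero_right] at h1
        have b2 : |(closest (Q ω) (n • e1 d)) 0 - n| < ρ := by
          have h3 := abs_coord_le_norm (closest (Q ω) (n • e1 d) - n • e1 d) 0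
          unfold RR at h2
          rw [dist_eq_norm] at h2
          have h4 : (closest (Q ω) (n • e1 d) - n • e1 d) 0 =
              (closest (Q ω) (n • e1 d)) 0 - n := by
            simp [e1, PiLp.single_apply]
          rw [h4] at h3
          linarith
        rw [← sub_div, abs_div, abs_of_pos hl, le_div_iff₀ hl]
        have b3 : n - 2 * ρ ≤ |(closest (Q ω) (n • e1 d)) 0 - (closest (Q ω) (0 : Sp d)) 0| := by
          refine le_trans ?_ (le_abs_self _)
          have := abs_lt.mp b1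
          have := abs_lt.mp b2
          linarith
        have b4 : ((4 * K : ℕ) + 1 : ℝ) * l ≤ ((4 * K : ℕ) + 1 : ℝ) * 1 := by gcongr
        push_cast at b4 ⊢
        linarith
      have hmem : idx l (p 0) ∈ F := by
        apply idx_mem_box hl
        rw [h0]
        unfold RR at h1
        rw [dist_zero_right] at h1
        exact h1.le
      exact Set.mem_biUnion hmem hocc
    refine (measure_mono hsub).trans ((measure_union_le _ _).trans ?_)
    have p1 : P {ω | Good (Q ω) ∧ ρ ≤ RR (Q ω) 0} ≤ 1 / 8 := by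
      refine (RR_tail hQ 0 hρ).trans ?_
      calc ENNReal.ofReal (Real.exp (-(ρ ^ d * kap d))) ≤ ENNReal.ofReal (1 / 8) :=
            ENNReal.ofReal_le_ofReal hρv
        _ = 1 / 8 := by rw [ENNReal.ofReal_div_of_pos (by norm_num)]; norm_num
    have p2 : P {ω | Good (Q ω) ∧ ρ ≤ RR (Q ω) (n • e1 d)} ≤ 1 / 8 := by
      refine (RR_tail hQ _ hρ).trans ?_
      calc ENNReal.ofReal (Real.exp (-(ρ ^ d * kap d))) ≤ ENNReal.ofReal (1 / 8) :=
            ENNReal.ofReal_le_ofReal hρv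
        _ = 1 / 8 := by rw [ENNReal.ofReal_div_of_pos (by norm_num)]; norm_num
    have p3 : P (⋃ a ∈ F, occEv Q l a (4 * K) K) ≤ 1 / 8 :=
      (box_occ_prob hQ hl hsmall F (4 * K) K).trans (hK0 K hKK0)
    calc P {ω | Good (Q ω) ∧ ρ ≤ RR (Q ω) 0} + P ({ω | Good (Q ω) ∧ ρ ≤ RR (Q ω) (n • e1 d)} ∪
          ⋃ a ∈ F, occEv Q l a (4 * K) K) ≤ 1 / 8 + (1 / 8 + 1 / 8) :=
          add_le_add p1 ((measure_union_le _ _).trans (add_le_add p2 p3))
      _ = 3 / 8 := by
          rw [← ENNReal.add_div, ← ENNReal.add_div]; norm_num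
  -- Markov
  have hT := passageTime_integrable hQ hα0 0 (n • e1 d)
  have hgood : 1 / 2 ≤ (P {ω | t ≤ passageTime α (Q ω) 0 (n • e1 d)}).toReal := by
    have hcompl : (P {ω | t ≤ passageTime α (Q ω) 0 (n • e1 d)}ᶜ) ≤ 3 / 8 := by
      refine le_trans ?_ hbad
      apply measure_mono_ae
      filter_upwards [hQ.ae_good] with ω hA h
      refine ⟨hA, ?_⟩
      have h' : ¬ (t ≤ passageTime α (Q ω) 0 (n • e1 d)) := h
      exact not_le.mp h'
    have hns : NullMeasurableSet {ω | t ≤ passageTime α (Q ω) 0 (n • e1 d)} P :=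
      nullMeasurableSet_le aemeasurable_const hT.aemeasurable
    have hadd := measure_add_measure_compl₀ hns
    rw [measure_univ] at hadd
    have h38 : ((3:ℝ≥0∞) / 8).toReal = 3 / 8 := by
      rw [ENNReal.toReal_div]; norm_num
    have hc1 : (P {ω | t ≤ passageTime α (Q ω) 0 (n • e1 d)}ᶜ).toReal ≤ 3 / 8 := by
      rw [← h38]
      exact ENNReal.toReal_mono (ENNReal.div_ne_top (by norm_num) (by norm_num)) hcompl
    have hreal : (P {ω | t ≤ passageTime α (Q ω) 0 (n • e1 d)}).toReal +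
        (P {ω | t ≤ passageTime α (Q ω) 0 (n • e1 d)}ᶜ).toReal = 1 := by
      rw [← ENNReal.toReal_add (measure_ne_top _ _) (measure_ne_top _ _), hadd]
      norm_num
    linarith
  have hmarkov := mul_meas_ge_le_integral_of_nonneg
    (Filter.Eventually.of_forall fun ω => passageTime_nonneg (α := α) (Q ω) 0 (n • e1 d)) hT t
  have hfin : t * (1 / 2) ≤ FF P Q α 0 (n • e1 d) := by
    refine le_trans ?_ hmarkov
    exact mul_le_mul_of_nonneg_left hgood ht0
  refine le_trans ?_ hfin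
  rw [ht, hc]
  have h9 : 0 < l ^ α / d := by positivity
  calc l ^ α / d / 32 * n = l ^ α / d * (n / 16) * (1 / 2) := by ring
    _ ≤ l ^ α / d * K * (1 / 2) := by gcongr

end Pool.Agent.Helper322.EFPP
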