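import Pool.Agent.Helper322.EFPP.FinDer

/-!
# Scaling, and the derivative in the intensity of finite volume functionals
-/

namespace Pool.Agent.Helper322.EFPP

open MeasureTheory Set ProbabilityTheory Metric TopologicalSpace Filter Topology
open scoped ENNReal

variable {d : ℕ}

/-- dilation -/
noncomputable def scl (c : ℝ) (hc : c ≠ 0) : Sp d ≃ Sp d where
  toFun x := c • x
  invFun x := c⁻¹ • x
  left_inv x := by simp [smul_smul, inv_mul_cancel₀ hc]
  right_inv x := by simp [smul_smul, mul_inv_cancel₀ hc]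

theorem scl_apply (c : ℝ) (hc : c ≠ 0) (x : Sp d) : scl c hc x = c • x := rfl

theorem scl_dist {c : ℝ} (hc : 0 < c) (x y : Sp d) :
    dist (scl c hc.ne' x) (scl c hc.ne' y) = c * dist x y := by
  rw [scl_apply, scl_apply, dist_smul₀, Real.norm_of_nonneg hc.le]

theorem good_scl {A : Set (Sp d)} (hA : Good A) {c : ℝ} (hc : 0 < c) :
    Good (scl c hc.ne' '' A) := by
  apply hA.image
  intro x r
  obtain ⟨y, hy⟩ := (scl c hc.ne').surjective x
  apply (isBounded_closedBall (x := y) (r := r / c)).subset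
  intro z hz
  rw [Set.mem_preimage, mem_closedBall, ← hy, scl_dist hc] at hz
  rw [mem_closedBall, le_div_iff₀ hc]
  linarith

theorem isClosest_scl {A : Set (Sp d)} {c : ℝ} (hc : 0 < c) (x q : Sp d) :
    IsClosest (scl c hc.ne' '' A) (scl c hc.ne' x) (scl c hc.ne' q) ↔ IsClosest A x q := by
  constructor
  · rintro ⟨⟨a, ha, haq⟩, h⟩
    have : a = q := (scl c hc.ne').injective haq
    subst this
    refine ⟨ha, fun b hb => ?_⟩
    have := h _ ⟨b, hb, rfl⟩
    rw [scl_dist hc, scl_dist hc] at this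
    exact le_of_mul_le_mul_left this hc
  · rintro ⟨hq, h⟩
    refine ⟨⟨q, hq, rfl⟩, ?_⟩
    rintro _ ⟨b, hb, rfl⟩
    rw [scl_dist hc, scl_dist hc]
    exact mul_le_mul_of_nonneg_left (h b hb) hc.le

theorem unique_scl {A : Set (Sp d)} {c : ℝ} (hc : 0 < c) {x : Sp d} (hx : UniqueAt A x) :
    UniqueAt (scl c hc.ne' '' A) (scl c hc.ne' x) := by
  intro q q' hq hq'
  obtain ⟨a, ha, rfl⟩ := hq.1
  obtain ⟨a', ha', rfl⟩ := hq'.1
  rw [isClosest_scl hc] at hq hq'
  rw [hx a a' hq hq']

theorem closest_scl {A : Set (Sp d)} (hA : Good A) {c : ℝ} (hc : 0 < c) {x : Sp d}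
    (hx : UniqueAt A x) :
    closest (scl c hc.ne' '' A) (scl c hc.ne' x) = scl c hc.ne' (closest A x) := by
  have h1 := (good_scl hA hc).closest_spec (scl c hc.ne' x)
  have h2 := (isClosest_scl hc x _).mpr (hA.closest_spec x)
  exact unique_scl hc hx _ _ h1 h2

theorem DD_const_mul {c : Sp d → ℝ} (hc : ∀ v, 0 ≤ c v) {a : ℝ} (ha : 0 < a) {A : Set (Sp d)}
    {q q' : Sp d} (hq : q ∈ A) (hq' : q' ∈ A) :
    DD (fun v => a * c v) A q q' = a * DD c A q q' := by
  have hac : ∀ v, 0 ≤ (fun v => a * c v) v := fun v => mul_nonneg ha.le (hc v)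
  apply le_antisymm
  · have := DD_semiconc (c0 := fun v => a * c v) (c1 := fun v => a * c v) (c2 := c)
      hac hac (a := 1) (b := 0) (κ := a) zero_le_one le_rfl ha (fun v => by simp) hq hq'
    simpa using this
  · have := DD_semiconc (c0 := c) (c1 := c) (c2 := fun v => a * c v)
      hc hc (a := a) (b := 0) (κ := 1) ha.le le_rfl one_pos (fun v => by simp) hq hq'
    simpa using this

theorem passageTime_scl {α : ℝ} {A : Set (Sp d)} (hA : Good A) {c : ℝ} (hc : 0 < c)
    {x y : Sp d} (hx : UniqueAt A x) (hy : UniqueAt A y) :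
    passageTime α (scl c hc.ne' '' A) (scl c hc.ne' x) (scl c hc.ne' y) =
      c ^ α * passageTime α A x y := by
  unfold passageTime
  rw [closest_scl hA hc hx, closest_scl hA hc hy, chainInf_eq, chainInf_eq]
  rw [DD_map (fun v : Sp d => ‖v‖ ^ α) (fun v : Sp d => c ^ α * ‖v‖ ^ α) (scl c hc.ne')
    (fun a b => by
      rw [scl_apply, scl_apply, ← smul_sub, norm_smul, Real.norm_of_nonneg hc.le,
        Real.mul_rpow hc.le (norm_nonneg _)]) A]
  exact DD_const_mul (c := fun v : Sp d => ‖v‖ ^ α) (fun v => by positivity)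
    (Real.rpow_pos_of_pos hc α) (hA.closest_spec x).1 (hA.closest_spec y).1

variable {Ω : Type*} [MeasurableSpace Ω] {P : Measure Ω} {Q : Ω → Set (Sp d)}

theorem isVoid_scl (hQ : IsPoissonProcess P Q) {c : ℝ} (hc : 0 < c) :
    IsVoid P (fun ω => scl c hc.ne' '' (Q ω)) ((c ^ d)⁻¹) := by
  intro B hB hv
  have hm : Measurable (scl c hc.ne' : Sp d → Sp d) := (continuous_const_smul c).measurable
  have e : {ω | scl c hc.ne' '' (Q ω) ∩ B = ∅} = {ω | Q ω ∩ (scl c hc.ne') ⁻¹' B = ∅} := by
    ext ω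
    rw [Set.mem_ofPred_eq, Set.mem_ofPred_eq, ← Set.image_inter_preimage, Set.image_eq_empty]
  have hvol : volume ((scl c hc.ne') ⁻¹' B) = ENNReal.ofReal ((c ^ d)⁻¹) * volume B := by
    have := Measure.addHaar_preimage_smul (volume : Measure (Sp d)) hc.ne' B
    rw [finrank_euclideanSpace_fin, abs_of_pos (by positivity)] at this
    exact this
  have hne : volume ((scl c hc.ne') ⁻¹' B) ≠ ⊤ := by
    rw [hvol]; exact ENNReal.mul_ne_top ENNReal.ofReal_ne_top hv
  rw [e]
  refine ⟨hQ.meas_void (hm hB), ?_⟩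
  rw [hQ.void_prob (hm hB) hne, hvol, ENNReal.toReal_mul, ENNReal.toReal_ofReal (by positivity)]

/-- differentiability in the intensity of a finite volume functional, with a bound -/
theorem finite_volume_deriv [IsProbabilityMeasure P] {QQ : ℝ → Ω → Set (Sp d)}
    (hQQ : ∀ lam : ℝ, 0 < lam → IsVoid P (QQ lam) lam)
    {W : Set (Sp d)} (hW : MeasurableSet W) (h0 : volume W ≠ 0) (h1 : volume W ≠ ⊤)
    {F : Config d → ℝ} (hF : Measurable F) {M : ℝ} (hM : ∀ A, |F A| ≤ M)
    (hFW : ∀ A, F (restr W A) = F A) {lam : ℝ} (hl : 0 < lam) {θ : ℝ} (hθ : 0 < θ) :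
    ∃ D : ℝ, HasDerivAt (fun y => ∫ ω, F (toConfig (QQ y) ω) ∂P) D lam ∧
      |D| ≤ θ / 2 * ((volume W).toReal / lam) +
        1 / (2 * θ) * (M * ∫ ω, |F (toConfig (QQ lam) ω)| ∂P) := by
  have hV : 0 ≤ (volume W).toReal := ENNReal.toReal_nonneg
  set V := (volume W).toReal with hVdef
  have hM0 : 0 ≤ M := (abs_nonneg _).trans (hM (show Config d from (∅ : Set (Sp d))))
  have ha : ∀ k, |coef W F k| ≤ M := fun k => coef_bound h0 h1 hM k
  refine ⟨∑' k, pwt V lam k * ((k : ℝ) / lam - V) * coef W F k, ?_, ?_⟩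
  · have h := hasDerivAt_series hV hl ha
    apply h.congr_of_eventuallyEq
    filter_upwards [lt_mem_nhds hl] with y hy
    exact (expect_series hy.le (hQQ y hy) hW h0 h1 hF hM hFW).tsum_eq.symm
  · refine (series_deriv_bound hV hl hθ ha).trans ?_
    have hF' : Measurable (fun A => |F A|) := by
      simp_rw [← Real.norm_eq_abs]; exact hF.norm
    have habs := expect_series hl.le (hQQ lam hl) hW h0 h1 (F := fun A => |F A|) hF' (M := M)
      (fun A => by rw [abs_abs]; exact hM A) (fun A => by simp only [hFW])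
    have hsum := habs.mul_left M
    have hle : ∑' k, pwt V lam k * (coef W F k) ^ 2 ≤ M * ∫ ω, |F (toConfig (QQ lam) ω)| ∂P := by
      rw [← hsum.tsum_eq]
      apply Summable.tsum_le_tsum _ _ hsum.summable
      · intro k
        have hp := pwt_nonneg hV hl.le k
        have h2 : |coef W F k| ≤ coef W (fun A => |F A|) k := by
          unfold coef
          exact abs_integral_le_integral_abs
        have h3 : (coef W F k) ^ 2 ≤ M * coef W (fun A => |F A|) k := by
          rw [← sq_abs, sq]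
          exact mul_le_mul (ha k) h2 (abs_nonneg _) hM0
        calc pwt V lam k * (coef W F k) ^ 2 ≤ pwt V lam k * (M * coef W (fun A => |F A|) k) :=
              mul_le_mul_of_nonneg_left h3 hp
          _ = M * (pwt V lam k * coef W (fun A => |F A|) k) := by ring
      · have h := (hasSum_pwt_pow V lam 1).summable.mul_right (M ^ 2)
        apply Summable.of_nonneg_of_le _ _ h
        · intro k; exact mul_nonneg (pwt_nonneg hV hl.le k) (sq_nonneg _)
        · intro k
          rw [one_pow, mul_one]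
          apply mul_le_mul_of_nonneg_left _ (pwt_nonneg hV hl.le k)
          rw [← sq_abs]
          exact pow_le_pow_left₀ (abs_nonneg _) (ha k) 2
    gcongr

end Pool.Agent.Helper322.EFPP
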