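import Pool.Agent.Helper322.EFPP.OneDim

/-!
# The increments of the mean passage time converge to the time constant
-/

namespace Pool.Agent.Helper322.EFPP

open MeasureTheory Set ProbabilityTheory Metric TopologicalSpace Filter Topology
open scoped ENNReal

variable {d : ℕ}

theorem stretch_e1' [NeZero d] {j : Fin d} (hj : j ≠ (0 : Fin d)) (s n : ℝ) :
    stretch hj s (n • e1 d) = (Real.exp (-s) * n) • e1 d := by
  ext k
  rw [stretch_apply, stretchL_apply]
  simp only [e1, PiLp.smul_apply, smul_eq_mul, PiLp.single_apply]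
  by_cases hk : k = 0
  · subst hk
    simp [wt, hj.symm]
  · simp [hk]

variable {Ω : Type*} [MeasurableSpace Ω] {P : Measure Ω} [IsProbabilityMeasure P]
  {Q : Ω → Set (Sp d)}

theorem slopes [NeZero d] (hQ : IsPoissonProcess P Q) {α : ℝ} (hα : 1 < α) :
    ∃ L : ℝ, 0 < L ∧ Tendsto (fun t : ℝ => meanTime P Q α t / t) atTop (𝓝 L) ∧
      (∀ t : ℝ, 0 < t → L ≤ meanTime P Q α t / t) ∧
      ∀ ε : ℝ, 0 < ε → ∃ n₁ : ℝ, 0 < n₁ ∧ ∀ n m : ℝ, n₁ ≤ n → n ≤ m →
        (L - ε) * (m - n) ≤ meanTime P Q α m - meanTime P Q α n ∧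
        meanTime P Q α m - meanTime P Q α n ≤ (L + ε) * (m - n) := by
  have hα0 : 0 < α := by linarith
  obtain ⟨M, hM⟩ := meanTime_reg hQ hα0
  obtain ⟨L, hL, hLle⟩ := hM.tendsto
  -- positivity
  obtain ⟨c, hc, n₀, hn₀, hlow⟩ := mean_lower d hα.le
  have hLpos : 0 < L := by
    refine lt_of_lt_of_le hc ?_
    apply ge_of_tendsto hL
    filter_upwards [eventually_ge_atTop n₀] with t ht
    rw [le_div_iff₀ (by linarith)]
    exact hlow P Q hQ t ht
  refine ⟨L, hLpos, hL, hLle, ?_⟩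
  intro ε hε
  rcases Nat.lt_or_ge 1 d with hd | hd
  · -- dimension at least two
    have hj : (0 : Fin d) ≠ ⟨1, hd⟩ := by
      intro h
      have h2 := congrArg Fin.val h
      rw [Fin.val_zero] at h2
      exact absurd h2 (by norm_num)
    obtain ⟨C, hC, hmain⟩ := main_ineq d hj hα0
    obtain ⟨C', hC', hmain'⟩ := main_ineq d hj.symm hα0
    set δ₀ : ℝ := min (1/2) (1/α) with hδ₀
    have hδ₀0 : 0 < δ₀ := lt_min (by norm_num) (by positivity)
    have hK : 0 ≤ 6 * α + α ^ 2 := by positivity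
    have hαδ : ∀ δ : ℝ, δ ≤ δ₀ → α * δ ≤ 1 := by
      intro δ hδ
      have h1 : δ ≤ 1/α := hδ.trans (min_le_right _ _)
      rw [le_div_iff₀ hα0] at h1
      linarith
    obtain ⟨n₁, hn₁, h1⟩ := slope_lower (f := meanTime P Q α) (C := C) (K := 6 * α + α ^ 2)
      hL hLpos hC.le hK hδ₀0 (by
        intro n h δ _ hh hhδ hδ
        have := hmain P Q hQ 0 (n • e1 d) h δ hh hhδ (hδ.trans (min_le_left _ _)) (hαδ δ hδ)
        rw [stretch_zero', stretch_zero', stretch_e1, stretch_e1] at this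
        exact this) hε
    obtain ⟨n₂, hn₂, h2⟩ := slope_upper (f := meanTime P Q α) (C := C') (K := 6 * α + α ^ 2)
      hL hLpos hC'.le hK hδ₀0 (by
        intro n h δ _ hh hhδ hδ
        have := hmain' P Q hQ 0 (n • e1 d) h δ hh hhδ (hδ.trans (min_le_left _ _)) (hαδ δ hδ)
        rw [stretch_zero', stretch_zero', stretch_e1', stretch_e1'] at this
        exact this) hε
    refine ⟨max n₁ n₂, lt_max_of_lt_left hn₁, ?_⟩
    intro n m hn hnm
    exact ⟨h1 n m ((le_max_left _ _).trans hn) hnm, h2 n m ((le_max_right _ _).trans hn) hnm⟩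
  · -- dimension one
    have hd1 : d = 1 := le_antisymm hd NeZero.one_le
    subst hd1
    refine ⟨1, one_pos, ?_⟩
    intro n m hn hnm
    have e1 : meanTime P Q α m = L * m := meanTime_linear hQ hα.le hL (by linarith)
    have e2 : meanTime P Q α n = L * n := meanTime_linear hQ hα.le hL (by linarith)
    rw [e1, e2, ← mul_sub]
    have : 0 ≤ ε * (m - n) := mul_nonneg hε.le (by linarith)
    constructor <;> nlinarith

end Pool.Agent.Helper322.EFPP
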