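import Pool.Agent.Helper322.EFPP.Chain

/-!
# The volume preserving stretch maps
-/

namespace Pool.Agent.Helper322.EFPP

open Finset MeasureTheory

variable {d : ℕ}

/-- the weights of the stretch map: `e^s` in coordinate `i`, `e^{-s}` in coordinate `j` -/
noncomputable def wt (i j : Fin d) (s : ℝ) (k : Fin d) : ℝ :=
  if k = i then Real.exp s else if k = j then Real.exp (-s) else 1

theorem wt_pos (i j : Fin d) (s : ℝ) (k : Fin d) : 0 < wt i j s k := by
  unfold wt; split_ifs <;> positivity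

/-- the stretch map -/
noncomputable def stretchL (i j : Fin d) (s : ℝ) : Sp d →ₗ[ℝ] Sp d :=
  Matrix.toEuclideanLin (Matrix.diagonal (wt i j s))

theorem stretchL_apply (i j : Fin d) (s : ℝ) (v : Sp d) (k : Fin d) :
    stretchL i j s v k = wt i j s k * v k := by
  simp [stretchL, Matrix.toLpLin_apply, Matrix.mulVec_diagonal]

theorem stretchL_det {i j : Fin d} (hij : i ≠ j) (s : ℝ) :
    LinearMap.det (stretchL i j s) = 1 := by
  have h0 : stretchL i j s = Matrix.toLin (PiLp.basisFun 2 ℝ (Fin d)) (PiLp.basisFun 2 ℝ (Fin d))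
      (Matrix.diagonal (wt i j s)) := rfl
  rw [h0, LinearMap.det_toLin, Matrix.det_diagonal]
  have h1 : ∏ k, wt i j s k = wt i j s i * wt i j s j := by
    rw [← Finset.prod_subset (Finset.subset_univ {i, j}), Finset.prod_pair hij]
    intro x _ hx
    simp only [Finset.mem_insert, Finset.mem_singleton, not_or] at hx
    simp [wt, hx.1, hx.2]
  rw [h1]
  simp only [wt, if_true, if_neg hij.symm]
  rw [← Real.exp_add]; simp

theorem wt_mul (i j : Fin d) (s t : ℝ) (k : Fin d) :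
    wt i j s k * wt i j t k = wt i j (s + t) k := by
  unfold wt
  split_ifs with h1 h2
  · rw [Real.exp_add]
  · rw [← Real.exp_add]; congr 1; ring
  · simp

theorem wt_zero (i j : Fin d) (k : Fin d) : wt i j 0 k = 1 := by
  unfold wt; split_ifs <;> simp

/-- the stretch map as a bijection -/
noncomputable def stretch {i j : Fin d} (hij : i ≠ j) (s : ℝ) : Sp d ≃ Sp d where
  toFun := stretchL i j s
  invFun := stretchL i j (-s)
  left_inv v := by
    ext k
    rw [stretchL_apply, stretchL_apply, ← mul_assoc, wt_mul _ _ _ _ _]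
    simp [wt_zero]
  right_inv v := by
    ext k
    rw [stretchL_apply, stretchL_apply, ← mul_assoc, wt_mul _ _ _ _ _]
    simp [wt_zero]

theorem stretch_apply {i j : Fin d} (hij : i ≠ j) (s : ℝ) (v : Sp d) :
    stretch hij s v = stretchL i j s v := rfl

theorem stretch_volume {i j : Fin d} (hij : i ≠ j) (s : ℝ) (B : Set (Sp d)) :
    volume ((stretch hij s) ⁻¹' B) = volume B := by
  have h := Measure.addHaar_preimage_linearMap (volume : Measure (Sp d))
    (f := stretchL i j s) (by rw [stretchL_det hij]; exact one_ne_zero) B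
  rw [stretchL_det hij] at h
  change volume ((stretchL i j s) ⁻¹' B) = volume B
  simpa using h

theorem stretch_measurable {i j : Fin d} (hij : i ≠ j) (s : ℝ) :
    Measurable (stretch hij s : Sp d → Sp d) :=
  (stretchL i j s).continuous_of_finiteDimensional.measurable

theorem norm_sq_stretchL (i j : Fin d) (s : ℝ) (v : Sp d) :
    ‖stretchL i j s v‖ ^ 2 = ∑ k, (wt i j s k) ^ 2 * (v k) ^ 2 := by
  rw [EuclideanSpace.norm_sq_eq]
  apply Finset.sum_congr rfl
  intro k _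
  rw [stretchL_apply, Real.norm_eq_abs, sq_abs]; ring

theorem wt_le (i j : Fin d) (s t : ℝ) (k : Fin d) :
    wt i j s k ≤ Real.exp |s - t| * wt i j t k := by
  unfold wt
  split_ifs with h1 h2
  · rw [← Real.exp_add]; apply Real.exp_le_exp.mpr; linarith [le_abs_self (s - t)]
  · rw [← Real.exp_add]; apply Real.exp_le_exp.mpr; linarith [neg_abs_le (s - t)]
  · rw [mul_one]; exact Real.one_le_exp (abs_nonneg _)

theorem norm_stretchL_le (i j : Fin d) (s t : ℝ) (v : Sp d) :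
    ‖stretchL i j s v‖ ≤ Real.exp |s - t| * ‖stretchL i j t v‖ := by
  apply le_of_sq_le_sq _ (by positivity)
  rw [mul_pow, norm_sq_stretchL, norm_sq_stretchL, Finset.mul_sum]
  apply Finset.sum_le_sum
  intro k _
  have h1 : (wt i j s k) ^ 2 ≤ (Real.exp |s - t| * wt i j t k) ^ 2 :=
    pow_le_pow_left₀ (wt_pos _ _ _ _).le (wt_le i j s t k) 2
  rw [mul_pow] at h1
  rw [← mul_assoc]
  exact mul_le_mul_of_nonneg_right h1 (sq_nonneg _)

theorem stretchL_zero (i j : Fin d) (v : Sp d) : stretchL i j 0 v = v := by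
  ext k; rw [stretchL_apply, wt_zero, one_mul]

/-- weights inequality -/
theorem wt_semiconc (i j : Fin d) {h δ : ℝ} (hh : 0 < h) (hδ : h ≤ δ) (hδ1 : δ ≤ 1/2)
    (k : Fin d) :
    (1 - h/δ) * (wt i j 0 k) ^ 2 + (h/δ) * (wt i j δ k) ^ 2 ≤
      (1 + 12 * h * δ) * (wt i j h k) ^ 2 := by
  have hδ0 : 0 < δ := hh.trans_le hδ
  have hθ0 : 0 ≤ h / δ := by positivity
  have hθδ : h / δ * δ = h := by field_simp
  rw [wt_zero]
  unfold wt
  split_ifs with h1 h2
  · have e1 : Real.exp δ ^ 2 = Real.exp (2 * δ) := by rw [← Real.exp_nat_mul]; norm_num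
    have e2 : Real.exp h ^ 2 = Real.exp (2 * h) := by rw [← Real.exp_nat_mul]; norm_num
    rw [e1, e2]
    have h3 := Real.abs_exp_sub_one_sub_id_le (x := 2 * δ) (by rw [abs_of_pos] <;> linarith)
    have h4 : Real.exp (2 * δ) ≤ 1 + 2 * δ + (2 * δ) ^ 2 := by
      linarith [(abs_le.mp h3).2]
    have h5 : 1 + 2 * h ≤ Real.exp (2 * h) := by linarith [Real.add_one_le_exp (2 * h)]
    have h6 : 1 ≤ Real.exp (2 * h) := by linarith
    have h7 : (h / δ) * Real.exp (2 * δ) ≤ (h / δ) * (1 + 2 * δ + (2 * δ) ^ 2) := by gcongr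
    have h8 : (h / δ) * (1 + 2 * δ + (2 * δ) ^ 2) = h / δ + 2 * h + 4 * h * δ := by
      have : (h / δ) * (1 + 2 * δ + (2 * δ) ^ 2) = h / δ + 2 * (h / δ * δ) + 4 * (h / δ * δ) * δ := by
        ring
      rw [this, hθδ]
    have h9 : 12 * h * δ * 1 ≤ 12 * h * δ * Real.exp (2 * h) := by gcongr
    have h10 : 0 < h * δ := by positivity
    nlinarith
  · have e1 : Real.exp (-δ) ^ 2 = Real.exp (-(2 * δ)) := by
      rw [← Real.exp_nat_mul]; congr 1; push_cast; ring
    have e2 : Real.exp (-h) ^ 2 = Real.exp (-(2 * h)) := by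
      rw [← Real.exp_nat_mul]; congr 1; push_cast; ring
    rw [e1, e2]
    have h3 := Real.abs_exp_sub_one_sub_id_le (x := -(2 * δ)) (by
      rw [abs_neg, abs_of_pos] <;> linarith)
    have h4 : Real.exp (-(2 * δ)) ≤ 1 - 2 * δ + (2 * δ) ^ 2 := by
      have := (abs_le.mp h3).2
      nlinarith
    have h5 : 1 - 2 * h ≤ Real.exp (-(2 * h)) := by linarith [Real.add_one_le_exp (-(2 * h))]
    have h6 : (1:ℝ)/3 ≤ Real.exp (-(2 * h)) := by
      have : Real.exp (-1) ≤ Real.exp (-(2 * h)) := Real.exp_le_exp.mpr (by linarith)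
      have h61 : (1:ℝ)/3 ≤ Real.exp (-1) := by
        have := Real.exp_one_lt_d9
        rw [Real.exp_neg, one_div]
        apply inv_anti₀ (Real.exp_pos 1); linarith
      linarith
    have h7 : (h / δ) * Real.exp (-(2 * δ)) ≤ (h / δ) * (1 - 2 * δ + (2 * δ) ^ 2) := by gcongr
    have h8 : (h / δ) * (1 - 2 * δ + (2 * δ) ^ 2) = h / δ - 2 * h + 4 * h * δ := by
      have : (h / δ) * (1 - 2 * δ + (2 * δ) ^ 2) = h / δ - 2 * (h / δ * δ) + 4 * (h / δ * δ) * δ := by
        ring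
      rw [this, hθδ]
    have h10 : 0 < h * δ := by positivity
    have h9 : 12 * h * δ * (1/3) ≤ 12 * h * δ * Real.exp (-(2 * h)) := by gcongr
    nlinarith
  · have h10 : 0 < h * δ := by positivity
    nlinarith

theorem norm_sq_semiconc (i j : Fin d) {h δ : ℝ} (hh : 0 < h) (hδ : h ≤ δ) (hδ1 : δ ≤ 1/2)
    (v : Sp d) :
    (1 - h/δ) * ‖stretchL i j 0 v‖ ^ 2 + (h/δ) * ‖stretchL i j δ v‖ ^ 2 ≤
      (1 + 12 * h * δ) * ‖stretchL i j h v‖ ^ 2 := by
  rw [norm_sq_stretchL, norm_sq_stretchL, norm_sq_stretchL, Finset.mul_sum, Finset.mul_sum,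
    Finset.mul_sum, ← Finset.sum_add_distrib]
  apply Finset.sum_le_sum
  intro k _
  have := mul_le_mul_of_nonneg_right (wt_semiconc i j hh hδ hδ1 k) (sq_nonneg (v k))
  nlinarith

/-- scalar version of the semiconcavity of `x ↦ x^γ` along the family -/
theorem rpow_semiconc {γ h δ N0 N1 N2 K : ℝ} (hγ : 0 < γ) (hh : 0 < h) (hδ : h ≤ δ)
    (hγδ : 2 * γ * δ ≤ 1) (hK : 0 ≤ K)
    (h0 : 0 < N0) (h1 : 0 < N1) (h2 : 0 < N2)
    (h01 : N0 ≤ Real.exp (2 * h) * N2) (h01' : N2 ≤ Real.exp (2 * h) * N0)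
    (h12 : N1 ≤ Real.exp (2 * (δ - h)) * N2) (h12' : N2 ≤ Real.exp (2 * (δ - h)) * N1)
    (hconv : (1 - h/δ) * N0 + (h/δ) * N1 ≤ (1 + K * h * δ) * N2) :
    (1 - h/δ) * N0 ^ γ + (h/δ) * N1 ^ γ ≤ (1 + (γ * K + 4 * γ ^ 2) * (h * δ)) * N2 ^ γ := by
  have hδ0 : 0 < δ := hh.trans_le hδ
  have hθ0 : 0 ≤ h / δ := by positivity
  have hθ1 : h / δ ≤ 1 := (div_le_one hδ0).mpr hδ
  have hθδ : h / δ * δ = h := by field_simp
  set θ := h / δ with hθ
  set y0 := Real.log (N0 / N2) with hy0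
  set y1 := Real.log (N1 / N2) with hy1
  have e0 : Real.exp y0 = N0 / N2 := Real.exp_log (by positivity)
  have e1 : Real.exp y1 = N1 / N2 := Real.exp_log (by positivity)
  have b0 : |y0| ≤ 2 * h := by
    rw [abs_le]
    constructor
    · rw [hy0, Real.le_log_iff_exp_le (by positivity), le_div_iff₀ h2, Real.exp_neg,
        inv_mul_le_iff₀ (Real.exp_pos _)]
      exact h01'
    · rw [hy0, Real.log_le_iff_le_exp (by positivity), div_le_iff₀ h2]
      exact h01
  have b1 : |y1| ≤ 2 * (δ - h) := by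
    rw [abs_le]
    constructor
    · rw [hy1, Real.le_log_iff_exp_le (by positivity), le_div_iff₀ h2, Real.exp_neg,
        inv_mul_le_iff₀ (Real.exp_pos _)]
      exact h12'
    · rw [hy1, Real.log_le_iff_le_exp (by positivity), div_le_iff₀ h2]
      exact h12
  have hsum : (1 - θ) * y0 + θ * y1 ≤ K * h * δ := by
    have hc := convexOn_exp.2 (Set.mem_univ y0) (Set.mem_univ y1)
      (by linarith : (0:ℝ) ≤ 1 - θ) hθ0 (by ring)
    simp only [smul_eq_mul] at hc
    rw [e0, e1] at hc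
    have h3 : (1 - θ) * (N0 / N2) + θ * (N1 / N2) ≤ 1 + K * h * δ := by
      have : (1 - θ) * (N0 / N2) + θ * (N1 / N2) = ((1 - θ) * N0 + θ * N1) / N2 := by ring
      rw [this, div_le_iff₀ h2]; exact hconv
    have h4 := Real.add_one_le_exp ((1 - θ) * y0 + θ * y1)
    linarith
  have q0 : Real.exp (γ * y0) ≤ 1 + γ * y0 + (γ * y0) ^ 2 := by
    have habs : |γ * y0| ≤ 1 := by
      rw [abs_mul, abs_of_pos hγ]
      calc γ * |y0| ≤ γ * (2 * h) := by gcongr
        _ ≤ γ * (2 * δ) := by gcongr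
        _ ≤ 1 := by linarith
    linarith [(abs_le.mp (Real.abs_exp_sub_one_sub_id_le habs)).2]
  have q1 : Real.exp (γ * y1) ≤ 1 + γ * y1 + (γ * y1) ^ 2 := by
    have habs : |γ * y1| ≤ 1 := by
      rw [abs_mul, abs_of_pos hγ]
      calc γ * |y1| ≤ γ * (2 * (δ - h)) := by gcongr
        _ ≤ γ * (2 * δ) := by gcongr; linarith
        _ ≤ 1 := by linarith
    linarith [(abs_le.mp (Real.abs_exp_sub_one_sub_id_le habs)).2]
  have s0 : y0 ^ 2 ≤ 4 * h ^ 2 := by
    have := sq_le_sq' (by linarith [neg_abs_le y0]) (le_trans (le_abs_self y0) b0)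
    linarith
  have s1 : y1 ^ 2 ≤ 4 * (δ - h) ^ 2 := by
    have := sq_le_sq' (by linarith [neg_abs_le y1]) (le_trans (le_abs_self y1) b1)
    linarith
  have r0 : N0 ^ γ = Real.exp (γ * y0) * N2 ^ γ := by
    have : N0 = Real.exp y0 * N2 := by rw [e0]; field_simp
    conv_lhs => rw [this]
    rw [Real.mul_rpow (Real.exp_pos _).le h2.le, ← Real.exp_mul, mul_comm y0 γ]
  have r1 : N1 ^ γ = Real.exp (γ * y1) * N2 ^ γ := by
    have : N1 = Real.exp y1 * N2 := by rw [e1]; field_simp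
    conv_lhs => rw [this]
    rw [Real.mul_rpow (Real.exp_pos _).le h2.le, ← Real.exp_mul, mul_comm y1 γ]
  rw [r0, r1]
  have hP : 0 < N2 ^ γ := Real.rpow_pos_of_pos h2 γ
  have key : (1 - θ) * Real.exp (γ * y0) + θ * Real.exp (γ * y1) ≤
      1 + (γ * K + 4 * γ ^ 2) * (h * δ) := by
    have t1 : (1 - θ) * Real.exp (γ * y0) ≤ (1 - θ) * (1 + γ * y0 + (γ * y0) ^ 2) :=
      mul_le_mul_of_nonneg_left q0 (by linarith)
    have t2 : θ * Real.exp (γ * y1) ≤ θ * (1 + γ * y1 + (γ * y1) ^ 2) :=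
      mul_le_mul_of_nonneg_left q1 hθ0
    have t3 : (1 - θ) * (γ * y0) ^ 2 ≤ (1 - θ) * (γ ^ 2 * (4 * h ^ 2)) := by
      rw [mul_pow]
      exact mul_le_mul_of_nonneg_left (mul_le_mul_of_nonneg_left s0 (sq_nonneg _)) (by linarith)
    have t4 : θ * (γ * y1) ^ 2 ≤ θ * (γ ^ 2 * (4 * (δ - h) ^ 2)) := by
      rw [mul_pow]
      exact mul_le_mul_of_nonneg_left (mul_le_mul_of_nonneg_left s1 (sq_nonneg _)) hθ0
    have t5 : (1 - θ) * (γ ^ 2 * (4 * h ^ 2)) + θ * (γ ^ 2 * (4 * (δ - h) ^ 2)) =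
        4 * γ ^ 2 * (h * (δ - h)) := by
      have : h = θ * δ := hθδ.symm
      rw [this]; ring
    have t6 : γ * ((1 - θ) * y0 + θ * y1) ≤ γ * (K * h * δ) :=
      mul_le_mul_of_nonneg_left hsum hγ.le
    have t7 : 4 * γ ^ 2 * (h * (δ - h)) ≤ 4 * γ ^ 2 * (h * δ) := by
      gcongr; linarith
    nlinarith
  nlinarith

/-- the step cost along the stretch family -/
noncomputable def cs (i j : Fin d) (α s : ℝ) (v : Sp d) : ℝ := ‖stretchL i j s v‖ ^ α

theorem cs_nonneg (i j : Fin d) (α s : ℝ) (v : Sp d) : 0 ≤ cs i j α s v := by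
  unfold cs; positivity

theorem cs_neg (i j : Fin d) (α s : ℝ) (v : Sp d) : cs i j α s (-v) = cs i j α s v := by
  unfold cs; rw [map_neg, norm_neg]

theorem cs_zero (i j : Fin d) {α : ℝ} (hα : 0 < α) (s : ℝ) : cs i j α s 0 = 0 := by
  unfold cs; rw [map_zero, norm_zero, Real.zero_rpow hα.ne']

theorem cs_at_zero (i j : Fin d) (α : ℝ) (v : Sp d) : cs i j α 0 v = ‖v‖ ^ α := by
  unfold cs; rw [stretchL_zero]

theorem cs_semiconc (i j : Fin d) {α : ℝ} (hα : 0 < α) {h δ : ℝ} (hh : 0 < h) (hδ : h ≤ δ)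
    (hδ1 : δ ≤ 1/2) (hαδ : α * δ ≤ 1) (v : Sp d) :
    (1 - h/δ) * cs i j α 0 v + (h/δ) * cs i j α δ v ≤
      (1 + (6 * α + α ^ 2) * (h * δ)) * cs i j α h v := by
  by_cases hv : v = 0
  · subst hv
    rw [cs_zero _ _ hα, cs_zero _ _ hα, cs_zero _ _ hα]; simp
  have hpos : ∀ s, 0 < ‖stretchL i j s v‖ := by
    intro s
    have h1 := norm_stretchL_le i j 0 s v
    rw [stretchL_zero] at h1
    have h2 : 0 < ‖v‖ := norm_pos_iff.mpr hv
    by_contra hcon
    push Not at hcon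
    have h3 : ‖stretchL i j s v‖ = 0 := le_antisymm hcon (norm_nonneg _)
    rw [h3, mul_zero] at h1
    linarith
  have hN : ∀ s, cs i j α s v = (‖stretchL i j s v‖ ^ 2) ^ (α / 2) := by
    intro s
    unfold cs
    rw [← Real.rpow_natCast, ← Real.rpow_mul (norm_nonneg _)]
    congr 1; push_cast; ring
  have hle : ∀ s t, ‖stretchL i j s v‖ ^ 2 ≤ Real.exp (2 * |s - t|) * ‖stretchL i j t v‖ ^ 2 := by
    intro s t
    have h1 := norm_stretchL_le i j s t v
    have h2 : Real.exp (2 * |s - t|) = Real.exp |s - t| ^ 2 := by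
      rw [← Real.exp_nat_mul]; norm_num
    rw [h2, ← mul_pow]
    gcongr
  have hδ0 : 0 < δ := hh.trans_le hδ
  have a1 : |0 - h| = h := by rw [zero_sub, abs_neg, abs_of_pos hh]
  have a2 : |h - 0| = h := by rw [sub_zero, abs_of_pos hh]
  have a3 : |δ - h| = δ - h := abs_of_nonneg (by linarith)
  have a4 : |h - δ| = δ - h := by rw [abs_sub_comm]; exact a3
  have := rpow_semiconc (γ := α / 2) (h := h) (δ := δ) (N0 := ‖stretchL i j 0 v‖ ^ 2)
    (N1 := ‖stretchL i j δ v‖ ^ 2) (N2 := ‖stretchL i j h v‖ ^ 2) (K := 12) (by positivity)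
    hh hδ (by linarith) (by norm_num) (by have := hpos 0; positivity)
    (by have := hpos δ; positivity) (by have := hpos h; positivity)
    (by have := hle 0 h; rwa [a1] at this) (by have := hle h 0; rwa [a2] at this)
    (by have := hle δ h; rwa [a3] at this) (by have := hle h δ; rwa [a4] at this)
    (norm_sq_semiconc i j hh hδ hδ1 v)
  rw [hN 0, hN δ, hN h]
  convert this using 2
  ring

end Pool.Agent.Helper322.EFPP
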